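import Mathlib

set_option autoImplicit false

namespace Pool.Agent.Lib.MP_db21fa_an.H28

open Polynomial IntermediateField

section

variable {k K : Type*} [Field k] [Field K] [Algebra k K]

theorem der_adjoin (E : Derivation k K K) (L : IntermediateField k K) (S : Set K)
    (hS : ∀ s ∈ S, s ∈ L ∧ E s ∈ L) (x : K) (hx : x ∈ IntermediateField.adjoin k S) :
    E x ∈ L := by
  have hSL : IntermediateField.adjoin k S ≤ L := by
    rw [IntermediateField.adjoin_le_iff]
    intro s hs; exact (hS s hs).1
  induction hx using IntermediateField.adjoin_induction with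
  | mem x hx => exact (hS x hx).2
  | algebraMap c => simp
  | add x y hx hy h1 h2 => rw [map_add]; exact add_mem h1 h2
  | inv x hx h1 =>
    rw [Derivation.leibniz_inv]
    have h2 : x⁻¹ ∈ L := L.inv_mem (hSL hx)
    rw [neg_smul, smul_eq_mul]
    exact L.neg_mem (L.mul_mem (pow_mem h2 2) h1)
  | mul x y hx hy h1 h2 =>
    rw [Derivation.leibniz]
    exact add_mem (L.mul_mem (hSL hx) h2) (L.mul_mem (hSL hy) h1)

theorem der_aeval (E : Derivation k K K) (F L : IntermediateField k K) (hFL : F ≤ L)
    (hF : ∀ x ∈ F, E x ∈ F) (l : K) (hl : l ∈ L) (p : F[X]) :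
    E (aeval l p) - aeval l (derivative p) * E l ∈ L := by
  induction p using Polynomial.induction_on' with
  | add p q h1 h2 =>
    have : E (aeval l (p + q)) - aeval l (derivative (p + q)) * E l =
      (E (aeval l p) - aeval l (derivative p) * E l) +
      (E (aeval l q) - aeval l (derivative q) * E l) := by
      simp only [map_add]; ring
    rw [this]; exact L.add_mem h1 h2
  | monomial n c =>
    have : E (aeval l (monomial n c)) - aeval l (derivative (monomial n c)) * E l =
      l ^ n * E (c : K) := by
      rw [aeval_monomial, derivative_monomial, aeval_monomial, Derivation.leibniz,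
        Derivation.leibniz_pow]
      simp only [smul_eq_mul, nsmul_eq_mul, map_mul, map_natCast, IntermediateField.algebraMap_apply]
      ring
    rw [this]
    exact L.mul_mem (pow_mem hl n) (hFL (hF _ c.2))

theorem der_alg [CharZero k] (E : Derivation k K K) (F L : IntermediateField k K) (hFL : F ≤ L)
    (hF : ∀ x ∈ F, E x ∈ F) (l : K) (hl : l ∈ L) (ha : IsAlgebraic F l) : E l ∈ L := by
  have h1 := der_aeval E F L hFL hF l hl (minpoly F l)
  rw [minpoly.aeval, map_zero, zero_sub] at h1
  have h2 : aeval l (derivative (minpoly F l)) ≠ 0 := by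
    have : CharZero F := charZero_of_injective_algebraMap (algebraMap k F).injective
    exact (minpoly.irreducible ha.isIntegral).separable.aeval_derivative_ne_zero (minpoly.aeval _ _)
  have h3 : aeval l (derivative (minpoly F l)) ∈ L := by
    generalize derivative (minpoly F l) = q
    rw [aeval_eq_sum_range]
    apply L.sum_mem
    intro i _
    rw [Algebra.smul_def]
    exact L.mul_mem (hFL (q.coeff i).2) (pow_mem hl i)
  have h4 : E l = (aeval l (derivative (minpoly F l)))⁻¹ *
      (-(-(aeval l (derivative (minpoly F l)) * E l))) := by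
    field_simp
  rw [h4]
  exact L.mul_mem (L.inv_mem h3) (L.neg_mem h1)

end

end Pool.Agent.Lib.MP_db21fa_an.H28
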