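import Pool.Agent.Lib.MP_db21fa_an.H28.Core

set_option autoImplicit false

open Filter Topology IntermediateField

namespace Pool.Agent.Lib.MP_db21fa_an.H28

section

variable {K : Type*} [Field K] [Algebra Ent K] [Algebra ℂ K] [IsScalarTower ℂ Ent K]
  [IsFractionRing Ent K]

/-- the identity function -/
def idE : Ent := ⟨fun x => x, differentiable_id⟩

theorem ent_algebraMap (c : ℂ) (x : ℂ) : ((algebraMap ℂ Ent c : Ent) : ℂ → ℂ) x = c := rfl

theorem no_zero_of_alpha (h b : Ent) (h0 : h ≠ 0) (b0 : b ≠ 0) (W : K)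
    (hW : ∀ y, ∃ c e : ℂ, algebraMap Ent K (G1 h b y) / algebraMap Ent K (G0 h b y) =
      algebraMap ℂ K c * W + algebraMap ℂ K e) (z : ℂ) : (h : ℂ → ℂ) z ≠ 0 := by
  intro hz
  obtain ⟨A, B, hB, rfl⟩ := IsFractionRing.div_surjective (A := Ent) W
  have hB0 : B ≠ 0 := nonZeroDivisors.ne_zero hB
  have hBK := map_ne (K := K) hB0
  have hprod : ∀ y, (b : ℂ → ℂ) (z + 2 * y) * (B : ℂ → ℂ) (z + y) = 0 := by
    intro y
    by_contra hne
    have hb1 : (b : ℂ → ℂ) (z + 2 * y) ≠ 0 := left_ne_zero_of_mul hne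
    have hB1 : (B : ℂ → ℂ) (z + y) ≠ 0 := right_ne_zero_of_mul hne
    obtain ⟨c, e, hce⟩ := hW y
    have hG : algebraMap Ent K (G0 h b y) ≠ 0 :=
      map_ne (mul_ne_zero (sh_ne_zero h0 _) (sh_ne_zero b0 _))
    have h1 : algebraMap Ent K (G1 h b y * B) =
        algebraMap Ent K ((algebraMap ℂ Ent c * A + algebraMap ℂ Ent e * B) * G0 h b y) := by
      simp only [map_mul, map_add, ← IsScalarTower.algebraMap_apply]
      rw [div_eq_iff hG] at hce
      rw [hce]
      field_simp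
    have h2 : G1 h b y * B = (algebraMap ℂ Ent c * A + algebraMap ℂ Ent e * B) * G0 h b y :=
      IsFractionRing.injective Ent K h1
    set M : Ent := algebraMap ℂ Ent c * A + algebraMap ℂ Ent e * B with hM
    have h3 : ∀ x : ℂ, ((h : ℂ → ℂ) (x + -y) * (dE b : ℂ → ℂ) (x + y) -
        (dE h : ℂ → ℂ) (x + -y) * (b : ℂ → ℂ) (x + y)) * (B : ℂ → ℂ) x =
        (M : ℂ → ℂ) x * ((h : ℂ → ℂ) (x + -y) * (b : ℂ → ℂ) (x + y)) := by
      intro x
      exact congrArg (fun u : Ent => (u : ℂ → ℂ) x) h2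
    have hp1 : (b : ℂ → ℂ) (z + y + y) ≠ 0 := by
      rwa [show z + y + y = z + 2 * y by ring]
    have h4 : ∀ᶠ x in 𝓝 (z + y), (sh h (-y) : ℂ → ℂ) x = 0 := by
      apply lemZ (q := fun x => ((dE b : ℂ → ℂ) (x + y) * (B : ℂ → ℂ) x -
        (M : ℂ → ℂ) x * (b : ℂ → ℂ) (x + y)) / ((b : ℂ → ℂ) (x + y) * (B : ℂ → ℂ) x))
      · exact (ent_diff (sh h (-y))).analyticAt _
      · apply AnalyticAt.div
        · exact (((ent_diff (sh (dE b) y * B)).sub (ent_diff (M * sh b y)))).analyticAt _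
        · exact (ent_diff (sh b y * B)).analyticAt _
        · exact mul_ne_zero hp1 hB1
      · rw [sh_apply, show z + y + -y = z by ring]; exact hz
      · have e1 : ∀ᶠ x in 𝓝 (z + y), (b : ℂ → ℂ) (x + y) ≠ 0 :=
          ((ent_diff (sh b y)).continuous.continuousAt).eventually_ne hp1
        have e2 : ∀ᶠ x in 𝓝 (z + y), (B : ℂ → ℂ) x ≠ 0 :=
          ((ent_diff B).continuous.continuousAt).eventually_ne hB1
        filter_upwards [e1, e2] with x hx1 hx2
        have h5 : deriv (sh h (-y) : ℂ → ℂ) x = (dE h : ℂ → ℂ) (x + -y) := by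
          rw [← dE_apply, dE_sh]; rfl
        rw [h5, sh_apply]
        field_simp
        linear_combination -(h3 x)
    have h6 := entire_zero (ent_diff (sh h (-y))) h4
    exact sh_ne_zero h0 (-y) (by ext x; exact h6 x)
  have d1 : Differentiable ℂ (fun y : ℂ => (b : ℂ → ℂ) (z + 2 * y)) :=
    (ent_diff b).comp ((differentiable_id.const_mul 2).const_add z)
  have d2 : Differentiable ℂ (fun y : ℂ => (B : ℂ → ℂ) (z + y)) :=
    (ent_diff B).comp (differentiable_id.const_add z)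
  rcases mul_eq_zero_fun d1 d2 hprod with h7 | h7
  · apply b0
    ext x
    have := h7 ((x - z) / 2)
    rw [show z + 2 * ((x - z) / 2) = x by ring] at this
    exact this
  · apply hB0
    ext x
    have := h7 (x - z)
    rw [show z + (x - z) = x by ring] at this
    exact this

theorem transc_UU (f : Ent) (f0 : f ≠ 0) (z : ℂ) (hz : (f : ℂ → ℂ) z = 0) :
    Transcendental ℂ (UU K f 0) := by
  intro hal
  obtain ⟨c, hc⟩ := mem_range_of_isAlgebraic hal
  obtain ⟨D, hD⟩ := exists_derivation_frac (K := K) dE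
  have h1 := D_quot D hD f f0 0
  have hf := map_ne (K := K) (sh_ne_zero f0 0)
  have h2 : D (algebraMap Ent K idE) = 1 := by
    rw [hD]
    have : dE idE = 1 := by
      ext x
      rw [dE_apply]
      exact deriv_id x
    rw [this, map_one]
  have h3 : D (algebraMap Ent K (sh (dE f) 0) / algebraMap Ent K (sh f 0) -
      algebraMap ℂ K c * algebraMap Ent K idE) = 0 := by
    rw [map_sub, h1, Derivation.leibniz, h2, hc]; simp
  obtain ⟨e, he⟩ := const_of_D D hD _ h3
  have h4 : algebraMap Ent K (sh (dE f) 0) = algebraMap Ent K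
      ((algebraMap ℂ Ent c * idE + algebraMap ℂ Ent e) * sh f 0) := by
    simp only [map_mul, map_add, ← IsScalarTower.algebraMap_apply]
    rw [← he]
    field_simp
    ring
  have h5 : sh (dE f) 0 = (algebraMap ℂ Ent c * idE + algebraMap ℂ Ent e) * sh f 0 :=
    IsFractionRing.injective Ent K h4
  have h6 : ∀ᶠ x in 𝓝 z, (f : ℂ → ℂ) x = 0 := by
    apply lemZ (q := fun x => c * x + e) ((ent_diff f).analyticAt z) _ hz
    · apply Eventually.of_forall
      intro x
      have := congrArg (fun u : Ent => (u : ℂ → ℂ) x) h5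
      have e1 : (sh (dE f) 0 : ℂ → ℂ) x = deriv (f : ℂ → ℂ) x := by
        rw [sh_apply, dE_apply, add_zero]
      rw [← e1]
      refine Eq.trans this ?_
      show (c * x + e) * (f : ℂ → ℂ) (x + 0) = _
      rw [add_zero]
    · fun_prop
  exact f0 (by ext x; exact entire_zero (ent_diff f) h6 x)

theorem quasi (f : Ent) (f0 : f ≠ 0) (a₁ a₂ : ℂ) (hU : UU K f a₁ = UU K f a₂) :
    ∃ A B : ℂ, ∀ z, (f : ℂ → ℂ) (z + a₁) = Complex.exp (A * z + B) * (f : ℂ → ℂ) (z + a₂) := by
  obtain ⟨D, hD⟩ := exists_derivation_frac (K := K) dE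
  have h1 : D (algebraMap Ent K (sh (dE f) a₁) / algebraMap Ent K (sh f a₁) -
      algebraMap Ent K (sh (dE f) a₂) / algebraMap Ent K (sh f a₂)) = 0 := by
    rw [map_sub, D_quot D hD f f0, D_quot D hD f f0, hU, sub_self]
  obtain ⟨A, hA⟩ := const_of_D D hD _ h1
  have n1 := map_ne (K := K) (sh_ne_zero f0 a₁)
  have n2 := map_ne (K := K) (sh_ne_zero f0 a₂)
  have h2 : algebraMap Ent K (sh (dE f) a₁ * sh f a₂ - sh (dE f) a₂ * sh f a₁) =
      algebraMap Ent K (algebraMap ℂ Ent A * (sh f a₁ * sh f a₂)) := by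
    simp only [map_mul, map_sub, ← IsScalarTower.algebraMap_apply]
    rw [← hA]
    field_simp
  have h3 : sh (dE f) a₁ * sh f a₂ - sh (dE f) a₂ * sh f a₁ =
      algebraMap ℂ Ent A * (sh f a₁ * sh f a₂) := IsFractionRing.injective Ent K h2
  have h4 : ∀ x : ℂ, (dE f : ℂ → ℂ) (x + a₁) * (f : ℂ → ℂ) (x + a₂) -
      (dE f : ℂ → ℂ) (x + a₂) * (f : ℂ → ℂ) (x + a₁) =
      A * ((f : ℂ → ℂ) (x + a₁) * (f : ℂ → ℂ) (x + a₂)) := by
    intro x
    exact congrArg (fun u : Ent => (u : ℂ → ℂ) x) h3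
  have hdu : ∀ x, HasDerivAt (fun z => (f : ℂ → ℂ) (z + a₁) * Complex.exp (-A * z))
      ((dE f : ℂ → ℂ) (x + a₁) * Complex.exp (-A * x) +
        (f : ℂ → ℂ) (x + a₁) * (Complex.exp (-A * x) * -A)) x := by
    intro x
    have e1 : HasDerivAt (fun z => (f : ℂ → ℂ) (z + a₁)) ((dE f : ℂ → ℂ) (x + a₁)) x := by
      have := (ent_diff f (x + a₁)).hasDerivAt.comp_add_const x a₁
      exact this
    have e2 : HasDerivAt (fun z : ℂ => Complex.exp (-A * z)) (Complex.exp (-A * x) * -A) x := by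
      have := ((hasDerivAt_id x).const_mul (-A)).cexp
      simpa using this
    exact e1.mul e2
  have hdv : ∀ x, HasDerivAt (fun z => (f : ℂ → ℂ) (z + a₂)) ((dE f : ℂ → ℂ) (x + a₂)) x := by
    intro x
    exact (ent_diff f (x + a₂)).hasDerivAt.comp_add_const x a₂
  obtain ⟨c, hc⟩ := wronsk (a := fun z => (f : ℂ → ℂ) (z + a₁) * Complex.exp (-A * z))
    (b := fun z => (f : ℂ → ℂ) (z + a₂)) (fun x => (hdu x).differentiableAt)
    (fun x => (hdv x).differentiableAt) (by
      obtain ⟨z, hz⟩ := ent_ne_zero f0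
      exact ⟨z - a₂, by simpa using hz⟩) (by
      intro x
      rw [(hdu x).deriv, (hdv x).deriv]
      linear_combination Complex.exp (-A * x) * h4 x)
  have hc0 : c ≠ 0 := by
    rintro rfl
    obtain ⟨z, hz⟩ := ent_ne_zero f0
    have := hc (z - a₁)
    rw [zero_mul, show z - a₁ + a₁ = z by ring] at this
    exact mul_ne_zero hz (Complex.exp_ne_zero _) this
  refine ⟨A, Complex.log c, fun z => ?_⟩
  rw [Complex.exp_add, Complex.exp_log hc0]
  have h5 := hc z
  have h6 : Complex.exp (-A * z) * Complex.exp (A * z) = 1 := by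
    rw [← Complex.exp_add]; simp
  calc (f : ℂ → ℂ) (z + a₁) = ((f : ℂ → ℂ) (z + a₁) * Complex.exp (-A * z)) *
      Complex.exp (A * z) := by rw [mul_assoc, h6, mul_one]
    _ = _ := by rw [h5]; ring

end

end Pool.Agent.Lib.MP_db21fa_an.H28
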