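import Pool.Agent.Lib.MP_db21fa_an.H28.Count

/-!
# Order-two growth is automatic

If `h (x - y) b (x + y)` is a finite sum of products and `h`, `b` are entire and nonzero, then
`h` and `b` have order-two growth.
-/

set_option autoImplicit false

open Filter Topology Metric

namespace Pool.Agent.Lib.MP_db21fa_an.H28

/-- `h` and `b` are bounded by `e^K` on the disc of radius `r` -/
def Bd (h b : ℂ → ℂ) (r K : ℝ) : Prop :=
  ∀ z, ‖z‖ ≤ r → ‖h z‖ ≤ Real.exp K ∧ ‖b z‖ ≤ Real.exp K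

/-- `u` is bounded by `A e^{2K}` on the disc of radius `r` when `h`, `b` are bounded by `e^K` on the
disc of radius `r + ρ` -/
def PB (h b u : ℂ → ℂ) : Prop :=
  ∃ A ρ : ℝ, 0 ≤ A ∧ 0 ≤ ρ ∧ ∀ r K, Bd h b (r + ρ) K → ∀ z, ‖z‖ ≤ r → ‖u z‖ ≤ A * Real.exp (2 * K)

theorem Bd.mono {h b : ℂ → ℂ} {r r' K : ℝ} (hB : Bd h b r K) (hr : r' ≤ r) : Bd h b r' K :=
  fun z hz => hB z (hz.trans hr)

theorem PB.of_trans {h b : ℂ → ℂ} (s t : ℂ) (σ τ : ℂ) (hσ : ‖σ‖ = 1) (hτ : ‖τ‖ = 1) :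
    PB h b (fun z => h (σ * z + s) * b (τ * z + t)) := by
  refine ⟨1, ‖s‖ + ‖t‖, zero_le_one, by positivity, fun r K hB z hz => ?_⟩
  have h1 : ‖σ * z + s‖ ≤ r + (‖s‖ + ‖t‖) := by
    refine (norm_add_le _ _).trans ?_
    rw [norm_mul, hσ, one_mul]
    have := norm_nonneg t
    linarith
  have h2 : ‖τ * z + t‖ ≤ r + (‖s‖ + ‖t‖) := by
    refine (norm_add_le _ _).trans ?_
    rw [norm_mul, hτ, one_mul]
    have := norm_nonneg s
    linarith
  rw [norm_mul, one_mul, two_mul, Real.exp_add]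
  exact mul_le_mul (hB _ h1).1 (hB _ h2).2 (norm_nonneg _) (Real.exp_pos _).le

theorem PB.add {h b u v : ℂ → ℂ} (hu : PB h b u) (hv : PB h b v) : PB h b (u + v) := by
  obtain ⟨A, ρ, hA, hρ, h1⟩ := hu
  obtain ⟨A', ρ', hA', hρ', h2⟩ := hv
  refine ⟨A + A', ρ + ρ', by positivity, by positivity, fun r K hB z hz => ?_⟩
  have e1 := h1 r K (hB.mono (by linarith)) z hz
  have e2 := h2 r K (hB.mono (by linarith)) z hz
  rw [Pi.add_apply, add_mul]
  exact (norm_add_le _ _).trans (add_le_add e1 e2)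

theorem PB.smul {h b u : ℂ → ℂ} (c : ℂ) (hu : PB h b u) : PB h b (c • u) := by
  obtain ⟨A, ρ, hA, hρ, h1⟩ := hu
  refine ⟨‖c‖ * A, ρ, by positivity, hρ, fun r K hB z hz => ?_⟩
  have e1 := h1 r K hB z hz
  rw [Pi.smul_apply, norm_smul, mul_assoc]
  exact mul_le_mul_of_nonneg_left e1 (norm_nonneg _)

theorem PB.zero {h b : ℂ → ℂ} : PB h b 0 :=
  ⟨0, 0, le_rfl, le_rfl, fun r K _ z _ => by simp⟩

/-- the doubling inequality for the product -/
theorem double_F {h b : ℂ → ℂ} {N : ℕ} (f g : Fin N → ℂ → ℂ)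
    (heq : ∀ x y, h (x - y) * b (x + y) = ∑ j, f j x * g j y) :
    ∃ A ρ : ℝ, 0 ≤ A ∧ 0 ≤ ρ ∧ ∀ r K, Bd h b (r + ρ) K → ∀ z y, ‖z‖ ≤ r → ‖y‖ ≤ r →
      ‖h (z - y) * b (z + y)‖ ≤ A * Real.exp (4 * K) := by
  let V : Submodule ℂ (ℂ → ℂ) := Submodule.span ℂ (Set.range fun y x => h (x - y) * b (x + y))
  have hVf : V ≤ Submodule.span ℂ (Set.range f) := by
    rw [Submodule.span_le]
    rintro _ ⟨y, rfl⟩
    have e1 : (fun x => h (x - y) * b (x + y)) = ∑ j, g j y • f j := by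
      funext x
      rw [heq, Finset.sum_apply]
      exact Finset.sum_congr rfl fun j _ => by rw [Pi.smul_apply, smul_eq_mul]; ring
    simp only [SetLike.mem_coe]
    rw [e1]
    exact Submodule.sum_mem _ fun j _ => Submodule.smul_mem _ _ (Submodule.subset_span ⟨j, rfl⟩)
  have hfd : FiniteDimensional ℂ (Submodule.span ℂ (Set.range f)) :=
    FiniteDimensional.span_of_finite ℂ (Set.finite_range f)
  have hV : FiniteDimensional ℂ V := Submodule.finiteDimensional_of_le hVf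
  obtain ⟨m, x, c, hc, hx⟩ := interp _ V hV le_rfl
  have hPB : ∀ u ∈ V, PB h b u := by
    intro u hu
    refine Submodule.span_induction (p := fun u _ => PB h b u) ?_ PB.zero ?_ ?_ hu
    · rintro _ ⟨y, rfl⟩
      have h1 := PB.of_trans (h := h) (b := b) (-y) y 1 1 norm_one norm_one
      simpa [sub_eq_add_neg] using h1
    · intro u v _ _ h1 h2; exact h1.add h2
    · intro c u _ h1; exact h1.smul c
  have hPB' : ∀ s : ℂ, PB h b (fun y => h (s - y) * b (s + y)) := by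
    intro s
    have h1 := PB.of_trans (h := h) (b := b) s s (-1) 1 (by simp) norm_one
    have e1 : (fun y => h (s - y) * b (s + y)) = fun z => h (-1 * z + s) * b (1 * z + s) := by
      funext z; congr 2 <;> ring
    rw [e1]; exact h1
  choose A ρ hA hρ h1 using fun k => hPB _ (hc k)
  choose A' ρ' hA' hρ' h2 using fun k => hPB' (x k)
  refine ⟨∑ k, A' k * A k, ∑ k, (ρ k + ρ' k), Finset.sum_nonneg fun k _ =>
    mul_nonneg (hA' k) (hA k), Finset.sum_nonneg fun k _ => add_nonneg (hρ k) (hρ' k), ?_⟩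
  intro r K hB z y hz hy
  have h3 := hx _ (Submodule.subset_span ⟨y, rfl⟩ : (fun x => h (x - y) * b (x + y)) ∈ V) z
  rw [h3, Finset.sum_mul]
  refine (norm_sum_le _ _).trans (Finset.sum_le_sum fun k _ => ?_)
  have h4 : ρ k + ρ' k ≤ ∑ k, (ρ k + ρ' k) :=
    Finset.single_le_sum (f := fun k => ρ k + ρ' k)
      (fun k _ => add_nonneg (hρ k) (hρ' k)) (Finset.mem_univ k)
  have h5 := h1 k r K (hB.mono (by have := hρ' k; linarith)) z hz
  have h6 := h2 k r K (hB.mono (by have := hρ k; linarith)) y hy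
  rw [norm_mul]
  calc ‖h (x k - y) * b (x k + y)‖ * ‖c k z‖ ≤
        (A' k * Real.exp (2 * K)) * (A k * Real.exp (2 * K)) :=
        mul_le_mul h6 h5 (norm_nonneg _) (mul_nonneg (hA' k) (Real.exp_pos _).le)
    _ = A' k * A k * Real.exp (4 * K) := by
        rw [show 4 * K = 2 * K + 2 * K by ring, Real.exp_add]; ring

theorem double_hb {h b : ℂ → ℂ} (h0 : ∃ z, h z ≠ 0) (b0 : ∃ z, b z ≠ 0) {N : ℕ}
    (f g : Fin N → ℂ → ℂ) (heq : ∀ x y, h (x - y) * b (x + y) = ∑ j, f j x * g j y) :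
    ∃ C c : ℝ, 0 ≤ C ∧ 0 ≤ c ∧ ∀ r K, Bd h b (r + c) K → Bd h b (2 * r) (4 * K + C) := by
  obtain ⟨A, ρ, hA, hρ, hF⟩ := double_F f g heq
  obtain ⟨s, hs⟩ := h0
  obtain ⟨t, ht⟩ := b0
  have hs' : 0 < ‖h s‖ := norm_pos_iff.2 hs
  have ht' : 0 < ‖b t‖ := norm_pos_iff.2 ht
  refine ⟨A / ‖h s‖ + A / ‖b t‖, ‖s‖ + ‖t‖ + ρ, by positivity, by positivity, ?_⟩
  intro r K hB ζ hζ
  have hζ2 : ‖ζ / 2‖ ≤ r := by
    rw [norm_div, Complex.norm_two]; linarith
  have hs2 : ‖s / 2‖ ≤ ‖s‖ := by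
    rw [norm_div, Complex.norm_two]; linarith [norm_nonneg s]
  have ht2 : ‖t / 2‖ ≤ ‖t‖ := by
    rw [norm_div, Complex.norm_two]; linarith [norm_nonneg t]
  have hex : ∀ x : ℝ, x ≤ Real.exp x := fun x => by linarith [Real.add_one_le_exp x]
  have ns := norm_nonneg s
  have nt := norm_nonneg t
  constructor
  · -- `h ζ * b t = F ((ζ + t)/2, (t - ζ)/2)`
    have h1 := hF (r + ‖t‖) K (hB.mono (by linarith)) (ζ / 2 + t / 2) (t / 2 - ζ / 2)
      ((norm_add_le _ _).trans (by linarith)) ((norm_sub_le _ _).trans (by linarith))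
    rw [show ζ / 2 + t / 2 - (t / 2 - ζ / 2) = ζ by ring,
      show ζ / 2 + t / 2 + (t / 2 - ζ / 2) = t by ring, norm_mul] at h1
    have h2 : ‖h ζ‖ ≤ A / ‖b t‖ * Real.exp (4 * K) := by
      rw [div_mul_eq_mul_div, le_div_iff₀ ht']; exact h1
    rw [Real.exp_add, mul_comm (Real.exp (4 * K))]
    refine h2.trans (mul_le_mul_of_nonneg_right ?_ (Real.exp_pos _).le)
    refine (hex _).trans (Real.exp_le_exp.2 ?_)
    have : 0 ≤ A / ‖h s‖ := by positivity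
    linarith
  · have h1 := hF (r + ‖s‖) K (hB.mono (by linarith)) (ζ / 2 + s / 2) (ζ / 2 - s / 2)
      ((norm_add_le _ _).trans (by linarith)) ((norm_sub_le _ _).trans (by linarith))
    rw [show ζ / 2 + s / 2 - (ζ / 2 - s / 2) = s by ring,
      show ζ / 2 + s / 2 + (ζ / 2 - s / 2) = ζ by ring, norm_mul] at h1
    have h2 : ‖b ζ‖ ≤ A / ‖h s‖ * Real.exp (4 * K) := by
      rw [div_mul_eq_mul_div, le_div_iff₀ hs', mul_comm]; exact h1
    rw [Real.exp_add, mul_comm (Real.exp (4 * K))]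
    refine h2.trans (mul_le_mul_of_nonneg_right ?_ (Real.exp_pos _).le)
    refine (hex _).trans (Real.exp_le_exp.2 ?_)
    have : 0 ≤ A / ‖b t‖ := by positivity
    linarith

theorem auto_growth {h b : ℂ → ℂ} (hh : Continuous h) (hb : Continuous b)
    (h0 : ∃ z, h z ≠ 0) (b0 : ∃ z, b z ≠ 0) {N : ℕ}
    (f g : Fin N → ℂ → ℂ) (heq : ∀ x y, h (x - y) * b (x + y) = ∑ j, f j x * g j y) :
    OrderTwo h ∧ OrderTwo b := by
  obtain ⟨C, c, hC, hc, hdb⟩ := double_hb h0 b0 f g heq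
  obtain ⟨K₁, hK₁⟩ := (isCompact_closedBall (0 : ℂ) (2 * c + 1)).exists_bound_of_continuousOn
    hh.continuousOn
  obtain ⟨K₂, hK₂⟩ := (isCompact_closedBall (0 : ℂ) (2 * c + 1)).exists_bound_of_continuousOn
    hb.continuousOn
  have hex : ∀ x : ℝ, x ≤ Real.exp x := fun x => by linarith [Real.add_one_le_exp x]
  set K₀ : ℝ := |K₁| + |K₂| with hK₀
  have hK₀0 : 0 ≤ K₀ := by positivity
  have hbase : Bd h b (2 * c + 1) K₀ := by
    intro z hz
    have hz' := mem_closedBall_zero_iff.2 hz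
    constructor
    · refine (hK₁ z hz').trans ((hex _).trans (Real.exp_le_exp.2 ?_))
      linarith [le_abs_self K₁, abs_nonneg K₂]
    · refine (hK₂ z hz').trans ((hex _).trans (Real.exp_le_exp.2 ?_))
      linarith [le_abs_self K₂, abs_nonneg K₁]
  have hind : ∀ n : ℕ, Bd h b (2 * c + 2 ^ n) (4 ^ n * (K₀ + C) - C) := by
    intro n
    induction n with
    | zero => simpa using hbase
    | succ n ih =>
      have h1 := hdb (c + 2 ^ n) _ (by
        rw [show c + 2 ^ n + c = 2 * c + 2 ^ n by ring]; exact ih)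
      intro z hz
      have h2 := h1 z (by rw [pow_succ] at hz; linarith)
      have h3 : Real.exp (4 * (4 ^ n * (K₀ + C) - C) + C) ≤
          Real.exp (4 ^ (n + 1) * (K₀ + C) - C) := by
        apply Real.exp_le_exp.2
        rw [pow_succ]; linarith
      exact ⟨h2.1.trans h3, h2.2.trans h3⟩
  have hfin : ∀ z : ℂ, ‖h z‖ ≤ Real.exp ((4 * ‖z‖ ^ 2 + 1) * (K₀ + C)) ∧
      ‖b z‖ ≤ Real.exp ((4 * ‖z‖ ^ 2 + 1) * (K₀ + C)) := by
    intro z
    have hex2 : ∃ n : ℕ, ‖z‖ ≤ 2 ^ n := by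
      obtain ⟨n, hn⟩ := pow_unbounded_of_one_lt ‖z‖ (one_lt_two : (1 : ℝ) < 2)
      exact ⟨n, hn.le⟩
    classical
    set n := Nat.find hex2 with hn
    have hn1 : ‖z‖ ≤ 2 ^ n := Nat.find_spec hex2
    have hn2 : (4 : ℝ) ^ n ≤ 4 * ‖z‖ ^ 2 + 1 := by
      rcases Nat.eq_zero_or_pos n with h1 | h1
      · rw [h1, pow_zero]; nlinarith [sq_nonneg ‖z‖]
      · have h2 : ¬ ‖z‖ ≤ 2 ^ (n - 1) := Nat.find_min hex2 (by omega)
        push Not at h2
        have h3 : (4 : ℝ) ^ n = 4 * (2 ^ (n - 1)) ^ 2 := by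
          rw [← pow_mul, mul_comm (n - 1) 2, pow_mul]
          norm_num
          rw [← pow_succ']
          congr 1; omega
        rw [h3]
        have h4 : (0 : ℝ) < 2 ^ (n - 1) := by positivity
        nlinarith
    have h1 := hind n z (by linarith)
    have h2 : Real.exp (4 ^ n * (K₀ + C) - C) ≤ Real.exp ((4 * ‖z‖ ^ 2 + 1) * (K₀ + C)) := by
      apply Real.exp_le_exp.2
      have : 4 ^ n * (K₀ + C) ≤ (4 * ‖z‖ ^ 2 + 1) * (K₀ + C) :=
        mul_le_mul_of_nonneg_right hn2 (by positivity)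
      linarith
    exact ⟨h1.1.trans h2, h1.2.trans h2⟩
  have e1 : ∀ z : ℂ, Real.exp ((4 * ‖z‖ ^ 2 + 1) * (K₀ + C)) =
      Real.exp (K₀ + C) * Real.exp (4 * (K₀ + C) * ‖z‖ ^ 2) := by
    intro z
    rw [← Real.exp_add]; congr 1; ring
  exact ⟨⟨Real.exp (K₀ + C), 4 * (K₀ + C), fun z => (e1 z) ▸ (hfin z).1⟩,
    ⟨Real.exp (K₀ + C), 4 * (K₀ + C), fun z => (e1 z) ▸ (hfin z).2⟩⟩

end Pool.Agent.Lib.MP_db21fa_an.H28
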