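import Pool.Agent.Lib.MP_db21fa_an.H28.Auto

set_option autoImplicit false

open Filter Topology Polynomial

namespace Pool.Agent.Lib.MP_db21fa_an.H28

/-- the linear map `p ↦ e^{D q} p(E)` -/
noncomputable def linE (q E : ℂ → ℂ) (D : ℕ) : ℂ[X] →ₗ[ℂ] (ℂ → ℂ) where
  toFun p := fun x => Complex.exp (D * q x) * p.eval (E x)
  map_add' p r := by funext x; simp [mul_add]
  map_smul' c p := by funext x; simp; ring

/-- the conclusion of the converse: a finite sum representation with pairwise homogeneous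
relations -/
def Sol (h b : ℂ → ℂ) : Prop :=
  ∃ (N : ℕ) (f g : Fin N → ℂ → ℂ),
    (∀ j, Differentiable ℂ (f j) ∧ OrderTwo (f j)) ∧
    (∀ j, Differentiable ℂ (g j) ∧ OrderTwo (g j)) ∧
    (∀ x y, h (x - y) * b (x + y) = ∑ j, f j x * g j y) ∧
    ∀ i j k, ∃ P : MvPolynomial (Fin 3) ℂ, P ≠ 0 ∧ (∃ m, P.IsHomogeneous m) ∧
      ∀ x, MvPolynomial.eval ![f i x, f j x, f k x] P = 0

theorem sol_of_family {h b : ℂ → ℂ} (hh : Differentiable ℂ h) (hb : Differentiable ℂ b)
    (h0 : ∃ z, h z ≠ 0) (b0 : ∃ z, b z ≠ 0) (W : ℕ → Submodule ℂ (ℂ → ℂ)) (M : ℕ)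
    (hmul : ∀ D D', ∀ u ∈ W D, ∀ v ∈ W D', u * v ∈ W (D + D')) (hone : (1 : ℂ → ℂ) ∈ W 0)
    (hfd : ∀ D, FiniteDimensional ℂ (W D)) (hdim : ∀ D, Module.finrank ℂ (W D) ≤ M * D + M)
    (hW : ∀ y, (fun x => h (x - y) * b (x + y)) ∈ W 1) :
    OrderTwo h ∧ OrderTwo b ∧ Sol h b := by
  obtain ⟨ho, bo⟩ : OrderTwo h ∧ OrderTwo b := by
    have hfd' := hfd 1
    obtain ⟨m, x, c, hc, hx⟩ := interp _ (W 1) (hfd 1) le_rfl
    exact auto_growth hh.continuous hb.continuous h0 b0 c (fun k y => h (x k - y) * b (x k + y))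
      (fun u y => (hx _ (hW y) u).trans (Finset.sum_congr rfl fun j _ => by ring))
  obtain ⟨N, f, g, hf, hf', hg, heq⟩ := sum_of_mem hh hb ho bo (W 1) (hfd 1) hW
  exact ⟨ho, bo, N, f, g, hf', hg, heq, fun i j k =>
    relation_count W M hmul hone hfd hdim _ _ _ (hf i) (hf j) (hf k)⟩

theorem sol_of_uniform {h b : ℂ → ℂ} (hh : Differentiable ℂ h) (hb : Differentiable ℂ b)
    (h0 : ∃ z, h z ≠ 0) (b0 : ∃ z, b z ≠ 0) (E : ℂ → ℂ)
    (hE : ∀ y, ∃ s t : ℂ, ∀ x, E (x + y) = s * E x + t) (α β₁ β₂ : ℂ) (P Q : ℂ[X])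
    (hP : ∀ z, h z = Complex.exp (α * z ^ 2 + β₁ * z) * P.eval (E z))
    (hQ : ∀ z, b z = Complex.exp (α * z ^ 2 + β₂ * z) * Q.eval (E z)) : OrderTwo h ∧ OrderTwo b ∧ Sol h b := by
  set q : ℂ → ℂ := fun x => 2 * α * x ^ 2 + (β₁ + β₂) * x with hq
  set m := P.natDegree + Q.natDegree with hm
  have hfdlt : ∀ n, FiniteDimensional ℂ (degreeLT ℂ n) := fun n =>
    (degreeLTEquiv ℂ n).symm.finiteDimensional
  have hfrlt : ∀ n, Module.finrank ℂ (degreeLT ℂ n) = n := fun n => by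
    rw [(degreeLTEquiv ℂ n).finrank_eq, Module.finrank_fin_fun]
  refine sol_of_family hh hb h0 b0 (fun D => (degreeLT ℂ (m * D + 1)).map (linE q E D)) (m + 1)
    ?_ ?_ ?_ ?_ ?_
  · rintro D D' _ ⟨p, hp, rfl⟩ _ ⟨p', hp', rfl⟩
    refine ⟨p * p', ?_, ?_⟩
    · rw [SetLike.mem_coe, mem_degreeLT] at hp hp' ⊢
      by_cases h0 : p * p' = 0
      · rw [h0, degree_zero]; exact WithBot.bot_lt_coe _
      · have hp0 : p ≠ 0 := left_ne_zero_of_mul h0
        have hp0' : p' ≠ 0 := right_ne_zero_of_mul h0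
        rw [degree_eq_natDegree h0, natDegree_mul hp0 hp0']
        rw [degree_eq_natDegree hp0] at hp
        rw [degree_eq_natDegree hp0'] at hp'
        have e1 : p.natDegree < m * D + 1 := by exact_mod_cast hp
        have e2 : p'.natDegree < m * D' + 1 := by exact_mod_cast hp'
        have e3 : p.natDegree + p'.natDegree < m * (D + D') + 1 := by
          rw [mul_add]; omega
        exact_mod_cast e3
    · funext x
      show Complex.exp (((D + D' : ℕ) : ℂ) * q x) * (p * p').eval (E x) =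
        (Complex.exp (D * q x) * p.eval (E x)) * (Complex.exp (D' * q x) * p'.eval (E x))
      rw [eval_mul]
      push_cast
      rw [add_mul, Complex.exp_add]
      ring
  · refine ⟨1, ?_, ?_⟩
    · rw [SetLike.mem_coe, mem_degreeLT]
      refine degree_one_le.trans_lt ?_
      simp
    · funext x
      show Complex.exp (((0 : ℕ) : ℂ) * q x) * (1 : ℂ[X]).eval (E x) = 1
      simp
  · intro D
    have := hfdlt (m * D + 1)
    infer_instance
  · intro D
    have := hfdlt (m * D + 1)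
    refine (Submodule.finrank_map_le _ _).trans ?_
    rw [hfrlt]
    nlinarith
  · intro y
    obtain ⟨s, t, hst⟩ := hE (-y)
    obtain ⟨s', t', hst'⟩ := hE y
    refine ⟨C (Complex.exp (2 * α * y ^ 2 + (β₂ - β₁) * y)) *
      ((P.comp (C s * X + C t)) * (Q.comp (C s' * X + C t'))), ?_, ?_⟩
    · rw [SetLike.mem_coe, mem_degreeLT]
      have e1 : ∀ (R : ℂ[X]) (u v : ℂ), (R.comp (C u * X + C v)).natDegree ≤ R.natDegree := by
        intro R u v
        refine natDegree_comp_le.trans ?_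
        have := natDegree_linear_le (a := u) (b := v)
        calc R.natDegree * (C u * X + C v).natDegree ≤ R.natDegree * 1 :=
              Nat.mul_le_mul_left _ this
          _ = _ := mul_one _
      have e2 : (C (Complex.exp (2 * α * y ^ 2 + (β₂ - β₁) * y)) *
          ((P.comp (C s * X + C t)) * (Q.comp (C s' * X + C t')))).natDegree ≤ m := by
        refine (natDegree_C_mul_le _ _).trans (natDegree_mul_le.trans ?_)
        exact Nat.add_le_add (e1 _ _ _) (e1 _ _ _)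
      refine (degree_le_natDegree.trans (WithBot.coe_le_coe.2 e2)).trans_lt ?_
      rw [mul_one]
      exact WithBot.coe_lt_coe.2 (Nat.lt_succ_self m)
    · funext x
      show Complex.exp (((1 : ℕ) : ℂ) * q x) * _ = h (x - y) * b (x + y)
      rw [hP, hQ, sub_eq_add_neg x y, hst, hst', eval_mul, eval_mul, eval_C, eval_comp, eval_comp]
      simp only [eval_add, eval_mul, eval_C, eval_X, Nat.cast_one, one_mul]
      have e1 : Complex.exp (q x) * Complex.exp (2 * α * y ^ 2 + (β₂ - β₁) * y) =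
          Complex.exp (α * (x + -y) ^ 2 + β₁ * (x + -y)) *
          Complex.exp (α * (x + y) ^ 2 + β₂ * (x + y)) := by
        rw [← Complex.exp_add, ← Complex.exp_add, hq]
        congr 1; ring
      linear_combination (P.eval (s * E x + t) * Q.eval (s' * E x + t')) * e1

theorem sol_rational {h b : ℂ → ℂ} (hh : Differentiable ℂ h) (hb : Differentiable ℂ b)
    (h0 : ∃ z, h z ≠ 0) (b0 : ∃ z, b z ≠ 0) (hr : RationalPair h b) : OrderTwo h ∧ OrderTwo b ∧ Sol h b := by
  obtain ⟨α, β₁, β₂, P, Q, hPQ⟩ := hr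
  exact sol_of_uniform hh hb h0 b0 (fun z => z) (fun y => ⟨1, y, fun x => by ring⟩) α β₁ β₂ P Q
    (fun z => (hPQ z).1) (fun z => (hPQ z).2)

theorem sol_trig {h b : ℂ → ℂ} (hh : Differentiable ℂ h) (hb : Differentiable ℂ b)
    (h0 : ∃ z, h z ≠ 0) (b0 : ∃ z, b z ≠ 0) (hr : TrigPair h b) : OrderTwo h ∧ OrderTwo b ∧ Sol h b := by
  obtain ⟨α, β₁, β₂, l, P, Q, hPQ⟩ := hr
  exact sol_of_uniform hh hb h0 b0 (fun z => Complex.exp (l * z))
    (fun y => ⟨Complex.exp (l * y), 0, fun x => by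
      rw [mul_add, Complex.exp_add]; ring⟩) α β₁ β₂ P Q
    (fun z => (hPQ z).1) (fun z => (hPQ z).2)

end Pool.Agent.Lib.MP_db21fa_an.H28
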