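import Pool.Agent.Lib.MP_db21fa_an.H28.Shift

set_option autoImplicit false

open Filter Topology IntermediateField

namespace Pool.Agent.Lib.MP_db21fa_an.H28

section

variable (K : Type*) [Field K] [Algebra Ent K] [Algebra ℂ K] [IsScalarTower ℂ Ent K]
  [IsFractionRing Ent K]

/-- the second logarithmic derivative of `f`, translated by `a`, as an element of `K` -/
noncomputable def UU (f : Ent) (a : ℂ) : K :=
  (algebraMap Ent K (sh (dE (dE f)) a) * algebraMap Ent K (sh f a) -
    algebraMap Ent K (sh (dE f) a) ^ 2) / algebraMap Ent K (sh f a) ^ 2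

variable {K}

theorem map_ne {b : Ent} (hb : b ≠ 0) : algebraMap Ent K b ≠ 0 := by
  rwa [Ne, IsFractionRing.to_map_eq_zero_iff]

theorem D_quot (D : Derivation ℂ K K)
    (hD : ∀ a : Ent, D (algebraMap Ent K a) = algebraMap Ent K (dE a)) (f : Ent) (hf : f ≠ 0)
    (a : ℂ) :
    D (algebraMap Ent K (sh (dE f) a) / algebraMap Ent K (sh f a)) = UU K f a := by
  have h1 := map_ne (K := K) (sh_ne_zero hf a)
  rw [UU, div_eq_mul_inv, Derivation.leibniz, Derivation.leibniz_inv, smul_eq_mul, smul_eq_mul,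
    smul_eq_mul, hD, hD, dE_sh, dE_sh]
  field_simp
  ring

theorem D_UU (D : Derivation ℂ K K)
    (hD : ∀ a : Ent, D (algebraMap Ent K a) = algebraMap Ent K (dE a)) (f : Ent) (hf : f ≠ 0)
    (a : ℂ) :
    D (UU K f a) = algebraMap Ent K (sh (dE (dE (dE f))) a) / algebraMap Ent K (sh f a)
      - 3 * (algebraMap Ent K (sh (dE (dE f)) a) * algebraMap Ent K (sh (dE f) a) /
          algebraMap Ent K (sh f a) ^ 2)
      + 2 * (algebraMap Ent K (sh (dE f) a) / algebraMap Ent K (sh f a)) ^ 3 := by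
  have h1 := map_ne (K := K) (sh_ne_zero hf a)
  rw [UU, div_eq_mul_inv, Derivation.leibniz, Derivation.leibniz_inv, map_sub, Derivation.leibniz,
    Derivation.leibniz_pow, Derivation.leibniz_pow]
  simp only [smul_eq_mul, nsmul_eq_mul]
  rw [hD, hD, hD, dE_sh, dE_sh, dE_sh]
  field_simp
  push_cast
  ring

variable (h b : Ent) (h0 : h ≠ 0) (b0 : b ≠ 0)

include h0 b0

theorem w0_eq (y : ℂ) :
    algebraMap Ent K (G1 h b y) / algebraMap Ent K (G0 h b y) =
      algebraMap Ent K (sh (dE b) y) / algebraMap Ent K (sh b y) -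
      algebraMap Ent K (sh (dE h) (-y)) / algebraMap Ent K (sh h (-y)) := by
  have h1 := map_ne (K := K) (sh_ne_zero h0 (-y))
  have h2 := map_ne (K := K) (sh_ne_zero b0 y)
  simp only [G1, G0, map_sub, map_mul]
  field_simp

theorem w1_eq (y : ℂ) :
    algebraMap Ent K (G2 h b y) / algebraMap Ent K (G0 h b y) -
      (algebraMap Ent K (G1 h b y) / algebraMap Ent K (G0 h b y)) ^ 2 =
      UU K b y + UU K h (-y) := by
  have h1 := map_ne (K := K) (sh_ne_zero h0 (-y))
  have h2 := map_ne (K := K) (sh_ne_zero b0 y)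
  simp only [G2, G1, G0, UU, map_sub, map_mul, map_add]
  field_simp
  ring

theorem w2_eq (D : Derivation ℂ K K)
    (hD : ∀ a : Ent, D (algebraMap Ent K a) = algebraMap Ent K (dE a)) (y : ℂ) :
    D (D (algebraMap Ent K (G1 h b y) / algebraMap Ent K (G0 h b y))) =
      algebraMap Ent K (G3 h b y) / algebraMap Ent K (G0 h b y) -
      3 * ((algebraMap Ent K (G2 h b y) / algebraMap Ent K (G0 h b y)) *
        (algebraMap Ent K (G1 h b y) / algebraMap Ent K (G0 h b y))) +
      2 * (algebraMap Ent K (G1 h b y) / algebraMap Ent K (G0 h b y)) ^ 3 := by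
  have h1 := map_ne (K := K) (sh_ne_zero h0 (-y))
  have h2 := map_ne (K := K) (sh_ne_zero b0 y)
  rw [w0_eq h b h0 b0, map_sub, D_quot D hD b b0, D_quot D hD h h0, map_sub, D_UU D hD b b0,
    D_UU D hD h h0]
  simp only [G3, G2, G1, G0, map_sub, map_mul, map_add]
  field_simp
  ring

theorem core (N : ℕ) (f : Fin N → Ent) (g : Fin N → ℂ → ℂ)
    (heq : ∀ x y, (h : ℂ → ℂ) (x - y) * (b : ℂ → ℂ) (x + y) = ∑ j, (f j : ℂ → ℂ) x * g j y)
    (hrel : ∀ i j k, ∃ P : MvPolynomial (Fin 3) ℂ, P ≠ 0 ∧ (∃ m, P.IsHomogeneous m) ∧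
      ∀ x, MvPolynomial.eval ![(f i : ℂ → ℂ) x, (f j : ℂ → ℂ) x, (f k : ℂ → ℂ) x] P = 0) :
    (∃ W : K, ∀ y, ∃ c e : ℂ, algebraMap Ent K (G1 h b y) / algebraMap Ent K (G0 h b y) =
      algebraMap ℂ K c * W + algebraMap ℂ K e) ∨
    (∃ S' : Set K, S'.Finite ∧
      (∀ y, UU K h y ∈ IntermediateField.adjoin ℂ S' ∧
        UU K b y ∈ IntermediateField.adjoin ℂ S') ∧
      (∀ φ ∈ IntermediateField.adjoin ℂ S', Transcendental ℂ φ →
        ∀ s ∈ S', IsAlgebraic ℂ⟮φ⟯ s)) := by
  obtain ⟨D, hD⟩ := exists_derivation_frac (K := K) dE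
  set V : Submodule ℂ Ent := Submodule.span ℂ (Set.range f) with hV
  have hVfd : FiniteDimensional ℂ V := FiniteDimensional.span_of_finite ℂ (Set.finite_range f)
  have hG0 : ∀ y, G0 h b y ∈ V := by
    intro y
    have : G0 h b y = ∑ j, g j y • f j := by
      ext x
      have h1 := heq x y
      rw [sub_eq_add_neg] at h1
      have h2 : (G0 h b y : ℂ → ℂ) x = (h : ℂ → ℂ) (x + -y) * (b : ℂ → ℂ) (x + y) := rfl
      rw [h2, h1]
      simp [mul_comm]
    rw [this]
    exact Submodule.sum_mem _ fun j _ => Submodule.smul_mem _ _ (Submodule.subset_span ⟨j, rfl⟩)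
  have hG1 : ∀ y, G1 h b y ∈ V := deriv_mem V _ _ hG0 (hasDerivAt_G0 h b)
  have hG2 : ∀ y, G2 h b y ∈ V := deriv_mem V _ _ hG1 (hasDerivAt_G1 h b)
  have hG3 : ∀ y, G3 h b y ∈ V := deriv_mem V _ _ hG2 (hasDerivAt_G2 h b)
  have hj : ∃ j0, f j0 ≠ 0 := by
    by_contra hcon
    push Not at hcon
    have h1 : V = ⊥ := by
      rw [hV, Submodule.span_eq_bot]
      rintro _ ⟨j, rfl⟩
      exact hcon j
    have h2 := hG0 0
    rw [h1, Submodule.mem_bot] at h2
    exact mul_ne_zero (sh_ne_zero h0 _) (sh_ne_zero b0 _) h2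
  obtain ⟨j0, hj0⟩ := hj
  have hf0 := map_ne (K := K) hj0
  set S : Set K := Set.range (fun j => algebraMap Ent K (f j) / algebraMap Ent K (f j0)) with hS
  have hSfin : S.Finite := Set.finite_range _
  have hVL : ∀ v ∈ V, algebraMap Ent K v / algebraMap Ent K (f j0) ∈
      IntermediateField.adjoin ℂ S := by
    intro v hv
    induction hv using Submodule.span_induction with
    | mem x hx =>
      obtain ⟨j, rfl⟩ := hx
      exact IntermediateField.subset_adjoin _ _ ⟨j, rfl⟩
    | zero => rw [map_zero, zero_div]; exact zero_mem _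
    | add x y _ _ h1 h2 => rw [map_add, add_div]; exact add_mem h1 h2
    | smul c x _ h1 =>
      rw [Algebra.smul_def, map_mul, ← IsScalarTower.algebraMap_apply, mul_div_assoc]
      exact mul_mem (IntermediateField.algebraMap_mem _ c) h1
  have hquot : ∀ v ∈ V, ∀ y, algebraMap Ent K v / algebraMap Ent K (G0 h b y) ∈
      IntermediateField.adjoin ℂ S := by
    intro v hv y
    have h1 : algebraMap Ent K (G0 h b y) ≠ 0 :=
      map_ne (mul_ne_zero (sh_ne_zero h0 _) (sh_ne_zero b0 _))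
    have h2 : algebraMap Ent K v / algebraMap Ent K (G0 h b y) =
        (algebraMap Ent K v / algebraMap Ent K (f j0)) /
        (algebraMap Ent K (G0 h b y) / algebraMap Ent K (f j0)) := by
      field_simp
    rw [h2]
    exact div_mem (hVL v hv) (hVL _ (hG0 y))
  have hdep : ∀ r ∈ S, Transcendental ℂ r → ∀ s ∈ S, IsAlgebraic (Algebra.adjoin ℂ {r}) s := by
    rintro _ ⟨i, rfl⟩ ht _ ⟨j, rfl⟩
    obtain ⟨P, hP, ⟨m, hm⟩, hP0⟩ := hrel j0 i j
    refine alg_of_rel hf0 P hP m hm ?_ ht
    have h1 : MvPolynomial.aeval ![f j0, f i, f j] P = 0 := by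
      ext x
      let ev : Ent →ₐ[ℂ] ℂ :=
        { toFun := fun u => (u : ℂ → ℂ) x
          map_one' := rfl
          map_mul' := fun _ _ => rfl
          map_zero' := rfl
          map_add' := fun _ _ => rfl
          commutes' := fun _ => rfl }
      have h2 : ev (MvPolynomial.aeval ![f j0, f i, f j] P) = 0 := by
        rw [← AlgHom.comp_apply, MvPolynomial.comp_aeval]
        have h3 : (fun i_1 => ev ((![f j0, f i, f j] : Fin 3 → Ent) i_1)) =
            ![(f j0 : ℂ → ℂ) x, (f i : ℂ → ℂ) x, (f j : ℂ → ℂ) x] := by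
          funext l
          fin_cases l <;> rfl
        rw [h3, ← hP0 x, MvPolynomial.aeval_def]
        rfl
      exact h2
    have h4 := congrArg (algebraMap Ent K) h1
    rw [map_zero] at h4
    rw [← h4]
    have h5 : algebraMap Ent K (MvPolynomial.aeval ![f j0, f i, f j] P) =
        (IsScalarTower.toAlgHom ℂ Ent K) (MvPolynomial.aeval ![f j0, f i, f j] P) := rfl
    rw [h5, ← AlgHom.comp_apply, MvPolynomial.comp_aeval]
    congr 2
    funext l
    fin_cases l <;> rfl
  have hw0 : ∀ y, algebraMap Ent K (G1 h b y) / algebraMap Ent K (G0 h b y) ∈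
      IntermediateField.adjoin ℂ S := fun y => hquot _ (hG1 y) y
  have hw1 : ∀ y, algebraMap Ent K (G2 h b y) / algebraMap Ent K (G0 h b y) -
      (algebraMap Ent K (G1 h b y) / algebraMap Ent K (G0 h b y)) ^ 2 ∈
      IntermediateField.adjoin ℂ S := fun y =>
    sub_mem (hquot _ (hG2 y) y) (pow_mem (hw0 y) 2)
  have hw2 : ∀ y, D (D (algebraMap Ent K (G1 h b y) / algebraMap Ent K (G0 h b y))) ∈
      IntermediateField.adjoin ℂ S := by
    intro y
    rw [w2_eq h b h0 b0 D hD]
    have h3 : (3 : K) ∈ IntermediateField.adjoin ℂ S := ofNat_mem _ 3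
    have h2 : (2 : K) ∈ IntermediateField.adjoin ℂ S := ofNat_mem _ 2
    exact add_mem (sub_mem (hquot _ (hG3 y) y) (mul_mem h3 (mul_mem (hquot _ (hG2 y) y) (hw0 y))))
      (mul_mem h2 (pow_mem (hw0 y) 3))
  rcases trichotomy D (const_of_D D hD) S hSfin hdep with ⟨W, hW⟩ | ⟨S', hS'fin, hS'1, hS'2⟩
  · left
    exact ⟨W, fun y => hW _ (hw0 y) (hw2 y)⟩
  · right
    refine ⟨S', hS'fin, ?_, hS'2⟩
    have hkey : ∀ y, UU K b y ∈ IntermediateField.adjoin ℂ S' ∧
        UU K h (-y) ∈ IntermediateField.adjoin ℂ S' := by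
      intro y
      have e1 := w1_eq (K := K) h b h0 b0 y
      have e2 : D (algebraMap Ent K (G1 h b y) / algebraMap Ent K (G0 h b y)) =
          UU K b y - UU K h (-y) := by
        rw [w0_eq h b h0 b0, map_sub, D_quot D hD b b0, D_quot D hD h h0]
      have m1 : UU K b y + UU K h (-y) ∈ IntermediateField.adjoin ℂ S' := by
        rw [← e1]; exact (hS'1 _ (hw1 y)).1
      have m2 : UU K b y - UU K h (-y) ∈ IntermediateField.adjoin ℂ S' := by
        rw [← e2]; exact (hS'1 _ (hw0 y)).2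
      have h2 : (2 : K) ∈ IntermediateField.adjoin ℂ S' := ofNat_mem _ 2
      have h2' : (2 : K) ≠ 0 := by
        have : CharZero K := charZero_of_injective_algebraMap (algebraMap ℂ K).injective
        exact two_ne_zero
      constructor
      · have : UU K b y = ((UU K b y + UU K h (-y)) + (UU K b y - UU K h (-y))) / 2 := by
          field_simp; ring
        rw [this]; exact div_mem (add_mem m1 m2) h2
      · have : UU K h (-y) = ((UU K b y + UU K h (-y)) - (UU K b y - UU K h (-y))) / 2 := by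
          field_simp; ring
        rw [this]; exact div_mem (sub_mem m1 m2) h2
    intro y
    refine ⟨?_, (hkey y).1⟩
    have := (hkey (-y)).2
    rwa [neg_neg] at this

end

end Pool.Agent.Lib.MP_db21fa_an.H28
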