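import Pool.Agent.Lib.MP_db21fa_an.H28.Growth

set_option autoImplicit false

open Filter Topology

namespace Pool.Agent.Lib.MP_db21fa_an.H28

theorem interp (n : ℕ) : ∀ V : Submodule ℂ (ℂ → ℂ), FiniteDimensional ℂ V →
    Module.finrank ℂ V ≤ n →
    ∃ (m : ℕ) (x : Fin m → ℂ) (c : Fin m → (ℂ → ℂ)), (∀ k, c k ∈ V) ∧
      ∀ f ∈ V, ∀ z, f z = ∑ k, f (x k) * c k z := by
  induction n with
  | zero =>
    intro V hV hn
    have h1 : V = ⊥ := Submodule.finrank_eq_zero.1 (Nat.le_zero.1 hn)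
    refine ⟨0, Fin.elim0, Fin.elim0, fun k => k.elim0, fun f hf z => ?_⟩
    rw [h1, Submodule.mem_bot] at hf
    rw [hf]; simp
  | succ n ih =>
    intro V hV hn
    by_cases hbot : V = ⊥
    · refine ⟨0, Fin.elim0, Fin.elim0, fun k => k.elim0, fun f hf z => ?_⟩
      rw [hbot, Submodule.mem_bot] at hf
      rw [hf]; simp
    obtain ⟨f₀, hf₀, hne⟩ := Submodule.exists_mem_ne_zero_of_ne_bot hbot
    obtain ⟨x₀, hx₀⟩ : ∃ x₀, f₀ x₀ ≠ 0 := by
      by_contra hcon
      push Not at hcon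
      exact hne (funext hcon)
    let V' : Submodule ℂ (ℂ → ℂ) := V ⊓ LinearMap.ker (LinearMap.proj (R := ℂ) (φ := fun _ : ℂ => ℂ) x₀)
    have hV' : ∀ g, g ∈ V' ↔ g ∈ V ∧ g x₀ = 0 := by
      intro g
      simp [V']
    have hlt : V' < V := by
      refine lt_of_le_of_ne inf_le_left ?_
      intro h1
      have h2 : f₀ ∈ V' := h1 ▸ hf₀
      exact hx₀ ((hV' f₀).1 h2).2
    have hfd' : FiniteDimensional ℂ V' := Submodule.finiteDimensional_of_le hlt.le
    have hfr := Submodule.finrank_lt_finrank_of_lt hlt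
    obtain ⟨m, x, c, hc, hx⟩ := ih V' hfd' (by omega)
    refine ⟨m + 1, Fin.cons x₀ x,
      Fin.cons ((f₀ x₀)⁻¹ • (f₀ - ∑ k, f₀ (x k) • c k)) c, ?_, ?_⟩
    · intro k
      refine Fin.cases ?_ (fun k => ?_) k
      · rw [Fin.cons_zero]
        exact V.smul_mem _ (V.sub_mem hf₀ (V.sum_mem fun k _ =>
          V.smul_mem _ ((hV' _).1 (hc k)).1))
      · rw [Fin.cons_succ]
        exact ((hV' _).1 (hc k)).1
    · intro g hg z
      rw [Fin.sum_univ_succ]
      simp only [Fin.cons_zero, Fin.cons_succ]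
      have h1 : g - (g x₀ / f₀ x₀) • f₀ ∈ V' := by
        rw [hV']
        refine ⟨V.sub_mem hg (V.smul_mem _ hf₀), ?_⟩
        simp only [Pi.sub_apply, Pi.smul_apply, smul_eq_mul]
        field_simp
        ring
      have h2 := hx _ h1 z
      simp only [Pi.sub_apply, Pi.smul_apply, smul_eq_mul, Finset.sum_apply, sub_mul,
        Finset.sum_sub_distrib] at h2 ⊢
      have h3 : ∑ x_1, g x₀ / f₀ x₀ * f₀ (x x_1) * c x_1 z =
          g x₀ / f₀ x₀ * ∑ k, f₀ (x k) * c k z := by
        rw [Finset.mul_sum]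
        exact Finset.sum_congr rfl fun k _ => by ring
      rw [h3] at h2
      have h4 : g z = g x₀ / f₀ x₀ * f₀ z + (∑ k, g (x k) * c k z -
        g x₀ / f₀ x₀ * ∑ k, f₀ (x k) * c k z) := by linear_combination h2
      rw [h4]
      field_simp
      ring

/-- the space of entire functions of order-two growth -/
def OT : Submodule ℂ (ℂ → ℂ) where
  carrier := {f | Differentiable ℂ f ∧ OrderTwo f}
  add_mem' := fun h1 h2 => ⟨h1.1.add h2.1, h1.2.add h2.2⟩
  zero_mem' := ⟨differentiable_const 0, OrderTwo.const 0⟩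
  smul_mem' := fun c _ h => ⟨h.1.const_smul c, (OrderTwo.const c).mul h.2⟩

theorem sum_of_mem {h b : ℂ → ℂ} (hh : Differentiable ℂ h) (hb : Differentiable ℂ b)
    (ho : OrderTwo h) (bo : OrderTwo b) (W : Submodule ℂ (ℂ → ℂ)) (hWf : FiniteDimensional ℂ W)
    (hW : ∀ y, (fun x => h (x - y) * b (x + y)) ∈ W) :
    ∃ (N : ℕ) (f g : Fin N → ℂ → ℂ), (∀ j, f j ∈ W) ∧
      (∀ j, Differentiable ℂ (f j) ∧ OrderTwo (f j)) ∧
      (∀ j, Differentiable ℂ (g j) ∧ OrderTwo (g j)) ∧
      ∀ x y, h (x - y) * b (x + y) = ∑ j, f j x * g j y := by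
  let V : Submodule ℂ (ℂ → ℂ) := Submodule.span ℂ (Set.range fun y x => h (x - y) * b (x + y))
  have hVW : V ≤ W := by
    rw [Submodule.span_le]
    rintro _ ⟨y, rfl⟩
    exact hW y
  have hVO : V ≤ OT := by
    rw [Submodule.span_le]
    rintro _ ⟨y, rfl⟩
    constructor
    · exact (hh.comp (differentiable_id.sub_const y)).mul (hb.comp (differentiable_id.add_const y))
    · apply OrderTwo.mul
      · have := ho.comp_affine 1 (-y)
        simpa [sub_eq_add_neg] using this
      · have := bo.comp_affine 1 y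
        simpa using this
  have hVf : FiniteDimensional ℂ V := Submodule.finiteDimensional_of_le hVW
  obtain ⟨m, x, c, hc, hx⟩ := interp _ V hVf le_rfl
  refine ⟨m, c, fun j y => h (x j - y) * b (x j + y), fun j => hVW (hc j), fun j => hVO (hc j),
    ?_, ?_⟩
  · intro j
    constructor
    · exact (hh.comp (differentiable_id.const_sub (x j))).mul
        (hb.comp (differentiable_id.const_add (x j)))
    · apply OrderTwo.mul
      · have := ho.comp_affine (-1) (x j)
        have e : (fun z => h (-1 * z + x j)) = fun z => h (x j - z) := by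
          funext z; congr 1; ring
        rw [← e]; exact this
      · have := bo.comp_affine 1 (x j)
        have e : (fun z => b (1 * z + x j)) = fun z => b (x j + z) := by
          funext z; congr 1; ring
        rw [← e]; exact this
  · intro u y
    have h1 := hx _ (Submodule.subset_span ⟨y, rfl⟩ : (fun x => h (x - y) * b (x + y)) ∈ V) u
    rw [h1]
    exact Finset.sum_congr rfl fun j _ => by ring

theorem relation_count (W : ℕ → Submodule ℂ (ℂ → ℂ)) (M : ℕ)
    (hmul : ∀ D D', ∀ u ∈ W D, ∀ v ∈ W D', u * v ∈ W (D + D')) (hone : (1 : ℂ → ℂ) ∈ W 0)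
    (hfd : ∀ D, FiniteDimensional ℂ (W D)) (hdim : ∀ D, Module.finrank ℂ (W D) ≤ M * D + M)
    (f₀ f₁ f₂ : ℂ → ℂ) (h0 : f₀ ∈ W 1) (h1 : f₁ ∈ W 1) (h2 : f₂ ∈ W 1) :
    ∃ P : MvPolynomial (Fin 3) ℂ, P ≠ 0 ∧ (∃ m, P.IsHomogeneous m) ∧
      ∀ x, MvPolynomial.eval ![f₀ x, f₁ x, f₂ x] P = 0 := by
  have hpow : ∀ u ∈ W 1, ∀ n, u ^ n ∈ W n := by
    intro u hu n
    induction n with
    | zero => rw [pow_zero]; exact hone
    | succ n ih => rw [pow_succ]; exact hmul n 1 _ ih _ hu
  set n := 2 * M + 2 with hn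
  have hmem : ∀ p : Fin n × Fin n,
      f₀ ^ (p.1 : ℕ) * f₁ ^ (p.2 : ℕ) * f₂ ^ (2 * n - p.1 - p.2) ∈ W (2 * n) := by
    intro p
    have h3 := hmul _ _ _ (hmul _ _ _ (hpow f₀ h0 p.1) _ (hpow f₁ h1 p.2)) _
      (hpow f₂ h2 (2 * n - p.1 - p.2))
    have e : (p.1 : ℕ) + p.2 + (2 * n - p.1 - p.2) = 2 * n := by
      have := p.1.2
      have := p.2.2
      omega
    rwa [e] at h3
  have hnli : ¬ LinearIndependent ℂ (fun p : Fin n × Fin n =>
      f₀ ^ (p.1 : ℕ) * f₁ ^ (p.2 : ℕ) * f₂ ^ (2 * n - p.1 - p.2)) := by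
    intro hli
    have h3 : LinearIndependent ℂ (fun p : Fin n × Fin n => (⟨_, hmem p⟩ : W (2 * n))) := by
      apply LinearIndependent.of_comp (W (2 * n)).subtype
      exact hli
    have hfd' := hfd (2 * n)
    have h4 := h3.fintype_card_le_finrank
    rw [Fintype.card_prod, Fintype.card_fin] at h4
    have h5 := hdim (2 * n)
    have h6 : n * n ≤ M * (2 * n) + M := h4.trans h5
    rw [hn] at h6
    nlinarith
  rw [Fintype.not_linearIndependent_iff] at hnli
  obtain ⟨c, hc, p₀, hp₀⟩ := hnli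
  set e : Fin n × Fin n → (Fin 3 →₀ ℕ) := fun p =>
    Finsupp.single 0 (p.1 : ℕ) + Finsupp.single 1 (p.2 : ℕ) +
      Finsupp.single 2 (2 * n - p.1 - p.2) with he
  have he0 : ∀ p, e p 0 = p.1 := by intro p; simp [he]
  have he1 : ∀ p, e p 1 = p.2 := by intro p; simp [he]
  have he2 : ∀ p, e p 2 = 2 * n - p.1 - p.2 := by intro p; simp [he]
  have heinj : Function.Injective e := by
    intro p q hpq
    have e0 := he0 p
    have e1 := he1 p
    rw [hpq, he0] at e0
    rw [hpq, he1] at e1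
    exact Prod.ext (Fin.ext e0.symm) (Fin.ext e1.symm)
  refine ⟨∑ p, MvPolynomial.monomial (e p) (c p), ?_, ⟨2 * n, ?_⟩, ?_⟩
  · intro h3
    have h4 := congrArg (MvPolynomial.coeff (e p₀)) h3
    rw [MvPolynomial.coeff_sum, MvPolynomial.coeff_zero, Finset.sum_eq_single p₀] at h4
    · rw [MvPolynomial.coeff_monomial, if_pos rfl] at h4
      exact hp₀ h4
    · intro q _ hq
      rw [MvPolynomial.coeff_monomial, if_neg (fun h5 => hq (heinj h5))]
    · intro h5; exact absurd (Finset.mem_univ _) h5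
  · apply MvPolynomial.IsHomogeneous.sum
    intro p _
    apply MvPolynomial.isHomogeneous_monomial
    rw [Finsupp.degree_eq_sum]
    rw [Fin.sum_univ_three, he0, he1, he2]
    have := p.1.2
    have := p.2.2
    omega
  · intro x
    rw [map_sum]
    have h3 := congrFun hc x
    rw [Finset.sum_apply, Pi.zero_apply] at h3
    rw [← h3]
    apply Finset.sum_congr rfl
    intro p _
    rw [MvPolynomial.eval_monomial, Finsupp.prod_fintype _ _ (by simp), Fin.prod_univ_three,
      he0, he1, he2]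
    simp

end Pool.Agent.Lib.MP_db21fa_an.H28
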