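import Mathlib

/-!
# Definitions for the classification of the solutions with an algebraic curve

Functional equation `h (x - y) b (x + y) = ∑ f_j (x) g_j (y)` for entire functions on `ℂ`.
-/

set_option autoImplicit false

namespace Pool.Agent.Lib.MP_db21fa_an.H28

/-- Order-two growth: `|F z| ≤ A exp (c |z|^2)` for some real `A`, `c`. -/
def OrderTwo (F : ℂ → ℂ) : Prop := ∃ A c : ℝ, ∀ z, ‖F z‖ ≤ A * Real.exp (c * ‖z‖ ^ 2)

/-- `h = e^{αz²+β₁z} P(z)`, `b = e^{αz²+β₂z} Q(z)` with polynomials `P`, `Q`. -/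
def RationalPair (h b : ℂ → ℂ) : Prop :=
  ∃ (α β₁ β₂ : ℂ) (P Q : Polynomial ℂ), ∀ z,
    h z = Complex.exp (α * z ^ 2 + β₁ * z) * P.eval z ∧
    b z = Complex.exp (α * z ^ 2 + β₂ * z) * Q.eval z

/-- `h = e^{αz²+β₁z} P(e^{lz})`, `b = e^{αz²+β₂z} Q(e^{lz})` with polynomials `P`, `Q`. -/
def TrigPair (h b : ℂ → ℂ) : Prop :=
  ∃ (α β₁ β₂ l : ℂ) (P Q : Polynomial ℂ), ∀ z,
    h z = Complex.exp (α * z ^ 2 + β₁ * z) * P.eval (Complex.exp (l * z)) ∧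
    b z = Complex.exp (α * z ^ 2 + β₂ * z) * Q.eval (Complex.exp (l * z))

/-- `h` and `b` are theta functions for one lattice `ℤω₁ + ℤω₂`, with the same linear parts in
the exponents of their automorphy factors. -/
def ThetaPair (h b : ℂ → ℂ) : Prop :=
  ∃ ω₁ ω₂ a₁ a₂ p₁ p₂ q₁ q₂ : ℂ, LinearIndependent ℝ ![ω₁, ω₂] ∧ ∀ z,
    h (z + ω₁) = Complex.exp (a₁ * z + p₁) * h z ∧ h (z + ω₂) = Complex.exp (a₂ * z + p₂) * h z ∧
    b (z + ω₁) = Complex.exp (a₁ * z + q₁) * b z ∧ b (z + ω₂) = Complex.exp (a₂ * z + q₂) * b z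

end Pool.Agent.Lib.MP_db21fa_an.H28
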