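import Pool.Agent.Lib.MP_db21fa_an.H28.Growth

set_option autoImplicit false

open Filter Topology Metric

namespace Pool.Agent.Lib.MP_db21fa_an.H28

theorem division {θ h : ℂ → ℂ} (hθ : Differentiable ℂ θ) (hh : Differentiable ℂ h)
    (hz : ∀ p, θ p = 0 → deriv θ p ≠ 0 ∧ h p = 0) :
    ∃ k : ℂ → ℂ, Differentiable ℂ k ∧ ∀ z, h z = θ z * k z := by
  classical
  refine ⟨fun z => if θ z = 0 then deriv h z / deriv θ z else h z / θ z, ?_, ?_⟩
  · intro p
    by_cases hp : θ p = 0
    · obtain ⟨hd, hhp⟩ := hz p hp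
      have hne : dslope θ p p ≠ 0 := by rwa [dslope_same]
      have c1 : DifferentiableAt ℂ (dslope θ p) p :=
        ((Complex.differentiableOn_dslope (s := Set.univ) univ_mem).2 hθ.differentiableOn).differentiableAt
          univ_mem
      have c2 : DifferentiableAt ℂ (dslope h p) p :=
        ((Complex.differentiableOn_dslope (s := Set.univ) univ_mem).2 hh.differentiableOn).differentiableAt
          univ_mem
      have h1 : DifferentiableAt ℂ (fun z => dslope h p z / dslope θ p z) p := c2.div c1 hne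
      refine h1.congr_of_eventuallyEq ?_
      filter_upwards [c1.continuousAt.eventually_ne hne] with z hzz
      by_cases hzp : z = p
      · subst hzp
        simp only [dslope_same, hp, if_true]
      · have e1 : dslope θ p z = (z - p)⁻¹ * θ z := by
          rw [dslope_of_ne _ hzp, slope_def_field, hp, sub_zero, div_eq_inv_mul]
        have e2 : dslope h p z = (z - p)⁻¹ * h z := by
          rw [dslope_of_ne _ hzp, slope_def_field, hhp, sub_zero, div_eq_inv_mul]
        have hθz : θ z ≠ 0 := by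
          intro h0
          rw [e1, h0, mul_zero] at hzz
          exact hzz rfl
        simp only [if_neg hθz]
        rw [e1, e2]
        have : z - p ≠ 0 := sub_ne_zero.2 hzp
        field_simp
    · have h1 : DifferentiableAt ℂ (fun z => h z / θ z) p := (hh p).div (hθ p) hp
      refine h1.congr_of_eventuallyEq ?_
      filter_upwards [hθ.continuous.continuousAt.eventually_ne hp] with z hzz
      simp only [if_neg hzz]
  · intro z
    by_cases hp : θ z = 0
    · obtain ⟨_, hhp⟩ := hz z hp
      rw [hp, hhp, zero_mul]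
    · simp only [if_neg hp]
      field_simp

/-- growth of a quotient -/
theorem growth_div {θ h k : ℂ → ℂ} (hk : Differentiable ℂ k) (hhk : ∀ z, h z = θ z * k z)
    (hh : OrderTwo h) (δ R : ℝ) (hδ : 0 < δ)
    (hθ : ∀ z, δ ≤ ‖θ z‖ ∨ ∃ U : Set ℂ, Bornology.IsBounded U ∧ z ∈ closure U ∧
      ∀ ζ ∈ frontier U, δ ≤ ‖θ ζ‖ ∧ ‖ζ‖ ≤ ‖z‖ + R) : OrderTwo k := by
  obtain ⟨A, c, hA, hc, h1⟩ := hh.pos
  have hb : ∀ z, δ ≤ ‖θ z‖ → ‖k z‖ ≤ δ⁻¹ * (A * Real.exp (c * ‖z‖ ^ 2)) := by
    intro z hz
    have h2 := h1 z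
    rw [hhk z, norm_mul] at h2
    rw [inv_mul_eq_div, le_div_iff₀ hδ]
    nlinarith [norm_nonneg (k z)]
  have hbig : ∀ z, ‖k z‖ ≤ δ⁻¹ * (A * Real.exp (c * (‖z‖ + |R|) ^ 2)) := by
    intro z
    rcases hθ z with h2 | ⟨U, hU, hzU, hfr⟩
    · refine (hb z h2).trans ?_
      apply mul_le_mul_of_nonneg_left _ (inv_pos.2 hδ).le
      apply mul_le_mul_of_nonneg_left _ hA.le
      apply Real.exp_le_exp.2
      apply mul_le_mul_of_nonneg_left _ hc.le
      have := norm_nonneg z
      have := abs_nonneg R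
      apply pow_le_pow_left₀ (norm_nonneg z); linarith
    · apply Complex.norm_le_of_forall_mem_frontier_norm_le hU hk.diffContOnCl _ hzU
      intro ζ hζ
      obtain ⟨h3, h4⟩ := hfr ζ hζ
      refine (hb ζ h3).trans ?_
      apply mul_le_mul_of_nonneg_left _ (inv_pos.2 hδ).le
      apply mul_le_mul_of_nonneg_left _ hA.le
      apply Real.exp_le_exp.2
      apply mul_le_mul_of_nonneg_left _ hc.le
      apply pow_le_pow_left₀ (norm_nonneg ζ)
      linarith [le_abs_self R]
  refine ⟨δ⁻¹ * (A * Real.exp (c * (2 * |R| ^ 2))), 2 * c, fun z => (hbig z).trans ?_⟩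
  rw [mul_assoc, mul_assoc, ← Real.exp_add]
  apply mul_le_mul_of_nonneg_left _ (inv_pos.2 hδ).le
  apply mul_le_mul_of_nonneg_left _ hA.le
  apply Real.exp_le_exp.2
  nlinarith [sq_nonneg (‖z‖ - |R|)]

theorem growth_div_linear {h k : ℂ → ℂ} (hk : Differentiable ℂ k) (a : ℂ)
    (hhk : ∀ z, h z = (z - a) * k z) (hh : OrderTwo h) : OrderTwo k := by
  apply growth_div (θ := fun z => z - a) hk hhk hh 1 (2 + 2 * ‖a‖) one_pos
  intro z
  by_cases hz : 1 ≤ ‖z - a‖
  · left; exact hz
  · right
    push Not at hz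
    refine ⟨ball a 1, isBounded_ball, subset_closure (by simpa [dist_eq_norm] using hz), ?_⟩
    intro ζ hζ
    rw [frontier_ball a one_ne_zero, mem_sphere, dist_eq_norm] at hζ
    refine ⟨hζ.ge, ?_⟩
    have h1 : ‖ζ‖ ≤ ‖ζ - a‖ + ‖a‖ := by
      calc ‖ζ‖ = ‖(ζ - a) + a‖ := by congr 1; ring
        _ ≤ _ := norm_add_le _ _
    have := norm_nonneg z
    have := norm_nonneg a
    linarith

open Complex in
theorem growth_div_exp_one {h k : ℂ → ℂ} (hk : Differentiable ℂ k)
    (hhk : ∀ z, h z = (Complex.exp z - 1) * k z) (hh : OrderTwo h) : OrderTwo k := by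
  have hδ : (0 : ℝ) < 1 - Real.exp (-1) := by
    have : Real.exp (-1) < 1 := by rw [← Real.exp_zero]; exact Real.exp_lt_exp.2 (by norm_num)
    linarith
  have hside : ∀ ζ : ℂ, 1 ≤ |ζ.re| → 1 - Real.exp (-1) ≤ ‖Complex.exp ζ - 1‖ := by
    intro ζ hζ
    have h1 : |‖Complex.exp ζ‖ - ‖(1 : ℂ)‖| ≤ ‖Complex.exp ζ - 1‖ := abs_norm_sub_norm_le _ _
    rw [Complex.norm_exp, norm_one] at h1
    refine le_trans ?_ h1
    rcases le_abs.1 hζ with h2 | h2
    · have h3 : Real.exp 1 ≤ Real.exp ζ.re := Real.exp_le_exp.2 h2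
      have h4 : 1 + 1 ≤ Real.exp 1 := Real.add_one_le_exp 1
      have h5 := Real.exp_pos (-1)
      rw [le_abs]; left; linarith
    · have h3 : Real.exp ζ.re ≤ Real.exp (-1) := Real.exp_le_exp.2 (by linarith)
      rw [le_abs]; right; linarith
  apply growth_div (θ := fun z => Complex.exp z - 1) hk hhk hh (1 - Real.exp (-1))
    (2 + 2 * Real.pi) hδ
  intro z
  by_cases hz : 1 ≤ |z.re|
  · left; exact hside z hz
  · right
    push Not at hz
    have hπ := Real.pi_pos
    set n : ℤ := ⌊(z.im + Real.pi) / (2 * Real.pi)⌋ with hn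
    have hn1 : (n : ℝ) * (2 * Real.pi) ≤ z.im + Real.pi := by
      have := Int.floor_le ((z.im + Real.pi) / (2 * Real.pi))
      rwa [le_div_iff₀ (by positivity)] at this
    have hn2 : z.im + Real.pi < ((n : ℝ) + 1) * (2 * Real.pi) := by
      have := Int.lt_floor_add_one ((z.im + Real.pi) / (2 * Real.pi))
      rwa [div_lt_iff₀ (by positivity)] at this
    set lo : ℝ := n * (2 * Real.pi) - Real.pi with hlo
    set hi : ℝ := n * (2 * Real.pi) + Real.pi with hhi
    have hlohi : lo < hi := by rw [hlo, hhi]; linarith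
    refine ⟨Set.Ioo (-1) 1 ×ℂ Set.Ioo lo hi, ?_, ?_, ?_⟩
    · exact (Metric.isBounded_Ioo _ _).reProdIm (Metric.isBounded_Ioo _ _)
    · rw [closure_reProdIm, closure_Ioo (by norm_num), closure_Ioo hlohi.ne]
      rw [abs_lt] at hz
      exact ⟨⟨by linarith [hz.1], by linarith [hz.2]⟩, ⟨by rw [hlo]; linarith, by
        rw [hhi]; linarith⟩⟩
    · intro ζ hζ
      rw [frontier_reProdIm, closure_Ioo (by norm_num), closure_Ioo hlohi.ne,
        frontier_Ioo hlohi, frontier_Ioo (by norm_num)] at hζ
      have hre : |ζ.re| ≤ 1 := by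
        rcases hζ with ⟨h1, _⟩ | ⟨h1, _⟩
        · exact abs_le.2 h1
        · rcases h1 with h1 | h1
          · rw [h1]; norm_num
          · rw [Set.mem_singleton_iff.1 h1]; norm_num
      have him : lo ≤ ζ.im ∧ ζ.im ≤ hi := by
        rcases hζ with ⟨_, h1⟩ | ⟨_, h1⟩
        · rcases h1 with h1 | h1
          · rw [h1]; exact ⟨le_rfl, hlohi.le⟩
          · rw [Set.mem_singleton_iff.1 h1]; exact ⟨hlohi.le, le_rfl⟩
        · exact h1
      constructor
      · rcases hζ with ⟨_, h1⟩ | ⟨h1, _⟩
        · have hcos : Real.cos ζ.im = -1 ∧ Real.sin ζ.im = 0 := by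
            rcases h1 with h1 | h1
            · rw [h1, hlo]
              have e1 : (n : ℝ) * (2 * Real.pi) - Real.pi = -(Real.pi - n * (2 * Real.pi)) := by ring
              rw [e1, Real.cos_neg, Real.sin_neg, Real.cos_sub_int_mul_two_pi,
                Real.sin_sub_int_mul_two_pi, Real.cos_pi, Real.sin_pi]
              simp
            · rw [Set.mem_singleton_iff.1 h1, hhi, add_comm, Real.cos_add_int_mul_two_pi,
                Real.sin_add_int_mul_two_pi, Real.cos_pi, Real.sin_pi]
              simp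
          have h2 : Complex.exp ζ = -(Real.exp ζ.re : ℂ) := by
            apply Complex.ext
            · rw [Complex.exp_re, hcos.1, Complex.neg_re, Complex.ofReal_re]; ring
            · rw [Complex.exp_im, hcos.2, Complex.neg_im, Complex.ofReal_im]; ring
          rw [h2]
          have h3 : -(Real.exp ζ.re : ℂ) - 1 = -((Real.exp ζ.re + 1 : ℝ) : ℂ) := by
            push_cast; ring
          rw [h3, norm_neg, Complex.norm_real, Real.norm_eq_abs, abs_of_pos (by positivity)]
          have := Real.exp_pos ζ.re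
          have := Real.exp_pos (-1)
          linarith
        · apply hside
          rcases h1 with h1 | h1
          · rw [h1]; norm_num
          · rw [Set.mem_singleton_iff.1 h1]; norm_num
      · have h2 : ‖ζ - z‖ ≤ |(ζ - z).re| + |(ζ - z).im| := Complex.norm_le_abs_re_add_abs_im _
        have h3 : |(ζ - z).re| ≤ 2 := by
          rw [Complex.sub_re]
          rw [abs_le] at hre ⊢
          rw [abs_lt] at hz
          constructor <;> linarith [hre.1, hre.2, hz.1, hz.2]
        have h4 : |(ζ - z).im| ≤ 2 * Real.pi := by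
          rw [Complex.sub_im, abs_le]
          rw [hlo, hhi] at him
          constructor <;> linarith [him.1, him.2]
        have h5 : ‖ζ‖ ≤ ‖z‖ + ‖ζ - z‖ := by
          calc ‖ζ‖ = ‖z + (ζ - z)‖ := by congr 1; ring
            _ ≤ _ := norm_add_le _ _
        linarith

theorem growth_div_exp {h k : ℂ → ℂ} (hk : Differentiable ℂ k) (l a : ℂ) (hl : l ≠ 0)
    (hhk : ∀ z, h z = (Complex.exp (l * z) - Complex.exp (l * a)) * k z) (hh : OrderTwo h) :
    OrderTwo k := by
  have h1 : OrderTwo (fun w => k (l⁻¹ * w + a)) := by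
    apply growth_div_exp_one (h := fun w => Complex.exp (-(l * a)) * h (l⁻¹ * w + a))
    · exact hk.comp ((differentiable_id.const_mul _).add_const _)
    · intro w
      rw [hhk]
      have e1 : l * (l⁻¹ * w + a) = w + l * a := by field_simp
      rw [e1, Complex.exp_add]
      have e2 : Complex.exp (-(l * a)) * Complex.exp (l * a) = 1 := by
        rw [← Complex.exp_add]; simp
      linear_combination (Complex.exp w - 1) * k (l⁻¹ * w + a) * e2
    · exact (OrderTwo.const _).mul (hh.comp_affine _ _)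
  have h2 := h1.comp_affine l (-(l * a))
  have e3 : (fun z => k (l⁻¹ * (l * z + -(l * a)) + a)) = k := by
    funext z
    congr 1
    field_simp
    ring
  rw [← e3]
  exact h2

end Pool.Agent.Lib.MP_db21fa_an.H28
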