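import Pool.Agent.Lib.MP_db21fa_an.H28.Wronsk
import Pool.Agent.Lib.MP_db21fa_an.H28.Defs

set_option autoImplicit false

open Filter Topology Metric

namespace Pool.Agent.Lib.MP_db21fa_an.H28

theorem OrderTwo.pos {F : ℂ → ℂ} (h : OrderTwo F) :
    ∃ A c : ℝ, 0 < A ∧ 0 < c ∧ ∀ z, ‖F z‖ ≤ A * Real.exp (c * ‖z‖ ^ 2) := by
  obtain ⟨A, c, hA⟩ := h
  refine ⟨|A| + 1, |c| + 1, by positivity, by positivity, fun z => (hA z).trans ?_⟩
  have h1 : c * ‖z‖ ^ 2 ≤ (|c| + 1) * ‖z‖ ^ 2 := by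
    apply mul_le_mul_of_nonneg_right _ (sq_nonneg _)
    linarith [le_abs_self c]
  calc A * Real.exp (c * ‖z‖ ^ 2) ≤ (|A| + 1) * Real.exp (c * ‖z‖ ^ 2) := by
        apply mul_le_mul_of_nonneg_right _ (Real.exp_pos _).le
        linarith [le_abs_self A]
    _ ≤ _ := by
        apply mul_le_mul_of_nonneg_left (Real.exp_le_exp.2 h1) (by positivity)

theorem OrderTwo.add {F G : ℂ → ℂ} (hF : OrderTwo F) (hG : OrderTwo G) :
    OrderTwo (fun z => F z + G z) := by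
  obtain ⟨A, c, hA, hc, h1⟩ := hF.pos
  obtain ⟨A', c', hA', hc', h2⟩ := hG.pos
  refine ⟨A + A', c + c', fun z => (norm_add_le _ _).trans ?_⟩
  have e1 : Real.exp (c * ‖z‖ ^ 2) ≤ Real.exp ((c + c') * ‖z‖ ^ 2) := by
    apply Real.exp_le_exp.2; nlinarith [sq_nonneg ‖z‖]
  have e2 : Real.exp (c' * ‖z‖ ^ 2) ≤ Real.exp ((c + c') * ‖z‖ ^ 2) := by
    apply Real.exp_le_exp.2; nlinarith [sq_nonneg ‖z‖]
  have e3 := h1 z
  have e4 := h2 z
  have e5 := mul_le_mul_of_nonneg_left e1 hA.le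
  have e6 := mul_le_mul_of_nonneg_left e2 hA'.le
  linarith

theorem OrderTwo.mul {F G : ℂ → ℂ} (hF : OrderTwo F) (hG : OrderTwo G) :
    OrderTwo (fun z => F z * G z) := by
  obtain ⟨A, c, hA, hc, h1⟩ := hF.pos
  obtain ⟨A', c', hA', hc', h2⟩ := hG.pos
  refine ⟨A * A', c + c', fun z => ?_⟩
  rw [norm_mul, add_mul, Real.exp_add]
  calc ‖F z‖ * ‖G z‖ ≤ (A * Real.exp (c * ‖z‖ ^ 2)) * (A' * Real.exp (c' * ‖z‖ ^ 2)) :=
        mul_le_mul (h1 z) (h2 z) (norm_nonneg _) (by positivity)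
    _ = _ := by ring

theorem OrderTwo.const (c : ℂ) : OrderTwo (fun _ => c) :=
  ⟨‖c‖, 0, fun z => by simp⟩

theorem OrderTwo.comp_affine {F : ℂ → ℂ} (hF : OrderTwo F) (a b : ℂ) :
    OrderTwo (fun z => F (a * z + b)) := by
  obtain ⟨A, c, hA, hc, h1⟩ := hF.pos
  refine ⟨A * Real.exp (c * (2 * ‖b‖ ^ 2)), c * (2 * ‖a‖ ^ 2), fun z => (h1 _).trans ?_⟩
  rw [mul_assoc, ← Real.exp_add]
  apply mul_le_mul_of_nonneg_left _ hA.le
  apply Real.exp_le_exp.2
  have e1 : ‖a * z + b‖ ≤ ‖a‖ * ‖z‖ + ‖b‖ := (norm_add_le _ _).trans (by rw [norm_mul])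
  have e2 : ‖a * z + b‖ ^ 2 ≤ (‖a‖ * ‖z‖ + ‖b‖) ^ 2 := by
    apply pow_le_pow_left₀ (norm_nonneg _) e1
  have e3 : (‖a‖ * ‖z‖ + ‖b‖) ^ 2 ≤ 2 * ‖a‖ ^ 2 * ‖z‖ ^ 2 + 2 * ‖b‖ ^ 2 := by
    nlinarith [sq_nonneg (‖a‖ * ‖z‖ - ‖b‖)]
  nlinarith

theorem orderTwo_exp_quad (α β γ : ℂ) : OrderTwo (fun z => Complex.exp (α * z ^ 2 + β * z + γ)) := by
  refine ⟨Real.exp (‖β‖ + ‖γ‖), ‖α‖ + ‖β‖, fun z => ?_⟩
  rw [Complex.norm_exp, ← Real.exp_add]
  apply Real.exp_le_exp.2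
  refine (Complex.re_le_norm _).trans ?_
  have e1 : ‖α * z ^ 2 + β * z + γ‖ ≤ ‖α‖ * ‖z‖ ^ 2 + ‖β‖ * ‖z‖ + ‖γ‖ := by
    refine (norm_add_le _ _).trans ?_
    refine add_le_add ((norm_add_le _ _).trans ?_) le_rfl
    rw [norm_mul, norm_mul, norm_pow]
  have e2 : ‖z‖ ≤ ‖z‖ ^ 2 + 1 := by nlinarith [sq_nonneg (‖z‖ - 1)]
  have e3 : ‖β‖ * ‖z‖ ≤ ‖β‖ * (‖z‖ ^ 2 + 1) := mul_le_mul_of_nonneg_left e2 (norm_nonneg _)
  linarith

theorem exists_log_entire {k : ℂ → ℂ} (hk : Differentiable ℂ k) (h0 : ∀ z, k z ≠ 0) :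
    ∃ G : ℂ → ℂ, Differentiable ℂ G ∧ ∀ z, Complex.exp (G z) = k z := by
  have h1 : Differentiable ℂ (fun z => deriv k z / k z) := (diff_deriv hk).div hk h0
  obtain ⟨F, hF⟩ := h1.isExactOn_univ
  have h2 : ∀ z, HasDerivAt (fun z => k z * Complex.exp (-F z)) 0 z := by
    intro z
    have h3 := (hk z).hasDerivAt.mul ((hF z (Set.mem_univ z)).neg.cexp)
    refine h3.congr_deriv ?_
    have := h0 z
    field_simp
    ring
  have h4 : ∀ z, k z * Complex.exp (-F z) = k 0 * Complex.exp (-F 0) := by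
    intro z
    exact is_const_of_deriv_eq_zero (fun x => (h2 x).differentiableAt) (fun x => (h2 x).deriv) z 0
  set c := k 0 * Complex.exp (-F 0) with hc
  have hc0 : c ≠ 0 := mul_ne_zero (h0 0) (Complex.exp_ne_zero _)
  refine ⟨fun z => F z + Complex.log c, fun z =>
    ((hF z (Set.mem_univ z)).add_const _).differentiableAt, fun z => ?_⟩
  rw [Complex.exp_add, Complex.exp_log hc0, ← h4 z]
  have : Complex.exp (F z) * Complex.exp (-F z) = 1 := by rw [← Complex.exp_add]; simp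
  calc _ = k z * (Complex.exp (F z) * Complex.exp (-F z)) := by ring
    _ = k z := by rw [this, mul_one]

theorem quad_of_growth {G : ℂ → ℂ} (hG : Differentiable ℂ G) (C : ℝ)
    (hC : ∀ z, ‖G z‖ ≤ C * (1 + ‖z‖ ^ 2)) :
    ∃ α β γ : ℂ, ∀ z, G z = α * z ^ 2 + β * z + γ := by
  have h3 : ∀ z, iteratedDeriv 3 G z = 0 := by
    intro z
    have hC0 : 0 ≤ C := by
      have := hC 0
      have h' := norm_nonneg (G 0)
      simp at this; linarith
    have hb : ∀ r : ℝ, 0 < r → ‖iteratedDeriv 3 G z‖ ≤ 6 * (C * (1 + (‖z‖ + r) ^ 2)) / r ^ 3 := by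
      intro r hr
      have := Complex.norm_iteratedDeriv_le_of_forall_mem_sphere_norm_le (n := 3) (c := z) hr
        hG.diffContOnCl (C := C * (1 + (‖z‖ + r) ^ 2)) (fun w hw => by
          refine (hC w).trans ?_
          apply mul_le_mul_of_nonneg_left _ hC0
          have hw' : ‖w‖ ≤ ‖z‖ + r := by
            have h5 : ‖w - z‖ = r := by simpa [dist_eq_norm] using hw
            calc ‖w‖ = ‖z + (w - z)‖ := by congr 1; ring
              _ ≤ ‖z‖ + ‖w - z‖ := norm_add_le _ _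
              _ = _ := by rw [h5]
          have := pow_le_pow_left₀ (norm_nonneg w) hw' 2
          linarith)
      refine this.trans (le_of_eq ?_)
      norm_num [Nat.factorial]
    have hlim : Tendsto (fun r : ℝ => 6 * (C * (1 + (‖z‖ + r) ^ 2)) / r ^ 3) atTop (𝓝 0) := by
      have e1 : (fun r : ℝ => 6 * (C * (1 + (‖z‖ + r) ^ 2)) / r ^ 3) =ᶠ[atTop]
          fun r => 6 * C * (((1 + ‖z‖ ^ 2) * (r⁻¹) ^ 3) + 2 * ‖z‖ * (r⁻¹) ^ 2 + r⁻¹) := by
        filter_upwards [eventually_gt_atTop 0] with r hr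
        field_simp
        ring
      rw [tendsto_congr' e1]
      have e2 : Tendsto (fun r : ℝ => r⁻¹) atTop (𝓝 0) := tendsto_inv_atTop_zero
      have e3 := ((((e2.pow 3).const_mul (1 + ‖z‖ ^ 2)).add ((e2.pow 2).const_mul
        (2 * ‖z‖))).add e2).const_mul (6 * C)
      simpa using e3
    have h5 : ‖iteratedDeriv 3 G z‖ ≤ 0 := by
      apply ge_of_tendsto hlim
      filter_upwards [eventually_gt_atTop 0] with r hr
      exact hb r hr
    exact norm_le_zero_iff.1 h5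
  have hd1 := diff_deriv hG
  have hd2 := diff_deriv hd1
  have e3 : ∀ z, deriv (deriv (deriv G)) z = 0 := by
    intro z
    have := h3 z
    rw [iteratedDeriv_succ, iteratedDeriv_succ, iteratedDeriv_one] at this
    exact this
  have e2 : ∀ z, deriv (deriv G) z = deriv (deriv G) 0 := fun z =>
    is_const_of_deriv_eq_zero hd2 e3 z 0
  set a := deriv (deriv G) 0
  have e1 : ∀ z, deriv G z = a * z + deriv G 0 := by
    intro z
    have hd : ∀ x, HasDerivAt (fun z => deriv G z - a * z) 0 x := by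
      intro x
      refine ((hd1 x).hasDerivAt.sub ((hasDerivAt_id x).const_mul a)).congr_deriv ?_
      rw [e2 x]; ring
    have := is_const_of_deriv_eq_zero (fun x => (hd x).differentiableAt) (fun x => (hd x).deriv) z 0
    simp only [mul_zero, sub_zero] at this
    linear_combination this
  refine ⟨a / 2, deriv G 0, G 0, fun z => ?_⟩
  have hd : ∀ x, HasDerivAt (fun z => G z - (a / 2 * z ^ 2 + deriv G 0 * z)) 0 x := by
    intro x
    refine ((hG x).hasDerivAt.sub ((((hasDerivAt_id x).pow 2).const_mul (a / 2)).add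
      ((hasDerivAt_id x).const_mul (deriv G 0)))).congr_deriv ?_
    rw [e1 x]; simp; ring
  have := is_const_of_deriv_eq_zero (fun x => (hd x).differentiableAt) (fun x => (hd x).deriv) z 0
  simp only [mul_zero, ne_eq, OfNat.ofNat_ne_zero, not_false_eq_true, zero_pow, add_zero,
    sub_zero] at this
  linear_combination this

theorem gauss {k : ℂ → ℂ} (hk : Differentiable ℂ k) (h0 : ∀ z, k z ≠ 0) (hg : OrderTwo k) :
    ∃ α β γ : ℂ, ∀ z, k z = Complex.exp (α * z ^ 2 + β * z + γ) := by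
  obtain ⟨G, hG, hGk⟩ := exists_log_entire hk h0
  obtain ⟨A, c, hA, hc, h1⟩ := hg.pos
  have hre : ∀ z, (G z).re ≤ |Real.log A| + c * ‖z‖ ^ 2 := by
    intro z
    have h2 := h1 z
    rw [← hGk z, Complex.norm_exp] at h2
    have h3 := Real.log_le_log (Real.exp_pos _) h2
    rw [Real.log_exp, Real.log_mul hA.ne' (Real.exp_pos _).ne', Real.log_exp] at h3
    linarith [le_abs_self (Real.log A)]
  have hbd : ∀ z, ‖G z‖ ≤ (2 * (|Real.log A| + 1 + 8 * c) + 3 * ‖G 0‖) * (1 + ‖z‖ ^ 2) := by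
    intro z
    set R : ℝ := 2 * ‖z‖ + 1 with hR
    have hR0 : 0 < R := by positivity
    have hzR : ‖z‖ < R := by have := norm_nonneg z; linarith
    have hM : 0 < |Real.log A| + 1 + c * R ^ 2 := by positivity
    have h2 := Complex.borelCaratheodory (f := G) (R := R) (z := z) hM hG.differentiableOn
      (fun x hx => by
        have hx' : ‖x‖ < R := by simpa using hx
        show (G x).re ≤ _
        refine (hre x).trans ?_
        have := pow_le_pow_left₀ (norm_nonneg x) hx'.le 2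
        nlinarith) hR0 (by simpa using hzR)
    have hRz : R - ‖z‖ = ‖z‖ + 1 := by rw [hR]; ring
    rw [hRz] at h2
    have hz0 := norm_nonneg z
    have hzp : 0 < ‖z‖ + 1 := by positivity
    have h3 : 2 * (|Real.log A| + 1 + c * R ^ 2) * ‖z‖ / (‖z‖ + 1) ≤
        2 * (|Real.log A| + 1 + c * R ^ 2) := by
      rw [div_le_iff₀ hzp]
      nlinarith
    have h4 : ‖G 0‖ * (R + ‖z‖) / (‖z‖ + 1) ≤ 3 * ‖G 0‖ := by
      rw [div_le_iff₀ hzp, hR]
      nlinarith [norm_nonneg (G 0)]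
    have h5 : R ^ 2 ≤ 8 * (1 + ‖z‖ ^ 2) := by
      rw [hR]; nlinarith [sq_nonneg (‖z‖ - 1)]
    have h6 : 0 ≤ |Real.log A| := abs_nonneg _
    have h7 : ‖G z‖ ≤ 2 * (|Real.log A| + 1 + c * R ^ 2) + 3 * ‖G 0‖ := by linarith
    have h8 : c * R ^ 2 ≤ c * (8 * (1 + ‖z‖ ^ 2)) := mul_le_mul_of_nonneg_left h5 hc.le
    nlinarith [norm_nonneg (G 0), mul_nonneg h6 (sq_nonneg ‖z‖),
      mul_nonneg (norm_nonneg (G 0)) (sq_nonneg ‖z‖), sq_nonneg ‖z‖]
  obtain ⟨α, β, γ, h⟩ := quad_of_growth hG _ hbd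
  exact ⟨α, β, γ, fun z => by rw [← hGk z, h z]⟩

end Pool.Agent.Lib.MP_db21fa_an.H28
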