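import Pool.Agent.Lib.MP_db21fa_an.H28.Shift
import Pool.Agent.Lib.MP_db21fa_an.H28.Growth

set_option autoImplicit false

open Filter Topology Polynomial

namespace Pool.Agent.Lib.MP_db21fa_an.H28

theorem no_indep (V : Submodule ℂ Ent) [FiniteDimensional ℂ V] (T : Module.End ℂ Ent)
    (F : ℂ → Ent) (hF : ∀ y, F y ∈ V) (hne : ∀ y, F y ≠ 0) (μ : ℕ → ℂ)
    (hμ : Function.Injective μ) (y : ℕ → ℂ) (hgen : ∀ n, F (y n) ∈ T.maxGenEigenspace (μ n)) :
    False := by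
  have h1 : LinearIndependent ℂ (fun n => F (y n)) :=
    (T.independent_maxGenEigenspace.comp hμ).linearIndependent _ hgen (fun n => hne _)
  have h2 : LinearIndependent ℂ (fun i : Fin (Module.finrank ℂ V + 1) =>
      (⟨F (y i), hF _⟩ : V)) := by
    apply LinearIndependent.of_comp V.subtype
    exact h1.comp (fun i : Fin (Module.finrank ℂ V + 1) => (i : ℕ)) Fin.val_injective
  have h3 := h2.fintype_card_le_finrank
  rw [Fintype.card_fin] at h3
  omega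

theorem G0_mem (h b : Ent) {N : ℕ} (f : Fin N → Ent) (g : Fin N → ℂ → ℂ)
    (heq : ∀ x y, (h : ℂ → ℂ) (x - y) * (b : ℂ → ℂ) (x + y) = ∑ j, (f j : ℂ → ℂ) x * g j y)
    (y : ℂ) : G0 h b y ∈ Submodule.span ℂ (Set.range f) := by
  have : G0 h b y = ∑ j, g j y • f j := by
    ext x
    have h1 := heq x y
    rw [sub_eq_add_neg] at h1
    have h2 : (G0 h b y : ℂ → ℂ) x = (h : ℂ → ℂ) (x + -y) * (b : ℂ → ℂ) (x + y) := rfl
    rw [h2, h1]
    simp [mul_comm]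
  rw [this]
  exact Submodule.sum_mem _ fun j _ => Submodule.smul_mem _ _ (Submodule.subset_span ⟨j, rfl⟩)

/-- exponential of a quadratic polynomial as an entire function -/
noncomputable def expQ (α β γ : ℂ) : Ent :=
  ⟨fun x => Complex.exp (α * x ^ 2 + β * x + γ), by
    show Differentiable ℂ _
    fun_prop⟩

theorem expQ_apply (α β γ x : ℂ) :
    (expQ α β γ : ℂ → ℂ) x = Complex.exp (α * x ^ 2 + β * x + γ) := rfl

theorem exp_nat_inj : Function.Injective (fun n : ℕ => Complex.exp (n : ℂ)) := by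
  intro m n hmn
  have h1 : ((Real.exp m : ℝ) : ℂ) = ((Real.exp n : ℝ) : ℂ) := by
    push_cast; exact hmn
  have h2 := Real.exp_injective (Complex.ofReal_injective h1)
  exact_mod_cast h2

theorem eig (h b : Ent) (h0 : h ≠ 0) (b0 : b ≠ 0) (V : Submodule ℂ Ent)
    [FiniteDimensional ℂ V] (hV : ∀ y, G0 h b y ∈ V) (ω A₁ B₁ A₂ B₂ : ℂ)
    (hq : ∀ z, (h : ℂ → ℂ) (z + ω) = Complex.exp (A₁ * z + B₁) * (h : ℂ → ℂ) z)
    (bq : ∀ z, (b : ℂ → ℂ) (z + ω) = Complex.exp (A₂ * z + B₂) * (b : ℂ → ℂ) z) : A₁ = A₂ := by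
  by_contra hne
  set κ := A₂ - A₁ with hκ
  have hκ0 : κ ≠ 0 := sub_ne_zero.2 (Ne.symm hne)
  let T : Module.End ℂ Ent :=
    { toFun := fun f => expQ 0 (-(A₁ + A₂)) (-(B₁ + B₂)) * sh f ω
      map_add' := by
        intro f g
        ext x
        simp [mul_add]
      map_smul' := by
        intro c f
        ext x
        simp only [RingHom.id_apply, Subalgebra.coe_smul, Pi.smul_apply, smul_eq_mul]
        show (expQ 0 (-(A₁ + A₂)) (-(B₁ + B₂)) : ℂ → ℂ) x * (c * (f : ℂ → ℂ) (x + ω)) =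
          c * ((expQ 0 (-(A₁ + A₂)) (-(B₁ + B₂)) : ℂ → ℂ) x * (f : ℂ → ℂ) (x + ω))
        ring }
  refine no_indep V T (G0 h b) hV (fun y => mul_ne_zero (sh_ne_zero h0 _) (sh_ne_zero b0 _))
    (fun n => Complex.exp (n : ℂ)) exp_nat_inj (fun n => (n : ℂ) / κ) (fun n => ?_)
  rw [Module.End.mem_maxGenEigenspace]
  refine ⟨1, ?_⟩
  rw [pow_one, LinearMap.sub_apply, sub_eq_zero]
  ext x
  show (expQ 0 (-(A₁ + A₂)) (-(B₁ + B₂)) : ℂ → ℂ) x *
    ((h : ℂ → ℂ) (x + ω + -((n : ℂ) / κ)) * (b : ℂ → ℂ) (x + ω + (n : ℂ) / κ)) =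
    Complex.exp (n : ℂ) * ((h : ℂ → ℂ) (x + -((n : ℂ) / κ)) * (b : ℂ → ℂ) (x + (n : ℂ) / κ))
  rw [show x + ω + -((n : ℂ) / κ) = (x + -((n : ℂ) / κ)) + ω by ring,
    show x + ω + (n : ℂ) / κ = (x + (n : ℂ) / κ) + ω by ring, hq, bq, expQ_apply]
  have e1 : Complex.exp (0 * x ^ 2 + -(A₁ + A₂) * x + -(B₁ + B₂)) *
      (Complex.exp (A₁ * (x + -((n : ℂ) / κ)) + B₁) * Complex.exp (A₂ * (x + (n : ℂ) / κ) + B₂)) =
      Complex.exp (n : ℂ) := by
    rw [← Complex.exp_add, ← Complex.exp_add]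
    congr 1
    have : (n : ℂ) = κ * ((n : ℂ) / κ) := by field_simp
    conv_rhs => rw [this]
    rw [hκ]; ring
  rw [← e1]; ring

theorem alpha_eq_poly (P Q : ℂ[X]) (hP : P ≠ 0) (hQ : Q ≠ 0) (α₁ β₁ γ₁ α₂ β₂ γ₂ : ℂ) (h b : Ent)
    (hh : ∀ z, (h : ℂ → ℂ) z = P.eval z * Complex.exp (α₁ * z ^ 2 + β₁ * z + γ₁))
    (hb : ∀ z, (b : ℂ → ℂ) z = Q.eval z * Complex.exp (α₂ * z ^ 2 + β₂ * z + γ₂))
    (h0 : h ≠ 0) (b0 : b ≠ 0)
    (V : Submodule ℂ Ent) [FiniteDimensional ℂ V] (hV : ∀ y, G0 h b y ∈ V) : α₁ = α₂ := by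
  by_contra hne
  set κ := 2 * (α₂ - α₁) with hκ
  have hκ0 : κ ≠ 0 := mul_ne_zero two_ne_zero (sub_ne_zero.2 (Ne.symm hne))
  let q : Ent := ⟨fun x => 2 * (α₁ + α₂) * x + (β₁ + β₂), by show Differentiable ℂ _; fun_prop⟩
  let T : Module.End ℂ Ent := dEl - LinearMap.mulLeft ℂ q
  have hT : ∀ f : Ent, ∀ x, (T f : ℂ → ℂ) x = deriv (f : ℂ → ℂ) x - (q : ℂ → ℂ) x * (f : ℂ → ℂ) x :=
    fun f x => rfl
  refine no_indep V T (G0 h b) hV (fun y => mul_ne_zero (sh_ne_zero h0 _) (sh_ne_zero b0 _))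
    (fun n => (n : ℂ)) Nat.cast_injective (fun n => (n : ℂ) / κ) (fun n => ?_)
  rw [Module.End.mem_maxGenEigenspace]
  set y : ℂ := (n : ℂ) / κ with hy
  have hny : (n : ℂ) = κ * y := by rw [hy]; field_simp
  set e : ℂ → ℂ := fun x => Complex.exp (α₁ * (x + -y) ^ 2 + β₁ * (x + -y) + γ₁ +
    (α₂ * (x + y) ^ 2 + β₂ * (x + y) + γ₂)) with he
  have hed : Differentiable ℂ e := by
    rw [he]; fun_prop
  let Re : ℂ[X] → Ent := fun R => ⟨fun x => R.eval x * e x, by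
    show Differentiable ℂ _
    exact R.differentiable.mul hed⟩
  have hstep : ∀ R : ℂ[X], (T - algebraMap ℂ (Module.End ℂ Ent) (n : ℂ)) (Re R) =
      Re (derivative R) := by
    intro R
    ext x
    have h1 : HasDerivAt (fun x => R.eval x * e x) ((derivative R).eval x * e x + R.eval x *
        (e x * (α₁ * (2 * (x + -y)) + β₁ + (α₂ * (2 * (x + y)) + β₂)))) x := by
      apply (R.hasDerivAt x).mul
      have a1 : HasDerivAt (fun x : ℂ => α₁ * (x + -y) ^ 2 + β₁ * (x + -y) + γ₁ +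
          (α₂ * (x + y) ^ 2 + β₂ * (x + y) + γ₂))
          (α₁ * (2 * (x + -y)) + β₁ + (α₂ * (2 * (x + y)) + β₂)) x := by
        have b1 : HasDerivAt (fun x : ℂ => x + -y) 1 x := (hasDerivAt_id x).add_const _
        have b2 : HasDerivAt (fun x : ℂ => x + y) 1 x := (hasDerivAt_id x).add_const _
        have b3 := ((((b1.pow 2).const_mul α₁).add (b1.const_mul β₁)).add_const γ₁).add
          ((((b2.pow 2).const_mul α₂).add (b2.const_mul β₂)).add_const γ₂)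
        refine b3.congr_deriv ?_
        simp
      exact a1.cexp
    have h2 : ((T - algebraMap ℂ (Module.End ℂ Ent) (n : ℂ)) (Re R) : ℂ → ℂ) x =
        deriv (fun x => R.eval x * e x) x - (q : ℂ → ℂ) x * (R.eval x * e x) -
        (n : ℂ) * (R.eval x * e x) := rfl
    rw [h2, h1.deriv, hny]
    show _ = (derivative R).eval x * e x
    have hqx : (q : ℂ → ℂ) x = 2 * (α₁ + α₂) * x + (β₁ + β₂) := rfl
    rw [hqx, hκ]
    ring
  have hiter : ∀ (m : ℕ) (R : ℂ[X]), ((T - algebraMap ℂ (Module.End ℂ Ent) (n : ℂ)) ^ m) (Re R) =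
      Re (derivative^[m] R) := by
    intro m
    induction m with
    | zero => intro R; rfl
    | succ m ih =>
      intro R
      rw [pow_succ, Module.End.mul_apply, hstep, ih, Function.iterate_succ_apply]
  set R : ℂ[X] := (P.comp (X + C (-y))) * (Q.comp (X + C y)) with hR
  have hG : G0 h b y = Re R := by
    ext x
    show (h : ℂ → ℂ) (x + -y) * (b : ℂ → ℂ) (x + y) = R.eval x * e x
    rw [hh, hb, hR, eval_mul, eval_comp, eval_comp, he]
    simp only [eval_add, eval_X, eval_C]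
    rw [Complex.exp_add (α₁ * (x + -y) ^ 2 + β₁ * (x + -y) + γ₁)]
    ring
  refine ⟨R.natDegree + 1, ?_⟩
  have h5 := hiter (R.natDegree + 1) R
  rw [iterate_derivative_eq_zero (Nat.lt_succ_self _)] at h5
  have h6 : Re 0 = 0 := by
    ext x
    show (0 : ℂ[X]).eval x * e x = 0
    rw [eval_zero, zero_mul]
  rw [h6, ← hG] at h5
  exact h5

end Pool.Agent.Lib.MP_db21fa_an.H28
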