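import Mathlib

set_option autoImplicit false

namespace Pool.Agent.Lib.MP_db21fa_an.H28

/-- The algebra of entire functions. -/
def Ent : Subalgebra ℂ (ℂ → ℂ) where
  carrier := {f | Differentiable ℂ f}
  mul_mem' := fun hf hg => hf.mul hg
  add_mem' := fun hf hg => hf.add hg
  algebraMap_mem' := fun c => differentiable_const c

theorem mem_Ent {f : ℂ → ℂ} : f ∈ Ent ↔ Differentiable ℂ f := Iff.rfl

theorem mul_eq_zero_fun {f g : ℂ → ℂ} (hf : Differentiable ℂ f) (hg : Differentiable ℂ g)
    (h : ∀ x, f x * g x = 0) : (∀ x, f x = 0) ∨ (∀ x, g x = 0) := by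
  have hf' : AnalyticOnNhd ℂ f Set.univ := fun x _ => hf.analyticAt x
  have hg' : AnalyticOnNhd ℂ g Set.univ := fun x _ => hg.analyticAt x
  have := hf'.eq_zero_or_eq_zero_of_mul_eq_zero hg' (fun x _ => h x) isPreconnected_univ
  rcases this with h | h
  · left; intro x; exact h x (Set.mem_univ x)
  · right; intro x; exact h x (Set.mem_univ x)

instance : NoZeroDivisors Ent where
  eq_zero_or_eq_zero_of_mul_eq_zero := by
    intro f g h
    have h1 : ∀ x, (f : ℂ → ℂ) x * (g : ℂ → ℂ) x = 0 := by
      intro x
      have := congrArg (fun k : Ent => (k : ℂ → ℂ) x) h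
      simpa using this
    rcases mul_eq_zero_fun f.2 g.2 h1 with h | h
    · left; ext x; exact h x
    · right; ext x; exact h x

instance : IsDomain Ent := NoZeroDivisors.to_isDomain _

theorem ent_diff (f : Ent) : Differentiable ℂ (f : ℂ → ℂ) := f.2

theorem diff_deriv {f : ℂ → ℂ} (h : Differentiable ℂ f) : Differentiable ℂ (deriv f) :=
  (h.contDiff (n := 2)).differentiable_deriv_two

/-- differentiation of entire functions, linear map -/
noncomputable def dEl : Ent →ₗ[ℂ] Ent where
  toFun f := ⟨deriv (f : ℂ → ℂ), diff_deriv f.2⟩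
  map_add' := by
    intro f g
    ext x
    simpa using deriv_add (ent_diff f x) (ent_diff g x)
  map_smul' := by
    intro c f
    ext x
    simpa using deriv_const_smul c (ent_diff f x)

/-- differentiation of entire functions -/
noncomputable def dE : Derivation ℂ Ent Ent :=
  Derivation.mk' dEl (by
    intro f g
    ext x
    have := deriv_mul (ent_diff f x) (ent_diff g x)
    simp only [Subalgebra.coe_add, smul_eq_mul, MulMemClass.coe_mul, Pi.add_apply, Pi.mul_apply]
    show deriv ((f : ℂ → ℂ) * (g : ℂ → ℂ)) x = (f : ℂ → ℂ) x * deriv (g : ℂ → ℂ) x +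
      (g : ℂ → ℂ) x * deriv (f : ℂ → ℂ) x
    rw [this]; ring)

@[simp] theorem dE_apply (f : Ent) (x : ℂ) : (dE f : ℂ → ℂ) x = deriv (f : ℂ → ℂ) x := rfl

section Frac

variable {k A K : Type*} [Field k] [CommRing A] [IsDomain A] [Algebra k A] [Field K]
  [Algebra A K] [Algebra k K] [IsScalarTower k A K] [IsFractionRing A K]

/-- A derivation of a domain extends to its fraction field. -/
theorem exists_derivation_frac (d : Derivation k A A) :
    ∃ D : Derivation k K K, ∀ a, D (algebraMap A K a) = algebraMap A K (d a) := by
  let t : A →ₐ[k] TrivSqZeroExt K K :=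
    { toFun := fun f => TrivSqZeroExt.inl (algebraMap A K f) +
        TrivSqZeroExt.inr (algebraMap A K (d f))
      map_one' := by ext <;> simp
      map_mul' := by
        intro f g
        ext
        · simp
        · simp [mul_comm]
          simp only [Algebra.smul_def]
          ring
      map_zero' := by ext <;> simp
      map_add' := by
        intro f g
        ext
        · simp
        · simp
          simp only [Algebra.smul_def, mul_one]
      commutes' := by
        intro c
        ext
        · simp [IsScalarTower.algebraMap_apply k A K, TrivSqZeroExt.algebraMap_eq_inl']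
        · simp [TrivSqZeroExt.algebraMap_eq_inl'] }
  have ht : ∀ a, t a = TrivSqZeroExt.inl (algebraMap A K a) +
        TrivSqZeroExt.inr (algebraMap A K (d a)) := fun a => rfl
  have htu : ∀ y : nonZeroDivisors A, IsUnit (t y) := by
    intro y
    rw [TrivSqZeroExt.isUnit_iff_isUnit_fst]
    simp [ht]
  let T : K →ₐ[k] TrivSqZeroExt K K :=
    IsLocalization.liftAlgHom (M := nonZeroDivisors A) (f := t) htu
  have hT : ∀ a, T (algebraMap A K a) = t a := by
    intro a; simp [T]
  have hfst : ∀ x, (T x).fst = x := by
    intro x
    have h : ((TrivSqZeroExt.fstHom k K K).comp T) = AlgHom.id k K := by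
      apply IsLocalization.algHom_ext (nonZeroDivisors A)
      ext f
      have h1 : (Algebra.algHom k A K) f = algebraMap A K f := rfl
      simp [h1, hT, ht]
    have := congrArg (fun q : K →ₐ[k] K => q x) h
    simpa using this
  let l : K →ₗ[k] K :=
    { toFun := fun f => (T f).snd
      map_add' := by intro f g; simp
      map_smul' := by intro c f; simp }
  refine ⟨Derivation.mk' l ?_, ?_⟩
  · intro f g
    show (T (f * g)).snd = f • (T g).snd + g • (T f).snd
    rw [map_mul, TrivSqZeroExt.snd_mul, hfst, hfst]
    simp [mul_comm]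
  · intro a
    show (T _).snd = _
    rw [hT, ht]
    simp
    simp only [Algebra.smul_def, mul_one]

end Frac

end Pool.Agent.Lib.MP_db21fa_an.H28
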