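import Mathlib

set_option autoImplicit false

namespace Pool.Agent.Lib.MP_db21fa_an.H28

open Polynomial

section

variable {k A K : Type*} [Field k] [CommRing A] [IsDomain A] [Algebra k A] [Field K]
  [Algebra A K] [Algebra k K] [IsScalarTower k A K] [IsFractionRing A K]

theorem eval_rel (ev : A →ₐ[k] k) (a b a' b' : A) (hb : ev b ≠ 0) (hb' : ev b' ≠ 0)
    (P : ℕ → k[X]) (d : ℕ)
    (h : ∑ i ∈ Finset.range (d + 1), aeval (algebraMap A K a / algebraMap A K b) (P i) *
      (algebraMap A K a' / algebraMap A K b') ^ i = 0) :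
    ∑ i ∈ Finset.range (d + 1), (P i).eval (ev a / ev b) * (ev a' / ev b') ^ i = 0 := by
  let M : Submonoid A := (nonZeroDivisors k).comap ev
  have hM : ∀ x : A, x ∈ M ↔ ev x ≠ 0 := by
    intro x
    simp [M]
  let i1 : A →ₐ[k] K := IsScalarTower.toAlgHom k A K
  have hi1 : ∀ x, i1 x = algebraMap A K x := fun x => rfl
  have hM0 : ∀ y : M, IsUnit (i1 y) := by
    intro y
    have h1 := (hM y).1 y.2
    have h2 : (y : A) ≠ 0 := by
      rintro h3; rw [h3, map_zero] at h1; exact h1 rfl
    rw [isUnit_iff_ne_zero, hi1]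
    rwa [Ne, IsFractionRing.to_map_eq_zero_iff]
  have hM1 : ∀ y : M, IsUnit (ev y) := by
    intro y
    exact isUnit_iff_ne_zero.2 ((hM y).1 y.2)
  let R := Localization M
  let l : R →ₐ[k] K := IsLocalization.liftAlgHom (M := M) (f := i1) hM0
  let e : R →ₐ[k] k := IsLocalization.liftAlgHom (M := M) (f := ev) hM1
  have hl : ∀ x : A, l (algebraMap A R x) = algebraMap A K x := by
    intro x; simp [l, hi1]
  have he : ∀ x : A, e (algebraMap A R x) = ev x := by
    intro x; simp [e]
  have hlinj : Function.Injective l := by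
    rw [injective_iff_map_eq_zero]
    intro x hx
    obtain ⟨⟨u, s⟩, hu⟩ := IsLocalization.surj M x
    have h1 : l (algebraMap A R u) = 0 := by
      rw [← hu, map_mul, hx, zero_mul]
    rw [hl, IsFractionRing.to_map_eq_zero_iff] at h1
    simp only at hu
    rw [h1, map_zero] at hu
    have h2 : IsUnit (algebraMap A R s) := IsLocalization.map_units R s
    exact (IsUnit.mul_left_eq_zero h2).1 hu
  let q : R := IsLocalization.mk' R a ⟨b, (hM b).2 hb⟩
  let q' : R := IsLocalization.mk' R a' ⟨b', (hM b').2 hb'⟩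
  have hq : q * algebraMap A R b = algebraMap A R a := IsLocalization.mk'_spec R a ⟨b, (hM b).2 hb⟩
  have hq' : q' * algebraMap A R b' = algebraMap A R a' :=
    IsLocalization.mk'_spec R a' ⟨b', (hM b').2 hb'⟩
  have nb : algebraMap A K b ≠ 0 := by
    rw [Ne, IsFractionRing.to_map_eq_zero_iff]; rintro rfl; simp at hb
  have nb' : algebraMap A K b' ≠ 0 := by
    rw [Ne, IsFractionRing.to_map_eq_zero_iff]; rintro rfl; simp at hb'
  have l1 : l q = algebraMap A K a / algebraMap A K b := by
    rw [eq_div_iff nb, ← hl, ← hl, ← map_mul, hq]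
  have l2 : l q' = algebraMap A K a' / algebraMap A K b' := by
    rw [eq_div_iff nb', ← hl, ← hl, ← map_mul, hq']
  have e1 : e q = ev a / ev b := by
    rw [eq_div_iff hb, ← he, ← he, ← map_mul, hq]
  have e2 : e q' = ev a' / ev b' := by
    rw [eq_div_iff hb', ← he, ← he, ← map_mul, hq']
  have h3 : ∑ i ∈ Finset.range (d + 1), aeval q (P i) * q' ^ i = 0 := by
    apply hlinj
    rw [map_sum, map_zero, ← h]
    apply Finset.sum_congr rfl
    intro i _
    rw [map_mul, map_pow, l2, ← l1, Polynomial.aeval_algHom_apply]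
  have h4 := congrArg e h3
  rw [map_sum, map_zero] at h4
  rw [← h4]
  apply Finset.sum_congr rfl
  intro i _
  rw [map_mul, map_pow, e2, ← Polynomial.aeval_algHom_apply, e1]
  simp [Polynomial.aeval_def, Polynomial.eval₂_eq_eval_map]

end

end Pool.Agent.Lib.MP_db21fa_an.H28
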