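import Pool.Agent.Lib.MP_db21fa_an.H28.Divis

set_option autoImplicit false

open Filter Topology Metric Polynomial

namespace Pool.Agent.Lib.MP_db21fa_an.H28

/-- `E` is a uniformising function of `ℂ / ℤ ω`. -/
structure Unif (ω : ℂ) (E : ℂ → ℂ) : Prop where
  diff : Differentiable ℂ E
  per : ∀ z w, E z = E w ↔ ∃ n : ℤ, z = w + n * ω
  der : ∀ z, deriv E z ≠ 0
  gr : ∀ (a : ℂ) (H k : ℂ → ℂ), Differentiable ℂ k → (∀ z, H z = (E z - E a) * k z) →
    OrderTwo H → OrderTwo k

theorem unif_id : Unif 0 (fun z => z) where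
  diff := differentiable_id
  per := by intro z w; simp
  der := by intro z; simp
  gr := fun a H k hk hH ho => growth_div_linear hk a hH ho

theorem unif_exp {ω : ℂ} (hω : ω ≠ 0) :
    Unif ω (fun z => Complex.exp (2 * Real.pi * Complex.I / ω * z)) where
  diff := by fun_prop
  per := by
    intro z w
    have hpi := Complex.two_pi_I_ne_zero
    rw [Complex.exp_eq_exp_iff_exists_int]
    constructor
    · rintro ⟨n, hn⟩
      refine ⟨n, ?_⟩
      have h1 : 2 * Real.pi * Complex.I * z = 2 * Real.pi * Complex.I * (w + n * ω) := by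
        field_simp at hn
        linear_combination 2 * Real.pi * Complex.I * hn
      exact mul_left_cancel₀ hpi h1
    · rintro ⟨n, hn⟩
      refine ⟨n, ?_⟩
      rw [hn]; field_simp
  der := by
    intro z
    have h1 : HasDerivAt (fun z => Complex.exp (2 * Real.pi * Complex.I / ω * z))
        (Complex.exp (2 * Real.pi * Complex.I / ω * z) * (2 * Real.pi * Complex.I / ω * 1)) z :=
      ((hasDerivAt_id z).const_mul _).cexp
    rw [h1.deriv]
    exact mul_ne_zero (Complex.exp_ne_zero _)
      (mul_ne_zero (div_ne_zero Complex.two_pi_I_ne_zero hω) one_ne_zero)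
  gr := fun a H k hk hH ho =>
    growth_div_exp hk _ a (div_ne_zero Complex.two_pi_I_ne_zero hω) hH ho

theorem order_ne_top {h : ℂ → ℂ} (hh : Differentiable ℂ h) (h0 : ∃ z, h z ≠ 0) (c : ℂ) :
    analyticOrderAt h c ≠ ⊤ := by
  intro ht
  rw [analyticOrderAt_eq_top] at ht
  obtain ⟨z, hz⟩ := h0
  exact hz (entire_zero hh ht z)

theorem order_pos {h : ℂ → ℂ} (hh : Differentiable ℂ h) (h0 : ∃ z, h z ≠ 0) {c : ℂ}
    (hc : h c = 0) : 0 < analyticOrderNatAt h c := by
  rw [Nat.pos_iff_ne_zero]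
  intro h1
  have h2 := Nat.cast_analyticOrderNatAt (order_ne_top hh h0 c)
  rw [h1] at h2
  have h3 : analyticOrderAt h c ≠ 0 := analyticOrderAt_ne_zero.2 ⟨hh.analyticAt c, hc⟩
  exact h3 h2.symm

theorem zero_shift {h : ℂ → ℂ} {ω A B : ℂ} (hq : ∀ z, h (z + ω) = Complex.exp (A * z + B) * h z)
    (z : ℂ) (hz : h z = 0) (m : ℤ) : h (z + m * ω) = 0 := by
  induction m using Int.induction_on with
  | zero => simpa using hz
  | succ n ih =>
    have := hq (z + (n : ℤ) * ω)
    rw [ih, mul_zero] at this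
    rw [← this]
    congr 1
    push_cast; ring
  | pred n ih =>
    have := hq (z + ((-(n : ℤ) - 1 : ℤ) : ℂ) * ω)
    have e1 : z + ((-(n : ℤ) - 1 : ℤ) : ℂ) * ω + ω = z + ((-(n : ℤ) : ℤ) : ℂ) * ω := by
      push_cast; ring
    rw [e1, ih] at this
    rcases mul_eq_zero.1 this.symm with h1 | h1
    · exact absurd h1 (Complex.exp_ne_zero _)
    · exact h1

theorem factor {ω : ℂ} {E : ℂ → ℂ} (hE : Unif ω E) (C : Finset ℂ) :
    ∀ (n : ℕ) (h : ℂ → ℂ), Differentiable ℂ h → (∃ z, h z ≠ 0) → OrderTwo h →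
      (∃ A B : ℂ, ∀ z, h (z + ω) = Complex.exp (A * z + B) * h z) →
      (∀ z, h z = 0 → ∃ c ∈ C, ∃ m : ℤ, z = c + m * ω) →
      ∑ c ∈ C, analyticOrderNatAt h c ≤ n →
      ∃ (P : ℂ[X]) (k : ℂ → ℂ), Differentiable ℂ k ∧ (∀ z, k z ≠ 0) ∧ OrderTwo k ∧
        ∀ z, h z = P.eval (E z) * k z := by
  intro n
  induction n with
  | zero =>
    intro h hh h0 ho ⟨A, B, hq⟩ hz hn
    refine ⟨1, h, hh, ?_, ho, by simp⟩
    intro z hzz
    obtain ⟨c, hc, m, hm⟩ := hz z hzz
    have h1 : h c = 0 := by
      have := zero_shift hq z hzz (-m)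
      rw [hm] at this
      rw [← this]
      congr 1; push_cast; ring
    have h2 := order_pos hh h0 h1
    have h3 : analyticOrderNatAt h c ≤ ∑ c ∈ C, analyticOrderNatAt h c :=
      Finset.single_le_sum (fun _ _ => Nat.zero_le _) hc
    omega
  | succ n ih =>
    intro h hh h0 ho ⟨A, B, hq⟩ hz hn
    by_cases hzero : ∃ z, h z = 0
    swap
    · push Not at hzero
      exact ⟨1, h, hh, hzero, ho, by simp⟩
    obtain ⟨z₀, hz₀⟩ := hzero
    obtain ⟨c, hc, m, hm⟩ := hz z₀ hz₀
    have hc0 : h c = 0 := by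
      have := zero_shift hq z₀ hz₀ (-m)
      rw [hm] at this
      rw [← this]
      congr 1; push_cast; ring
    have hθ : Differentiable ℂ (fun z => E z - E c) := hE.diff.sub_const _
    obtain ⟨k, hk, hhk⟩ := division hθ hh (fun p hp => by
      refine ⟨?_, ?_⟩
      · rw [deriv_sub_const]; exact hE.der p
      · obtain ⟨m', hm'⟩ := (hE.per p c).1 (sub_eq_zero.1 hp)
        rw [hm']
        exact zero_shift hq c hc0 m')
    have hk0 : ∃ z, k z ≠ 0 := by
      obtain ⟨z, hz1⟩ := h0
      refine ⟨z, fun h1 => hz1 ?_⟩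
      rw [hhk, h1, mul_zero]
    have hθ0 : ∃ z, E z - E c ≠ 0 := by
      obtain ⟨z, hz1⟩ := h0
      refine ⟨z, fun h1 => hz1 ?_⟩
      rw [hhk, h1, zero_mul]
    have hko : OrderTwo k := hE.gr c h k hk hhk ho
    have hper : ∀ z, E (z + ω) = E z := fun z => (hE.per _ _).2 ⟨1, by simp⟩
    have hkq : ∀ z, k (z + ω) = Complex.exp (A * z + B) * k z := by
      have h1 : ∀ z, (E z - E c) * (k (z + ω) - Complex.exp (A * z + B) * k z) = 0 := by
        intro z
        have h2 := hq z
        rw [hhk, hhk, hper] at h2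
        linear_combination h2
      have d2 : Differentiable ℂ (fun z => k (z + ω) - Complex.exp (A * z + B) * k z) := by
        apply Differentiable.sub
        · exact hk.comp (differentiable_id.add_const ω)
        · exact Differentiable.mul (by fun_prop) hk
      rcases mul_eq_zero_fun hθ d2 h1 with h3 | h3
      · obtain ⟨z, hz1⟩ := hθ0
        exact absurd (h3 z) hz1
      · intro z
        exact sub_eq_zero.1 (h3 z)
    have hord : ∀ c', analyticOrderNatAt h c' =
        analyticOrderNatAt (fun z => E z - E c) c' + analyticOrderNatAt k c' := by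
      intro c'
      have h1 : h = (fun z => E z - E c) * k := by
        funext z; exact hhk z
      rw [h1]
      exact analyticOrderNatAt_mul (hθ.analyticAt c') (hk.analyticAt c')
        (order_ne_top hθ hθ0 c') (order_ne_top hk hk0 c')
    have hsum : ∑ c' ∈ C, analyticOrderNatAt k c' ≤ n := by
      have h1 : ∑ c' ∈ C, analyticOrderNatAt h c' =
          ∑ c' ∈ C, analyticOrderNatAt (fun z => E z - E c) c' +
          ∑ c' ∈ C, analyticOrderNatAt k c' := by
        rw [← Finset.sum_add_distrib]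
        exact Finset.sum_congr rfl fun c' _ => hord c'
      have h2 : 0 < analyticOrderNatAt (fun z => E z - E c) c :=
        order_pos hθ hθ0 (sub_self _)
      have h3 : analyticOrderNatAt (fun z => E z - E c) c ≤
          ∑ c' ∈ C, analyticOrderNatAt (fun z => E z - E c) c' :=
        Finset.single_le_sum (f := fun c' => analyticOrderNatAt (fun z => E z - E c) c')
          (fun _ _ => Nat.zero_le _) hc
      omega
    obtain ⟨P, k', hk', hk'0, hk'o, hk'P⟩ := ih k hk hk0 hko ⟨A, B, hkq⟩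
      (fun z hz1 => hz z (by rw [hhk, hz1, mul_zero])) hsum
    refine ⟨(X - Polynomial.C (E c)) * P, k', hk', hk'0, hk'o, fun z => ?_⟩
    rw [hhk, hk'P, eval_mul, eval_sub, eval_X, eval_C, mul_assoc]

end Pool.Agent.Lib.MP_db21fa_an.H28
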