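import Pool.Agent.Lib.MP_db21fa_an.H28.Pair
import Pool.Agent.Lib.MP_db21fa_an.H28.Factor
import Pool.Agent.Lib.MP_db21fa_an.H28.Eig

set_option autoImplicit false

open Filter Topology Polynomial

namespace Pool.Agent.Lib.MP_db21fa_an.H28

/-- the group of common quasi-periods -/
def QPgroup (h b : Ent) : AddSubgroup ℂ where
  carrier := {ω | QP h b ω}
  zero_mem' := ⟨0, 0, 0, 0, fun z => by simp⟩
  add_mem' := by
    rintro ω ω' ⟨A, B, A', B', h1⟩ ⟨C, D, C', D', h2⟩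
    refine ⟨A + C, B + C * ω + D, A' + C', B' + C' * ω + D', fun z => ⟨?_, ?_⟩⟩
    · rw [← add_assoc, (h2 _).1, (h1 z).1, ← mul_assoc, ← Complex.exp_add]
      congr 2; ring
    · rw [← add_assoc, (h2 _).2, (h1 z).2, ← mul_assoc, ← Complex.exp_add]
      congr 2; ring
  neg_mem' := by
    rintro ω ⟨A, B, A', B', h1⟩
    refine ⟨-A, A * ω - B, -A', A' * ω - B', fun z => ⟨?_, ?_⟩⟩
    · have h2 := (h1 (z + -ω)).1
      rw [show z + -ω + ω = z by ring] at h2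
      rw [h2, ← mul_assoc, ← Complex.exp_add, show -A * z + (A * ω - B) + (A * (z + -ω) + B) = 0 by
        ring, Complex.exp_zero, one_mul]
    · have h2 := (h1 (z + -ω)).2
      rw [show z + -ω + ω = z by ring] at h2
      rw [h2, ← mul_assoc, ← Complex.exp_add, show -A' * z + (A' * ω - B') + (A' * (z + -ω) + B') = 0
        by ring, Complex.exp_zero, one_mul]

theorem classify (Λ : AddSubgroup ℂ) (ε : ℝ) (hε : 0 < ε) (hd : ∀ ω ∈ Λ, ω ≠ 0 → ε ≤ ‖ω‖) :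
    (∃ ω₁ ∈ Λ, ∃ ω₂ ∈ Λ, LinearIndependent ℝ ![ω₁, ω₂]) ∨
    (∃ ω ∈ Λ, ∀ ω' ∈ Λ, ∃ n : ℤ, ω' = n * ω) := by
  by_cases hli : ∃ ω₁ ∈ Λ, ∃ ω₂ ∈ Λ, LinearIndependent ℝ ![ω₁, ω₂]
  · left; exact hli
  right
  push Not at hli
  by_cases hz : ∀ ω ∈ Λ, ω = 0
  · exact ⟨0, Λ.zero_mem, fun ω' h' => ⟨0, by simp [hz ω' h']⟩⟩
  push Not at hz
  obtain ⟨ω₀, hω₀, hne⟩ := hz
  have hreal : ∀ ω ∈ Λ, ∃ t : ℝ, ω = t * ω₀ := by
    intro ω hω
    have h1 := hli ω₀ hω₀ ω hω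
    rw [LinearIndependent.pair_iff] at h1
    push Not at h1
    obtain ⟨s, t, hst, h2⟩ := h1
    have ht : t ≠ 0 := by
      intro ht
      rw [ht, zero_smul, add_zero] at hst
      rcases smul_eq_zero.1 hst with h3 | h3
      · exact h2 h3 ht
      · exact hne h3
    refine ⟨-s / t, ?_⟩
    have ht' : (t : ℂ) ≠ 0 := by exact_mod_cast ht
    rw [Complex.real_smul, Complex.real_smul] at hst
    push_cast
    field_simp
    linear_combination hst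
  let G : AddSubgroup ℝ := Λ.comap
    { toFun := fun t : ℝ => (t : ℂ) * ω₀
      map_zero' := by simp
      map_add' := by intro s t; push_cast; ring }
  have hG : ∀ t : ℝ, t ∈ G ↔ (t : ℂ) * ω₀ ∈ Λ := fun t => Iff.rfl
  have hn0 : 0 < ‖ω₀‖ := norm_pos_iff.2 hne
  obtain ⟨c, hc⟩ := AddSubgroup.cyclic_of_isolated_zero (H := G) (a := ε / ‖ω₀‖) (by positivity) (by
    rw [Set.disjoint_left]
    rintro t ht ⟨ht1, ht2⟩
    have h1 := hd _ ((hG t).1 ht) (mul_ne_zero (by exact_mod_cast ht1.ne') hne)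
    rw [norm_mul, Complex.norm_real, Real.norm_eq_abs, abs_of_pos ht1] at h1
    rw [lt_div_iff₀ hn0] at ht2
    linarith)
  have hcG : c ∈ G := by rw [hc]; exact AddSubgroup.subset_closure rfl
  refine ⟨c * ω₀, (hG c).1 hcG, fun ω hω => ?_⟩
  obtain ⟨t, rfl⟩ := hreal ω hω
  have h1 : t ∈ G := (hG t).2 hω
  rw [hc, AddSubgroup.mem_closure_singleton] at h1
  obtain ⟨n, hn⟩ := h1
  refine ⟨n, ?_⟩
  rw [← hn, zsmul_eq_mul]
  push_cast; ring

theorem discrete_of_zero (f : Ent) (f0 : f ≠ 0) (z₀ : ℂ) (hz : (f : ℂ → ℂ) z₀ = 0) :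
    ∃ ε : ℝ, 0 < ε ∧ ∀ ω : ℂ, (f : ℂ → ℂ) (z₀ + ω) = 0 → ω ≠ 0 → ε ≤ ‖ω‖ := by
  rcases ((ent_diff f).analyticAt z₀).eventually_eq_zero_or_eventually_ne_zero with h1 | h1
  · exact absurd (show f = 0 by ext x; exact entire_zero (ent_diff f) h1 x) f0
  · rw [eventually_nhdsWithin_iff, Metric.eventually_nhds_iff] at h1
    obtain ⟨ε, hε, h2⟩ := h1
    refine ⟨ε, hε, fun ω hω hne => ?_⟩
    by_contra hlt
    push Not at hlt
    exact h2 (y := z₀ + ω) (by simpa [dist_eq_norm] using hlt) (by simpa using hne) hω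

theorem finite_reps (f : ℂ → ℂ) (ω : ℂ) (d : ℕ)
    (hd : ∀ x : Fin (d + 1) → ℂ, Function.Injective x → (∀ i, f (x i) = 0) →
      ∃ i j, i ≠ j ∧ ∃ n : ℤ, x i - x j = n * ω) :
    ∃ C : Finset ℂ, ∀ z, f z = 0 → ∃ c ∈ C, ∃ m : ℤ, z = c + m * ω := by
  classical
  by_contra hcon
  push Not at hcon
  have hinc : ∀ n : ℕ, ∃ s : Finset ℂ, s.card = n ∧ (∀ z ∈ s, f z = 0) ∧
      ∀ z ∈ s, ∀ w ∈ s, z ≠ w → ¬ ∃ m : ℤ, z - w = m * ω := by
    intro n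
    induction n with
    | zero => exact ⟨∅, by simp⟩
    | succ n ih =>
      obtain ⟨s, hs, hs0, hs1⟩ := ih
      obtain ⟨z, hz0, hz⟩ := hcon s
      have hzs : z ∉ s := by
        intro h1
        exact hz z h1 0 (by simp)
      refine ⟨insert z s, by rw [Finset.card_insert_of_notMem hzs, hs], ?_, ?_⟩
      · intro w hw
        rcases Finset.mem_insert.1 hw with rfl | hw
        · exact hz0
        · exact hs0 w hw
      · intro u hu w hw huw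
        rcases Finset.mem_insert.1 hu with rfl | hu'
        · rcases Finset.mem_insert.1 hw with rfl | hw'
          · exact absurd rfl huw
          · rintro ⟨m, hm⟩
            exact hz w hw' m (by linear_combination hm)
        · rcases Finset.mem_insert.1 hw with rfl | hw'
          · rintro ⟨m, hm⟩
            exact hz u hu' (-m) (by push_cast; linear_combination -hm)
          · exact hs1 u hu' w hw' huw
  obtain ⟨s, hs, hs0, hs1⟩ := hinc (d + 1)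
  obtain ⟨i, j, hij, n, hn⟩ := hd (fun i => ((s.equivFinOfCardEq hs).symm i : ℂ))
    (Subtype.val_injective.comp (s.equivFinOfCardEq hs).symm.injective)
    (fun i => hs0 _ ((s.equivFinOfCardEq hs).symm i).2)
  refine hs1 _ ((s.equivFinOfCardEq hs).symm i).2 _ ((s.equivFinOfCardEq hs).symm j).2 ?_ ⟨n, hn⟩
  intro h1
  exact hij ((s.equivFinOfCardEq hs).symm.injective (Subtype.ext h1))

theorem forward2 (h b : Ent) (h0 : h ≠ 0) (b0 : b ≠ 0) (ho : OrderTwo h) (bo : OrderTwo b)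
    (N : ℕ) (f : Fin N → Ent) (g : Fin N → ℂ → ℂ)
    (heq : ∀ x y, (h : ℂ → ℂ) (x - y) * (b : ℂ → ℂ) (x + y) = ∑ j, (f j : ℂ → ℂ) x * g j y)
    (hrel : ∀ i j k, ∃ P : MvPolynomial (Fin 3) ℂ, P ≠ 0 ∧ (∃ m, P.IsHomogeneous m) ∧
      ∀ x, MvPolynomial.eval ![(f i : ℂ → ℂ) x, (f j : ℂ → ℂ) x, (f k : ℂ → ℂ) x] P = 0) :
    RationalPair h b ∨ TrigPair h b ∨ ThetaPair h b := by
  have hfd : FiniteDimensional ℂ (Submodule.span ℂ (Set.range f)) :=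
    FiniteDimensional.span_of_finite ℂ (Set.finite_range f)
  have hV := G0_mem h b f g heq
  have hzf : (∀ z, (h : ℂ → ℂ) z ≠ 0 ∧ (b : ℂ → ℂ) z ≠ 0) → RationalPair h b := by
    intro hz
    obtain ⟨α₁, β₁, γ₁, h1⟩ := gauss (ent_diff h) (fun z => (hz z).1) ho
    obtain ⟨α₂, β₂, γ₂, h2⟩ := gauss (ent_diff b) (fun z => (hz z).2) bo
    have hα := alpha_eq_poly 1 1 one_ne_zero one_ne_zero α₁ β₁ γ₁ α₂ β₂ γ₂ h b
      (by simpa using h1) (by simpa using h2) h0 b0 _ hV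
    subst hα
    refine ⟨α₁, β₁, β₂, C (Complex.exp γ₁), C (Complex.exp γ₂), fun z => ⟨?_, ?_⟩⟩
    · rw [h1, eval_C, Complex.exp_add]
    · rw [h2, eval_C, Complex.exp_add]
  rcases forward1 h b h0 b0 N f g heq hrel with hz | ⟨d, hd⟩
  · left; exact hzf hz
  by_cases hz : ∀ z, (h : ℂ → ℂ) z ≠ 0 ∧ (b : ℂ → ℂ) z ≠ 0
  · left; exact hzf hz
  have hdisc : ∃ ε : ℝ, 0 < ε ∧ ∀ ω ∈ QPgroup h b, ω ≠ 0 → ε ≤ ‖ω‖ := by
    have hz' : (∃ z, (h : ℂ → ℂ) z = 0) ∨ (∃ z, (b : ℂ → ℂ) z = 0) := by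
      by_contra hcon
      push Not at hcon
      exact hz fun z => ⟨hcon.1 z, hcon.2 z⟩
    rcases hz' with ⟨z₀, hz₀⟩ | ⟨z₀, hz₀⟩
    · obtain ⟨ε, hε, h1⟩ := discrete_of_zero h h0 z₀ hz₀
      refine ⟨ε, hε, fun ω hω hne => h1 ω ?_ hne⟩
      obtain ⟨A, B, A', B', h2⟩ := hω
      rw [(h2 z₀).1, hz₀, mul_zero]
    · obtain ⟨ε, hε, h1⟩ := discrete_of_zero b b0 z₀ hz₀
      refine ⟨ε, hε, fun ω hω hne => h1 ω ?_ hne⟩
      obtain ⟨A, B, A', B', h2⟩ := hω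
      rw [(h2 z₀).2, hz₀, mul_zero]
  obtain ⟨ε, hε, hdisc⟩ := hdisc
  rcases classify (QPgroup h b) ε hε hdisc with ⟨ω₁, hω₁, ω₂, hω₂, hli⟩ | ⟨ω, hω, hgen⟩
  · right; right
    obtain ⟨A, B, A', B', h1⟩ := hω₁
    obtain ⟨C, D, C', D', h2⟩ := hω₂
    have e1 : A = A' := eig h b h0 b0 _ hV ω₁ A B A' B' (fun z => (h1 z).1) (fun z => (h1 z).2)
    have e2 : C = C' := eig h b h0 b0 _ hV ω₂ C D C' D' (fun z => (h2 z).1) (fun z => (h2 z).2)
    subst e1 e2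
    exact ⟨ω₁, ω₂, A, C, B, D, B', D', hli, fun z => ⟨(h1 z).1, (h2 z).1, (h1 z).2, (h2 z).2⟩⟩
  · obtain ⟨A, B, A', B', h1⟩ := hω
    have hA : A = A' := eig h b h0 b0 _ hV ω A B A' B' (fun z => (h1 z).1) (fun z => (h1 z).2)
    obtain ⟨Ch, hCh⟩ := finite_reps h ω d (fun x hx hx0 => by
      obtain ⟨i, j, hij, h2⟩ := hd x hx (Or.inl hx0)
      exact ⟨i, j, hij, hgen _ h2⟩)
    obtain ⟨Cb, hCb⟩ := finite_reps b ω d (fun x hx hx0 => by
      obtain ⟨i, j, hij, h2⟩ := hd x hx (Or.inr hx0)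
      exact ⟨i, j, hij, hgen _ h2⟩)
    have hfac : ∀ E : ℂ → ℂ, Unif ω E → ∃ (P Q : ℂ[X]) (α₁ β₁ γ₁ α₂ β₂ γ₂ : ℂ), ∀ z,
        (h : ℂ → ℂ) z = P.eval (E z) * Complex.exp (α₁ * z ^ 2 + β₁ * z + γ₁) ∧
        (b : ℂ → ℂ) z = Q.eval (E z) * Complex.exp (α₂ * z ^ 2 + β₂ * z + γ₂) := by
      intro E hE
      obtain ⟨P, k, hk, hk0, hko, hkP⟩ := factor hE Ch _ h (ent_diff h) (ent_ne_zero h0) ho
        ⟨A, B, fun z => (h1 z).1⟩ hCh le_rfl
      obtain ⟨Q, k', hk', hk0', hko', hkQ⟩ := factor hE Cb _ b (ent_diff b) (ent_ne_zero b0) bo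
        ⟨A', B', fun z => (h1 z).2⟩ hCb le_rfl
      obtain ⟨α₁, β₁, γ₁, h3⟩ := gauss hk hk0 hko
      obtain ⟨α₂, β₂, γ₂, h4⟩ := gauss hk' hk0' hko'
      exact ⟨P, Q, α₁, β₁, γ₁, α₂, β₂, γ₂, fun z => ⟨by rw [hkP, h3], by rw [hkQ, h4]⟩⟩
    by_cases hω0 : ω = 0
    · left
      subst hω0
      obtain ⟨P, Q, α₁, β₁, γ₁, α₂, β₂, γ₂, h3⟩ := hfac _ unif_id
      have hP : P ≠ 0 := by
        rintro rfl
        apply h0; ext x; rw [(h3 x).1]; simp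
      have hQ : Q ≠ 0 := by
        rintro rfl
        apply b0; ext x; rw [(h3 x).2]; simp
      have hα := alpha_eq_poly P Q hP hQ α₁ β₁ γ₁ α₂ β₂ γ₂ h b (fun z => (h3 z).1)
        (fun z => (h3 z).2) h0 b0 _ hV
      subst hα
      refine ⟨α₁, β₁, β₂, P * C (Complex.exp γ₁), Q * C (Complex.exp γ₂), fun z => ⟨?_, ?_⟩⟩
      · rw [(h3 z).1, eval_mul, eval_C, Complex.exp_add]; ring
      · rw [(h3 z).2, eval_mul, eval_C, Complex.exp_add]; ring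
    · right; left
      obtain ⟨P, Q, α₁, β₁, γ₁, α₂, β₂, γ₂, h3⟩ := hfac _ (unif_exp hω0)
      have hper := (unif_exp hω0).per
      have hα' : 2 * α₁ * ω = 2 * α₂ * ω := by
        apply eig h b h0 b0 _ hV ω (2 * α₁ * ω) (α₁ * ω ^ 2 + β₁ * ω) (2 * α₂ * ω)
          (α₂ * ω ^ 2 + β₂ * ω)
        · intro z
          have e1 := (hper (z + ω) z).2 ⟨1, by simp⟩
          rw [(h3 _).1, (h3 z).1, e1]
          rw [show α₁ * (z + ω) ^ 2 + β₁ * (z + ω) + γ₁ = (2 * α₁ * ω * z + (α₁ * ω ^ 2 + β₁ * ω)) +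
            (α₁ * z ^ 2 + β₁ * z + γ₁) by ring, Complex.exp_add]
          ring
        · intro z
          have e1 := (hper (z + ω) z).2 ⟨1, by simp⟩
          rw [(h3 _).2, (h3 z).2, e1]
          rw [show α₂ * (z + ω) ^ 2 + β₂ * (z + ω) + γ₂ = (2 * α₂ * ω * z + (α₂ * ω ^ 2 + β₂ * ω)) +
            (α₂ * z ^ 2 + β₂ * z + γ₂) by ring, Complex.exp_add]
          ring
      have hα : α₁ = α₂ := by
        have := mul_right_cancel₀ hω0 hα'
        exact mul_left_cancel₀ two_ne_zero this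
      subst hα
      refine ⟨α₁, β₁, β₂, 2 * Real.pi * Complex.I / ω, P * C (Complex.exp γ₁),
        Q * C (Complex.exp γ₂), fun z => ⟨?_, ?_⟩⟩
      · rw [(h3 z).1, eval_mul, eval_C, Complex.exp_add]; ring
      · rw [(h3 z).2, eval_mul, eval_C, Complex.exp_add]; ring

end Pool.Agent.Lib.MP_db21fa_an.H28
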