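import Mathlib

set_option autoImplicit false

namespace Pool.Agent.Lib.MP_db21fa_an.H28

open MvPolynomial

section

theorem aeval_scale {k K : Type*} [CommRing k] [CommRing K] [Algebra k K] {n : ℕ}
    (P : MvPolynomial (Fin n) k) (m : ℕ) (hm : P.IsHomogeneous m) (c : K) (v : Fin n → K) :
    aeval (fun i => c * v i) P = c ^ m * aeval v P := by
  rw [aeval_def, aeval_def, eval₂_eq', eval₂_eq', Finset.mul_sum]
  apply Finset.sum_congr rfl
  intro d hd
  have h1 : ∑ i, d i = m := by
    have h2 := hm (mem_support_iff.1 hd)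
    rw [← h2, Finsupp.weight_apply, Finsupp.sum_fintype _ _ (by simp)]
    simp
  have h3 : ∏ i, (c * v i) ^ d i = c ^ m * ∏ i, v i ^ d i := by
    rw [← h1, ← Finset.prod_pow_eq_pow_sum, ← Finset.prod_mul_distrib]
    apply Finset.prod_congr rfl
    intro i _
    rw [mul_pow]
  rw [h3]; ring

variable {k K : Type*} [Field k] [Field K] [Algebra k K]

theorem alg_of_rel [Infinite k] {f0 x y : K} (hf0 : f0 ≠ 0) (P : MvPolynomial (Fin 3) k)
    (hP : P ≠ 0) (m : ℕ) (hm : P.IsHomogeneous m) (h : aeval ![f0, x, y] P = 0)
    (ht : Transcendental k (x / f0)) : IsAlgebraic (Algebra.adjoin k {x / f0}) (y / f0) := by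
  by_contra hna
  have hx : AlgebraicIndependent k (fun _ : Unit => x / f0) :=
    algebraicIndependent_unique_type_iff.2 ht
  have hai := (hx.option_iff_transcendental (y / f0)).2 (by
    rw [Set.range_const]; exact hna)
  set p : MvPolynomial (Option Unit) k :=
    aeval (![1, X (some ()), X none] : Fin 3 → MvPolynomial (Option Unit) k) P with hp
  have h0 : aeval (fun o : Option Unit => o.elim (y / f0) (fun _ => x / f0)) p = 0 := by
    rw [hp, ← AlgHom.comp_apply, comp_aeval]
    have h1 : (fun i => (aeval (fun o : Option Unit => o.elim (y / f0) (fun _ => x / f0)))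
        ((![1, X (some ()), X none] : Fin 3 → MvPolynomial (Option Unit) k) i)) =
        fun i => f0⁻¹ * (![f0, x, y] : Fin 3 → K) i := by
      funext i
      fin_cases i
      · simp [hf0]
      · simp [div_eq_mul_inv, mul_comm]
      · simp [div_eq_mul_inv, mul_comm]
    rw [h1, aeval_scale P m hm, h, mul_zero]
  have hp0 : p = 0 := hai.eq_zero_of_aeval_eq_zero p h0
  apply hP
  have h4 : P * X 0 = 0 := by
    apply MvPolynomial.funext
    intro v
    rw [map_mul, eval_X, map_zero]
    by_cases hv : v 0 = 0
    · rw [hv, mul_zero]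
    · have h5 : aeval (fun o : Option Unit => o.elim (v 2 / v 0) (fun _ => v 1 / v 0)) p
          = (0 : k) := by
        rw [hp0, map_zero]
      rw [hp, ← AlgHom.comp_apply, comp_aeval] at h5
      have h1 : (fun i => (aeval (fun o : Option Unit => o.elim (v 2 / v 0) (fun _ => v 1 / v 0)))
        ((![1, X (some ()), X none] : Fin 3 → MvPolynomial (Option Unit) k) i)) =
        fun i => (v 0)⁻¹ * v i := by
        funext i
        fin_cases i
        · simp [hv]
        · have h9 : v 1 / v 0 = (v 0)⁻¹ * v 1 := by rw [div_eq_mul_inv, mul_comm]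
          simpa using h9
        · simp [div_eq_mul_inv, mul_comm]
      rw [h1, aeval_scale P m hm] at h5
      have h6 : aeval v P = 0 := by
        rcases mul_eq_zero.1 h5 with h7 | h7
        · exact absurd h7 (pow_ne_zero _ (inv_ne_zero hv))
        · exact h7
      have h8 : eval v P = 0 := by
        rw [← h6, aeval_def]; rfl
      rw [h8, zero_mul]
  exact (mul_eq_zero.1 h4).resolve_right (X_ne_zero 0)

end

end Pool.Agent.Lib.MP_db21fa_an.H28
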