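import Pool.Agent.Lib.MP_db21fa_an.H28.Pole

set_option autoImplicit false

open Filter Topology Polynomial IntermediateField

namespace Pool.Agent.Lib.MP_db21fa_an.H28

section

variable {K : Type*} [Field K] [Algebra Ent K] [Algebra ℂ K] [IsScalarTower ℂ Ent K]
  [IsFractionRing Ent K]

theorem NU_swap (f : Ent) (a x : ℂ) : (NU f a : ℂ → ℂ) x = (NU f x : ℂ → ℂ) a := by
  show (dE (dE f) : ℂ → ℂ) (x + a) * (f : ℂ → ℂ) (x + a) - (dE f : ℂ → ℂ) (x + a) ^ 2 =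
    (dE (dE f) : ℂ → ℂ) (a + x) * (f : ℂ → ℂ) (a + x) - (dE f : ℂ → ℂ) (a + x) ^ 2
  rw [add_comm]

theorem QU_swap (f : Ent) (a x : ℂ) : (QU f a : ℂ → ℂ) x = (QU f x : ℂ → ℂ) a := by
  show (f : ℂ → ℂ) (x + a) ^ 2 = (f : ℂ → ℂ) (a + x) ^ 2
  rw [add_comm]

theorem QU_ne {f : Ent} (f0 : f ≠ 0) (a : ℂ) : QU f a ≠ 0 := pow_ne_zero _ (sh_ne_zero f0 a)

theorem UU_eq_iff (f : Ent) (f0 : f ≠ 0) (a c : ℂ) :
    UU K f a = UU K f c ↔ NU f a * QU f c - NU f c * QU f a = 0 := by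
  rw [UU_eq, UU_eq, div_eq_div_iff (map_ne (QU_ne f0 a)) (map_ne (QU_ne f0 c)), sub_eq_zero,
    ← map_mul, ← map_mul]
  exact (IsFractionRing.injective Ent K).eq_iff

theorem exists_pair (h b f : Ent) (h0 : h ≠ 0) (b0 : b ≠ 0) (f0 : f ≠ 0) (S' : Set K)
    (hfin : S'.Finite)
    (hmem : ∀ y, UU K h y ∈ IntermediateField.adjoin ℂ S' ∧
        UU K b y ∈ IntermediateField.adjoin ℂ S')
    (hf : UU K f 0 ∈ IntermediateField.adjoin ℂ S')
    (halg : ∀ φ ∈ IntermediateField.adjoin ℂ S', Transcendental ℂ φ →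
        ∀ s ∈ S', IsAlgebraic ℂ⟮φ⟯ s) :
    ∃ d : ℕ, ∀ x : Fin (d + 1) → ℂ, Function.Injective x → (∀ i, (f : ℂ → ℂ) (x i) = 0) →
      ∃ i j, i ≠ j ∧ UU K h (x i) = UU K h (x j) ∧ UU K b (x i) = UU K b (x j) := by
  classical
  by_cases hz : ∃ z, (f : ℂ → ℂ) z = 0
  swap
  · push Not at hz
    exact ⟨0, fun x _ hx => absurd (hx 0) (hz _)⟩
  obtain ⟨z, hz⟩ := hz
  have htr := transc_UU (K := K) f f0 z hz
  obtain ⟨d, hd⟩ := exists_rel (UU K f 0) S' hfin (halg _ hf htr)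
  refine ⟨d, fun x hinj hx => ?_⟩
  by_contra hcon
  push Not at hcon
  set Eh : Fin (d + 1) → Fin (d + 1) → Ent := fun i j =>
    NU h (x i) * QU h (x j) - NU h (x j) * QU h (x i) with hEh
  set Eb : Fin (d + 1) → Fin (d + 1) → Ent := fun i j =>
    NU b (x i) * QU b (x j) - NU b (x j) * QU b (x i) with hEb
  set e : Fin (d + 1) → Fin (d + 1) → Ent := fun i j =>
    if Eh i j ≠ 0 then Eh i j else Eb i j with he
  have he0 : ∀ i j, i ≠ j → e i j ≠ 0 := by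
    intro i j hij
    by_cases h1 : Eh i j ≠ 0
    · simp only [he, if_pos h1]; exact h1
    · simp only [he, if_neg h1]
      push Not at h1
      intro h2
      exact hcon i j hij ((UU_eq_iff h h0 _ _).2 h1) ((UU_eq_iff b b0 _ _).2 h2)
  have hprod : (∏ p ∈ (Finset.univ : Finset (Fin (d + 1) × Fin (d + 1))).filter
      (fun p => p.1 ≠ p.2), e p.1 p.2) * ∏ i, (sh h (x i) * sh b (x i)) ≠ 0 := by
    apply mul_ne_zero
    · rw [Finset.prod_ne_zero_iff]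
      intro p hp
      exact he0 _ _ (Finset.mem_filter.1 hp).2
    · rw [Finset.prod_ne_zero_iff]
      intro i _
      exact mul_ne_zero (sh_ne_zero h0 _) (sh_ne_zero b0 _)
  obtain ⟨a, ha⟩ := ent_ne_zero hprod
  have ha' : evAt a ((∏ p ∈ (Finset.univ : Finset (Fin (d + 1) × Fin (d + 1))).filter
      (fun p => p.1 ≠ p.2), e p.1 p.2) * ∏ i, (sh h (x i) * sh b (x i))) ≠ 0 := ha
  rw [map_mul, map_prod, map_prod] at ha'
  have ha1 := Finset.prod_ne_zero_iff.1 (left_ne_zero_of_mul ha')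
  have ha2 := Finset.prod_ne_zero_iff.1 (right_ne_zero_of_mul ha')
  have hha : ∀ i, (QU h (x i) : ℂ → ℂ) a ≠ 0 := by
    intro i
    have := ha2 i (Finset.mem_univ i)
    rw [map_mul] at this
    exact pow_ne_zero 2 (left_ne_zero_of_mul this)
  have hba : ∀ i, (QU b (x i) : ℂ → ℂ) a ≠ 0 := by
    intro i
    have := ha2 i (Finset.mem_univ i)
    rw [map_mul] at this
    exact pow_ne_zero 2 (right_ne_zero_of_mul this)
  have hpair : ∀ t : ℂ, ∃ p : Fin (d + 1) × Fin (d + 1), p.1 ≠ p.2 ∧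
      (NU h (x p.1) : ℂ → ℂ) a / (QU h (x p.1) : ℂ → ℂ) a +
        t * ((NU b (x p.1) : ℂ → ℂ) a / (QU b (x p.1) : ℂ → ℂ) a) =
      (NU h (x p.2) : ℂ → ℂ) a / (QU h (x p.2) : ℂ → ℂ) a +
        t * ((NU b (x p.2) : ℂ → ℂ) a / (QU b (x p.2) : ℂ → ℂ) a) := by
    intro t
    set ψ : K := UU K h a + algebraMap ℂ K t * UU K b a with hψ
    have hψm : ψ ∈ IntermediateField.adjoin ℂ S' :=
      add_mem (hmem a).1 (mul_mem (IntermediateField.algebraMap_mem _ t) (hmem a).2)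
    obtain ⟨P, hP, hrel⟩ := hd ψ hψm
    obtain ⟨c, hc0, hcd, hc⟩ := value_at_pole f f0 ψ d P hP hrel
    set A : Ent := NU h a * QU b a + algebraMap ℂ Ent t * (NU b a * QU h a) with hA
    set B : Ent := QU h a * QU b a with hB
    have hAB : algebraMap Ent K A / algebraMap Ent K B = ψ := by
      have n1 := map_ne (K := K) (QU_ne h0 a)
      have n2 := map_ne (K := K) (QU_ne b0 a)
      rw [hψ, UU_eq, UU_eq, hA, hB]
      simp only [map_mul, map_add, ← IsScalarTower.algebraMap_apply]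
      field_simp
    have hBx : ∀ i, (B : ℂ → ℂ) (x i) = (QU h (x i) : ℂ → ℂ) a * (QU b (x i) : ℂ → ℂ) a := by
      intro i
      rw [← QU_swap h a, ← QU_swap b a]; rfl
    have hAx : ∀ i, (A : ℂ → ℂ) (x i) = (NU h (x i) : ℂ → ℂ) a * (QU b (x i) : ℂ → ℂ) a +
        t * ((NU b (x i) : ℂ → ℂ) a * (QU h (x i) : ℂ → ℂ) a) := by
      intro i
      rw [← QU_swap h a, ← QU_swap b a, ← NU_swap h a, ← NU_swap b a]; rfl
    have hval : ∀ i, (A : ℂ → ℂ) (x i) / (B : ℂ → ℂ) (x i) =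
        (NU h (x i) : ℂ → ℂ) a / (QU h (x i) : ℂ → ℂ) a +
        t * ((NU b (x i) : ℂ → ℂ) a / (QU b (x i) : ℂ → ℂ) a) := by
      intro i
      rw [hAx, hBx]
      have := hha i
      have := hba i
      field_simp
    have hni : ¬ Function.Injective (fun i => (A : ℂ → ℂ) (x i) / (B : ℂ → ℂ) (x i)) := by
      intro hinj'
      apply hc0
      apply Polynomial.eq_zero_of_natDegree_lt_card_of_eval_eq_zero c hinj'
      · intro i
        apply hc (x i) (hx i) A B _ hAB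
        rw [hBx]
        exact mul_ne_zero (hha i) (hba i)
      · rw [Fintype.card_fin]; omega
    rw [Function.Injective] at hni
    push Not at hni
    obtain ⟨i, j, hij, hne⟩ := hni
    exact ⟨(i, j), hne, by rw [← hval i, ← hval j]; exact hij⟩
  choose p hp1 hp2 using hpair
  obtain ⟨t₁, t₂, ht, hpt⟩ := Finite.exists_ne_map_eq_of_infinite p
  have g1 := hp2 t₁
  have g2 := hp2 t₂
  rw [← hpt] at g2
  have hne := hp1 t₁
  set i := (p t₁).1
  set j := (p t₁).2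
  have hb' : (NU b (x i) : ℂ → ℂ) a / (QU b (x i) : ℂ → ℂ) a =
      (NU b (x j) : ℂ → ℂ) a / (QU b (x j) : ℂ → ℂ) a := by
    have h3 : (t₁ - t₂) * ((NU b (x i) : ℂ → ℂ) a / (QU b (x i) : ℂ → ℂ) a -
      (NU b (x j) : ℂ → ℂ) a / (QU b (x j) : ℂ → ℂ) a) = 0 := by
      linear_combination g1 - g2
    rcases mul_eq_zero.1 h3 with h4 | h4
    · exact absurd (sub_eq_zero.1 h4) ht
    · exact sub_eq_zero.1 h4
  have hh' : (NU h (x i) : ℂ → ℂ) a / (QU h (x i) : ℂ → ℂ) a =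
      (NU h (x j) : ℂ → ℂ) a / (QU h (x j) : ℂ → ℂ) a := by
    rw [hb'] at g1
    exact add_right_cancel g1
  rw [div_eq_div_iff (hba i) (hba j)] at hb'
  rw [div_eq_div_iff (hha i) (hha j)] at hh'
  have hei := ha1 (i, j) (Finset.mem_filter.2 ⟨Finset.mem_univ _, hne⟩)
  apply hei
  by_cases h1 : Eh i j ≠ 0
  · simp only [he, if_pos h1]
    show (NU h (x i) : ℂ → ℂ) a * (QU h (x j) : ℂ → ℂ) a -
      (NU h (x j) : ℂ → ℂ) a * (QU h (x i) : ℂ → ℂ) a = 0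
    rw [hh', sub_self]
  · simp only [he, if_neg h1]
    show (NU b (x i) : ℂ → ℂ) a * (QU b (x j) : ℂ → ℂ) a -
      (NU b (x j) : ℂ → ℂ) a * (QU b (x i) : ℂ → ℂ) a = 0
    rw [hb', sub_self]

end

/-- the common quasi-periods of `h` and `b` -/
def QP (h b : Ent) (ω : ℂ) : Prop :=
  ∃ A B A' B' : ℂ, ∀ z, (h : ℂ → ℂ) (z + ω) = Complex.exp (A * z + B) * (h : ℂ → ℂ) z ∧
    (b : ℂ → ℂ) (z + ω) = Complex.exp (A' * z + B') * (b : ℂ → ℂ) z

theorem forward1 (h b : Ent) (h0 : h ≠ 0) (b0 : b ≠ 0) (N : ℕ) (f : Fin N → Ent)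
    (g : Fin N → ℂ → ℂ)
    (heq : ∀ x y, (h : ℂ → ℂ) (x - y) * (b : ℂ → ℂ) (x + y) = ∑ j, (f j : ℂ → ℂ) x * g j y)
    (hrel : ∀ i j k, ∃ P : MvPolynomial (Fin 3) ℂ, P ≠ 0 ∧ (∃ m, P.IsHomogeneous m) ∧
      ∀ x, MvPolynomial.eval ![(f i : ℂ → ℂ) x, (f j : ℂ → ℂ) x, (f k : ℂ → ℂ) x] P = 0) :
    (∀ z, (h : ℂ → ℂ) z ≠ 0 ∧ (b : ℂ → ℂ) z ≠ 0) ∨
    (∃ d : ℕ, ∀ x : Fin (d + 1) → ℂ, Function.Injective x →
      ((∀ i, (h : ℂ → ℂ) (x i) = 0) ∨ (∀ i, (b : ℂ → ℂ) (x i) = 0)) →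
      ∃ i j, i ≠ j ∧ QP h b (x i - x j)) := by
  rcases core (K := FractionRing Ent) h b h0 b0 N f g heq hrel with ⟨W, hW⟩ | ⟨S', hfin, hmem, halg⟩
  · left
    intro z
    refine ⟨no_zero_of_alpha h b h0 b0 W hW z, no_zero_of_alpha b h b0 h0 W ?_ z⟩
    intro y
    obtain ⟨c, e, hce⟩ := hW (-y)
    refine ⟨-c, -e, ?_⟩
    have e1 : G0 b h y = G0 h b (-y) := by
      simp only [G0, neg_neg]; ring
    have e2 : G1 b h y = -G1 h b (-y) := by
      simp only [G1, neg_neg]; ring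
    rw [e1, e2, map_neg, neg_div, hce, map_neg, map_neg]; ring
  · right
    obtain ⟨d₁, hd₁⟩ := exists_pair h b h h0 b0 h0 S' hfin hmem (hmem 0).1 halg
    obtain ⟨d₂, hd₂⟩ := exists_pair h b b h0 b0 b0 S' hfin hmem (hmem 0).2 halg
    have hq : ∀ a c : ℂ, UU (FractionRing Ent) h a = UU (FractionRing Ent) h c →
        UU (FractionRing Ent) b a = UU (FractionRing Ent) b c → QP h b (a - c) := by
      intro a c h1 h2
      obtain ⟨A, B, hAB⟩ := quasi h h0 a c h1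
      obtain ⟨A', B', hAB'⟩ := quasi b b0 a c h2
      refine ⟨A, B - A * c, A', B' - A' * c, fun z => ⟨?_, ?_⟩⟩
      · have := hAB (z - c)
        rw [show z - c + a = z + (a - c) by ring, show z - c + c = z by ring] at this
        rw [this]
        congr 2; ring
      · have := hAB' (z - c)
        rw [show z - c + a = z + (a - c) by ring, show z - c + c = z by ring] at this
        rw [this]
        congr 2; ring
    refine ⟨max d₁ d₂, fun x hinj hx => ?_⟩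
    rcases hx with hx | hx
    · have hle : d₁ + 1 ≤ max d₁ d₂ + 1 := Nat.succ_le_succ (le_max_left d₁ d₂)
      obtain ⟨i, j, hij, h1, h2⟩ := hd₁
        (fun i => x (Fin.castLE hle i)) (hinj.comp (Fin.castLE_injective hle))
        (fun i => hx _)
      exact ⟨_, _, fun hc => hij (Fin.castLE_injective hle hc), hq _ _ h1 h2⟩
    · have hle : d₂ + 1 ≤ max d₁ d₂ + 1 := Nat.succ_le_succ (le_max_right d₁ d₂)
      obtain ⟨i, j, hij, h1, h2⟩ := hd₂
        (fun i => x (Fin.castLE hle i)) (hinj.comp (Fin.castLE_injective hle))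
        (fun i => hx _)
      exact ⟨_, _, fun hc => hij (Fin.castLE_injective hle hc), hq _ _ h1 h2⟩

end Pool.Agent.Lib.MP_db21fa_an.H28
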