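import Mathlib

set_option autoImplicit false

namespace Pool.Agent.Lib.MP_db21fa_an.H28

open Polynomial IntermediateField
open scoped IntermediateField.algebraAdjoinAdjoin

section

variable {k K : Type*} [Field k] [Field K] [Algebra k K]

theorem exists_rel (φ : K) (S : Set K) (hS : S.Finite) (hal : ∀ s ∈ S, IsAlgebraic k⟮φ⟯ s) :
    ∃ d : ℕ, ∀ ψ ∈ IntermediateField.adjoin k S, ∃ P : ℕ → k[X], (∃ i ≤ d, P i ≠ 0) ∧
      ∑ i ∈ Finset.range (d + 1), aeval φ (P i) * ψ ^ i = 0 := by
  have : Finite S := hS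
  have hfd : FiniteDimensional k⟮φ⟯ (IntermediateField.adjoin k⟮φ⟯ S) :=
    finiteDimensional_adjoin (fun s hs => (hal s hs).isIntegral)
  refine ⟨Module.finrank k⟮φ⟯ (IntermediateField.adjoin k⟮φ⟯ S), fun ψ hψ => ?_⟩
  set d := Module.finrank k⟮φ⟯ (IntermediateField.adjoin k⟮φ⟯ S) with hd
  have hψ' : ψ ∈ IntermediateField.adjoin k⟮φ⟯ S := by
    have h1 : IntermediateField.adjoin k S ≤
        (IntermediateField.adjoin k⟮φ⟯ S).restrictScalars k := by
      rw [IntermediateField.adjoin_le_iff]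
      intro s hs
      exact IntermediateField.subset_adjoin _ _ hs
    exact h1 hψ
  have hdep : ¬ LinearIndependent k⟮φ⟯ (fun i : Fin (d + 1) => ψ ^ (i : ℕ)) := by
    intro hli
    have h2 : LinearIndependent k⟮φ⟯
        (fun i : Fin (d + 1) => (⟨ψ, hψ'⟩ : IntermediateField.adjoin k⟮φ⟯ S) ^ (i : ℕ)) := by
      apply LinearIndependent.of_comp (IntermediateField.adjoin k⟮φ⟯ S).val.toLinearMap
      exact hli
    have h3 := h2.fintype_card_le_finrank
    rw [Fintype.card_fin] at h3
    omega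
  rw [← LinearIndependent.iff_fractionRing (R := Algebra.adjoin k {φ}) (K := k⟮φ⟯),
    Fintype.not_linearIndependent_iff] at hdep
  obtain ⟨g, hg, i0, hi0⟩ := hdep
  have hpol : ∀ a : Algebra.adjoin k {φ}, ∃ p : k[X], aeval φ p = (a : K) := by
    rintro ⟨a, ha⟩
    rw [Algebra.adjoin_singleton_eq_range_aeval] at ha
    exact ha
  choose p hp using hpol
  refine ⟨fun i => if h : i < d + 1 then p (g ⟨i, h⟩) else 0, ⟨i0, by omega, ?_⟩, ?_⟩
  · simp only [i0.2, dif_pos]
    intro h0
    apply hi0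
    have := hp (g i0)
    simp only [Fin.eta] at h0
    rw [h0, map_zero] at this
    exact Subtype.ext this.symm
  · rw [Finset.sum_range, ← hg]
    apply Finset.sum_congr rfl
    intro i _
    simp only [i.2, dif_pos, Fin.eta, hp]
    rfl

end

end Pool.Agent.Lib.MP_db21fa_an.H28
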