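import Pool.Agent.Lib.MP_db21fa_an.H28.Alpha
import Pool.Agent.Lib.MP_db21fa_an.H28.Eval
import Pool.Agent.Lib.MP_db21fa_an.H28.Rel

set_option autoImplicit false

open Filter Topology Polynomial

namespace Pool.Agent.Lib.MP_db21fa_an.H28

theorem pole_lemma {f : ℂ → ℂ} (hf : Differentiable ℂ f) (hne : ∃ z, f z ≠ 0) (x₀ : ℂ)
    (hx : f x₀ = 0) :
    Tendsto (fun x => (f x) ^ 2 / (deriv (deriv f) x * f x - (deriv f x) ^ 2)) (𝓝[≠] x₀) (𝓝 0) ∧
    ∀ᶠ x in 𝓝[≠] x₀, f x ≠ 0 ∧ (deriv (deriv f) x * f x - (deriv f x) ^ 2) ≠ 0 := by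
  have hfa := hf.analyticAt x₀
  have htop : analyticOrderAt f x₀ ≠ ⊤ := by
    intro h
    rw [analyticOrderAt_eq_top] at h
    obtain ⟨z, hz⟩ := hne
    exact hz (entire_zero hf h z)
  obtain ⟨k, hk, hk0, hfk⟩ := hfa.analyticOrderAt_ne_top.1 htop
  obtain ⟨p, hp⟩ : ∃ p, analyticOrderNatAt f x₀ = p + 1 := by
    apply Nat.exists_eq_succ_of_ne_zero
    intro h0
    have := hfk.self_of_nhds
    rw [h0, hx] at this
    simp only [pow_zero, one_smul] at this
    exact hk0 this.symm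
  rw [hp] at hfk
  have hkev := hk.eventually_analyticAt
  have e0 : f =ᶠ[𝓝 x₀] fun z => (z - x₀) ^ (p + 1) * k z := hfk
  have e1 : deriv f =ᶠ[𝓝 x₀] fun z => (p + 1) * (z - x₀) ^ p * k z +
      (z - x₀) ^ (p + 1) * deriv k z := by
    filter_upwards [e0.eventuallyEq_nhds.and (e0.deriv.and hkev)] with z hz
    rw [hz.2.1]
    have h1 : HasDerivAt (fun z => (z - x₀) ^ (p + 1)) (((p + 1 : ℕ) : ℂ) * (z - x₀) ^ p * 1) z := by
      exact ((hasDerivAt_id z).sub_const x₀).pow (p + 1)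
    have h2 := h1.mul hz.2.2.differentiableAt.hasDerivAt
    have h3 := h2.deriv
    refine Eq.trans h3 ?_
    push_cast; ring
  have e2 : deriv (deriv f) =ᶠ[𝓝 x₀] fun z => (p + 1) * (p * (z - x₀) ^ (p - 1) * k z +
      (z - x₀) ^ p * deriv k z) + ((p + 1) * (z - x₀) ^ p * deriv k z +
      (z - x₀) ^ (p + 1) * deriv (deriv k) z) := by
    filter_upwards [e1.deriv.and hkev] with z hz
    rw [hz.1]
    have h1 : HasDerivAt (fun z => (z - x₀) ^ (p + 1)) (((p + 1 : ℕ) : ℂ) * (z - x₀) ^ p * 1) z := by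
      exact ((hasDerivAt_id z).sub_const x₀).pow (p + 1)
    have h2 : HasDerivAt (fun z => (z - x₀) ^ p) ((p : ℂ) * (z - x₀) ^ (p - 1) * 1) z := by
      exact ((hasDerivAt_id z).sub_const x₀).pow p
    have h3 := ((h2.const_mul ((p : ℂ) + 1)).mul hz.2.differentiableAt.hasDerivAt).add
      (h1.mul hz.2.deriv.differentiableAt.hasDerivAt)
    refine Eq.trans h3.deriv ?_
    push_cast; ring
  set n : ℂ → ℂ := fun z => ((p + 1) * p * k z + 2 * (p + 1) * (z - x₀) * deriv k z +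
    (z - x₀) ^ 2 * deriv (deriv k) z) * k z - ((p + 1) * k z + (z - x₀) * deriv k z) ^ 2 with hn
  have hcn : ContinuousAt n x₀ := by
    have c1 : ContinuousAt k x₀ := hk.continuousAt
    have c2 : ContinuousAt (deriv k) x₀ := hk.deriv.continuousAt
    have c3 : ContinuousAt (deriv (deriv k)) x₀ := hk.deriv.deriv.continuousAt
    have c4 : ContinuousAt (fun z : ℂ => z - x₀) x₀ := by fun_prop
    exact (((((continuousAt_const.mul c1).add ((continuousAt_const.mul c4).mul c2)).add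
      ((c4.pow 2).mul c3)).mul c1).sub (((continuousAt_const.mul c1).add (c4.mul c2)).pow 2))
  have hn0 : n x₀ ≠ 0 := by
    have : n x₀ = -((p : ℂ) + 1) * k x₀ ^ 2 := by
      simp only [hn, sub_self]; ring
    rw [this]
    have hp1 : (p : ℂ) + 1 ≠ 0 := by exact_mod_cast Nat.succ_ne_zero p
    exact mul_ne_zero (neg_ne_zero.2 hp1) (pow_ne_zero _ hk0)
  have key : ∀ᶠ x in 𝓝[≠] x₀, f x ≠ 0 ∧ (deriv (deriv f) x * f x - (deriv f x) ^ 2) ≠ 0 ∧
      (f x) ^ 2 / (deriv (deriv f) x * f x - (deriv f x) ^ 2) =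
        (x - x₀) ^ 2 * k x ^ 2 / n x := by
    have a0 := e0.filter_mono (nhdsWithin_le_nhds (s := {x₀}ᶜ))
    have a1 := e1.filter_mono (nhdsWithin_le_nhds (s := {x₀}ᶜ))
    have a2 := e2.filter_mono (nhdsWithin_le_nhds (s := {x₀}ᶜ))
    have a3 := (hk.continuousAt.eventually_ne hk0).filter_mono (nhdsWithin_le_nhds (s := {x₀}ᶜ))
    have a4 := (hcn.eventually_ne hn0).filter_mono (nhdsWithin_le_nhds (s := {x₀}ᶜ))
    filter_upwards [a0, a1, a2, a3, a4, self_mem_nhdsWithin] with x h0 h1 h2 h3 h4 h5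
    have ht : x - x₀ ≠ 0 := sub_ne_zero.2 h5
    have hN : (x - x₀) ^ 2 * (deriv (deriv f) x * f x - (deriv f x) ^ 2) =
        (x - x₀) ^ (2 * p + 2) * n x := by
      rw [h0, h1, h2, hn]
      rcases Nat.eq_zero_or_pos p with hp0 | hp0
      · subst hp0; push_cast; ring
      · obtain ⟨q, rfl⟩ : ∃ q, p = q + 1 := ⟨p - 1, by omega⟩
        simp only [Nat.add_sub_cancel]
        push_cast
        ring
    have hN0 : deriv (deriv f) x * f x - (deriv f x) ^ 2 ≠ 0 := by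
      intro h
      rw [h, mul_zero] at hN
      exact mul_ne_zero (pow_ne_zero _ ht) h4 hN.symm
    refine ⟨?_, hN0, ?_⟩
    · rw [h0]; exact mul_ne_zero (pow_ne_zero _ ht) h3
    · rw [div_eq_div_iff hN0 h4]
      apply mul_left_cancel₀ (pow_ne_zero 2 ht)
      calc (x - x₀) ^ 2 * (f x ^ 2 * n x) = f x ^ 2 * ((x - x₀) ^ 2 * n x) := by ring
        _ = (x - x₀) ^ 2 * k x ^ 2 * ((x - x₀) ^ (2 * p + 2) * n x) := by
          rw [show f x = (x - x₀) ^ (p + 1) * k x from h0]; ring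
        _ = (x - x₀) ^ 2 * k x ^ 2 * ((x - x₀) ^ 2 *
            (deriv (deriv f) x * f x - (deriv f x) ^ 2)) := by rw [hN]
        _ = _ := by ring
  refine ⟨?_, key.mono fun x hx => ⟨hx.1, hx.2.1⟩⟩
  have hs : Tendsto (fun x => (x - x₀) ^ 2 * k x ^ 2 / n x) (𝓝[≠] x₀) (𝓝 0) := by
    have c4 : ContinuousAt (fun z : ℂ => z - x₀) x₀ := by fun_prop
    have hc : ContinuousAt (fun x => (x - x₀) ^ 2 * k x ^ 2 / n x) x₀ :=
      ((c4.pow 2).mul (hk.continuousAt.pow 2)).div hcn hn0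
    have h1 := hc.tendsto
    simp only [sub_self] at h1
    rw [zero_pow two_ne_zero, zero_mul, zero_div] at h1
    exact h1.mono_left nhdsWithin_le_nhds
  refine hs.congr' ?_
  exact key.mono fun x hx => hx.2.2.symm

/-- evaluation at a point -/
def evAt (x : ℂ) : Ent →ₐ[ℂ] ℂ where
  toFun := fun u => (u : ℂ → ℂ) x
  map_one' := rfl
  map_mul' := fun _ _ => rfl
  map_zero' := rfl
  map_add' := fun _ _ => rfl
  commutes' := fun _ => rfl

@[simp] theorem evAt_apply (x : ℂ) (u : Ent) : evAt x u = (u : ℂ → ℂ) x := rfl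

section

variable {K : Type*} [Field K] [Algebra Ent K] [Algebra ℂ K] [IsScalarTower ℂ Ent K]
  [IsFractionRing Ent K]

noncomputable def NU (f : Ent) (a : ℂ) : Ent := sh (dE (dE f)) a * sh f a - sh (dE f) a ^ 2
noncomputable def QU (f : Ent) (a : ℂ) : Ent := sh f a ^ 2

theorem UU_eq (f : Ent) (a : ℂ) :
    UU K f a = algebraMap Ent K (NU f a) / algebraMap Ent K (QU f a) := by
  simp only [UU, NU, QU, map_sub, map_mul, map_pow]

theorem value_at_pole (f : Ent) (f0 : f ≠ 0) (ψ : K) (d : ℕ) (P : ℕ → ℂ[X])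
    (hP : ∃ i ≤ d, P i ≠ 0)
    (hrel : ∑ i ∈ Finset.range (d + 1), aeval (UU K f 0) (P i) * ψ ^ i = 0) :
    ∃ c : ℂ[X], c ≠ 0 ∧ c.natDegree ≤ d ∧ ∀ x₀, (f : ℂ → ℂ) x₀ = 0 → ∀ A B : Ent,
      (B : ℂ → ℂ) x₀ ≠ 0 → algebraMap Ent K A / algebraMap Ent K B = ψ →
      c.eval ((A : ℂ → ℂ) x₀ / (B : ℂ → ℂ) x₀) = 0 := by
  classical
  obtain ⟨i₀, hi₀, hP₀⟩ := hP
  obtain ⟨i₁, hi₁, hmax⟩ := Finset.exists_max_image
    ((Finset.range (d + 1)).filter (fun i => P i ≠ 0)) (fun i => (P i).natDegree)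
    ⟨i₀, by simp [hP₀]; omega⟩
  set M := (P i₁).natDegree with hM
  have hi₁' := Finset.mem_filter.1 hi₁
  have hle : ∀ i ∈ Finset.range (d + 1), (P i).natDegree ≤ M := by
    intro i hi
    by_cases h0 : P i = 0
    · rw [h0]; simp
    · exact hmax i (Finset.mem_filter.2 ⟨hi, h0⟩)
  refine ⟨∑ i ∈ Finset.range (d + 1), C ((P i).coeff M) * X ^ i, ?_, ?_, ?_⟩
  · intro h
    have h1 := congrArg (fun q => q.coeff i₁) h
    simp only [finsetSum_coeff, coeff_C_mul_X_pow, coeff_zero] at h1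
    rw [Finset.sum_ite_eq, if_pos hi₁'.1] at h1
    exact hi₁'.2 (leadingCoeff_eq_zero.1 h1)
  · apply natDegree_sum_le_of_forall_le
    intro i hi
    refine (natDegree_C_mul_X_pow_le _ _).trans ?_
    have := Finset.mem_range.1 hi
    omega
  · intro x₀ hx₀ A B hB hψ
    obtain ⟨hlim, hev⟩ := pole_lemma (ent_diff f) (ent_ne_zero f0) x₀ hx₀
    set s : ℂ → ℂ := fun x => ((f : ℂ → ℂ) x) ^ 2 /
      (deriv (deriv (f : ℂ → ℂ)) x * (f : ℂ → ℂ) x - (deriv (f : ℂ → ℂ) x) ^ 2) with hs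
    have hBev : ∀ᶠ x in 𝓝[≠] x₀, (B : ℂ → ℂ) x ≠ 0 :=
      ((ent_diff B).continuous.continuousAt.eventually_ne hB).filter_mono nhdsWithin_le_nhds
    have hzero : ∀ᶠ x in 𝓝[≠] x₀, ∑ i ∈ Finset.range (d + 1),
        (reflect M (P i)).eval (s x) * ((A : ℂ → ℂ) x / (B : ℂ → ℂ) x) ^ i = 0 := by
      filter_upwards [hev, hBev] with x hx hBx
      have hN : (NU f 0 : ℂ → ℂ) x =
          deriv (deriv (f : ℂ → ℂ)) x * (f : ℂ → ℂ) x - (deriv (f : ℂ → ℂ) x) ^ 2 := by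
        show deriv (dE f : ℂ → ℂ) (x + 0) * (f : ℂ → ℂ) (x + 0) - (dE f : ℂ → ℂ) (x + 0) ^ 2 = _
        rw [add_zero]; rfl
      have hQ : (QU f 0 : ℂ → ℂ) x = (f : ℂ → ℂ) x ^ 2 := by
        show (f : ℂ → ℂ) (x + 0) ^ 2 = _
        rw [add_zero]
      have hQ0 : evAt x (QU f 0) ≠ 0 := by
        rw [evAt_apply, hQ]; exact pow_ne_zero _ hx.1
      have h1 := eval_rel (evAt x) (NU f 0) (QU f 0) A B hQ0 hBx P d (K := K) (by
        rw [← UU_eq, hψ]; exact hrel)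
      rw [evAt_apply, evAt_apply, evAt_apply, evAt_apply, hN, hQ] at h1
      set φ := (deriv (deriv (f : ℂ → ℂ)) x * (f : ℂ → ℂ) x - (deriv (f : ℂ → ℂ) x) ^ 2) /
        (f : ℂ → ℂ) x ^ 2 with hφ
      have hφ0 : φ ≠ 0 := div_ne_zero hx.2 (pow_ne_zero _ hx.1)
      have hsφ : s x = φ⁻¹ := by rw [hφ, inv_div]
      have h2 : ∀ i ∈ Finset.range (d + 1),
          (P i).eval φ = (reflect M (P i)).eval (s x) * φ ^ M := by
        intro i hi
        let _ := invertibleOfNonzero hφ0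
        have h3 := eval₂_reflect_mul_pow (RingHom.id ℂ) φ M (P i) (hle i hi)
        rw [invOf_eq_inv] at h3
        rw [hsφ]
        exact h3.symm
      have h4 : ∑ i ∈ Finset.range (d + 1), (P i).eval φ *
          ((A : ℂ → ℂ) x / (B : ℂ → ℂ) x) ^ i = φ ^ M * ∑ i ∈ Finset.range (d + 1),
          (reflect M (P i)).eval (s x) * ((A : ℂ → ℂ) x / (B : ℂ → ℂ) x) ^ i := by
        rw [Finset.mul_sum]
        apply Finset.sum_congr rfl
        intro i hi
        rw [h2 i hi]; ring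
      rw [h4] at h1
      exact (mul_eq_zero.1 h1).resolve_left (pow_ne_zero _ hφ0)
    have hcont : Tendsto (fun x => ∑ i ∈ Finset.range (d + 1),
        (reflect M (P i)).eval (s x) * ((A : ℂ → ℂ) x / (B : ℂ → ℂ) x) ^ i) (𝓝[≠] x₀)
        (𝓝 (∑ i ∈ Finset.range (d + 1),
        (reflect M (P i)).eval 0 * ((A : ℂ → ℂ) x₀ / (B : ℂ → ℂ) x₀) ^ i)) := by
      apply tendsto_finsetSum
      intro i _
      apply Tendsto.mul
      · exact ((reflect M (P i)).continuous.tendsto 0).comp hlim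
      · apply Tendsto.pow
        have : ContinuousAt (fun x => (A : ℂ → ℂ) x / (B : ℂ → ℂ) x) x₀ :=
          (ent_diff A).continuous.continuousAt.div (ent_diff B).continuous.continuousAt hB
        exact this.tendsto.mono_left nhdsWithin_le_nhds
    have hlim0 := tendsto_nhds_unique (hcont.congr' (hzero.mono fun x hx => hx))
      tendsto_const_nhds
    rw [eval_finsetSum, ← hlim0]
    apply Finset.sum_congr rfl
    intro i _
    rw [eval_mul, eval_C, eval_pow, eval_X, ← coeff_zero_eq_eval_zero, coeff_reflect]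
    congr 2

end

end Pool.Agent.Lib.MP_db21fa_an.H28
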