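import Pool.Agent.Lib.MP_db21fa_an.H28.Alg

set_option autoImplicit false

namespace Pool.Agent.Lib.MP_db21fa_an.H28

open IntermediateField

section

variable {k K : Type*} [Field k] [Field K] [Algebra k K]

theorem mem_range_of_isAlgebraic [IsAlgClosed k] {x : K} (hx : IsAlgebraic k x) :
    ∃ c : k, x = algebraMap k K c := by
  have hi : IsIntegral k x := hx.isIntegral
  have h1 : (minpoly k x).degree = 1 :=
    IsAlgClosed.degree_eq_one_of_irreducible k (minpoly.irreducible hi)
  have h2 := minpoly.mem_range_of_degree_eq_one k x h1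
  obtain ⟨c, hc⟩ := h2
  exact ⟨c, hc.symm⟩

theorem isAlgebraic_of_mem_adjoin {S : Set K} {t : Set K}
    (alg : ∀ x ∈ S, IsAlgebraic (Algebra.adjoin k t) x) {a : K}
    (ha : a ∈ IntermediateField.adjoin k S) : IsAlgebraic (Algebra.adjoin k t) a := by
  have h1 : IsAlgebraic (IntermediateField.adjoin k S) a :=
    isAlgebraic_algebraMap (⟨a, ha⟩ : IntermediateField.adjoin k S)
  rw [IntermediateField.isAlgebraic_adjoin_iff] at h1
  exact IsAlgebraic.adjoin_of_forall_isAlgebraic (fun x hx => alg x hx.1) h1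

theorem trichotomy [IsAlgClosed k] [CharZero k] (D : Derivation k K K)
    (hD : ∀ x, D x = 0 → ∃ c : k, x = algebraMap k K c)
    (S : Set K) (hS : S.Finite)
    (hdep : ∀ r ∈ S, Transcendental k r → ∀ s ∈ S, IsAlgebraic (Algebra.adjoin k {r}) s) :
    (∃ W : K, ∀ w ∈ IntermediateField.adjoin k S, D (D w) ∈ IntermediateField.adjoin k S →
      ∃ c e : k, w = algebraMap k K c * W + algebraMap k K e) ∨
    (∃ S' : Set K, S'.Finite ∧
      (∀ w ∈ IntermediateField.adjoin k S, w ∈ IntermediateField.adjoin k S' ∧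
        D w ∈ IntermediateField.adjoin k S') ∧
      (∀ φ ∈ IntermediateField.adjoin k S', Transcendental k φ →
        ∀ s ∈ S', IsAlgebraic k⟮φ⟯ s)) := by
  by_cases hall : ∀ r ∈ S, IsAlgebraic k r
  · left
    refine ⟨0, fun w hw _ => ?_⟩
    have h1 : IntermediateField.adjoin k S ≤ ⊥ := by
      rw [IntermediateField.adjoin_le_iff]
      intro s hs
      obtain ⟨c, hc⟩ := mem_range_of_isAlgebraic (hall s hs)
      rw [hc]
      exact IntermediateField.algebraMap_mem _ c
    have h2 := h1 hw
    rw [IntermediateField.mem_bot] at h2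
    obtain ⟨e, he⟩ := h2
    exact ⟨0, e, by simp [he]⟩
  push Not at hall
  obtain ⟨g, hgS, hg⟩ := hall
  have hgt : Transcendental k g := hg
  set L := IntermediateField.adjoin k S with hL
  set X := D g with hX
  have hX0 : X ≠ 0 := by
    intro h0
    obtain ⟨c, hc⟩ := hD g h0
    exact hg (hc ▸ isAlgebraic_algebraMap c)
  set E : Derivation k K K := X⁻¹ • D with hE
  have hEx : ∀ x, E x = X⁻¹ * D x := fun x => rfl
  have hDx : ∀ x, D x = X * E x := by
    intro x; rw [hEx, mul_inv_cancel_left₀ hX0]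
  have hEg : E g = 1 := by rw [hEx]; exact inv_mul_cancel₀ hX0
  set F := IntermediateField.adjoin k {g} with hF
  have hgL : g ∈ L := IntermediateField.subset_adjoin _ _ hgS
  have hFL : F ≤ L := by
    rw [hF, IntermediateField.adjoin_le_iff]
    intro s hs
    rw [Set.mem_singleton_iff.1 hs]; exact hgL
  have hEF : ∀ x ∈ F, E x ∈ F := by
    intro x hx
    apply der_adjoin E F {g} _ x hx
    intro s hs
    rw [Set.mem_singleton_iff.1 hs]
    exact ⟨IntermediateField.subset_adjoin _ _ rfl, by rw [hEg]; exact F.one_mem⟩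
  have hLalg : ∀ l ∈ L, IsAlgebraic (Algebra.adjoin k {g}) l := fun l hl =>
    isAlgebraic_of_mem_adjoin (fun x hx => hdep g hgS hgt x hx) hl
  have hEL : ∀ l ∈ L, E l ∈ L := by
    intro l hl
    apply der_alg E F L hFL hEF l hl
    rw [hF, IntermediateField.isAlgebraic_adjoin_iff]
    exact hLalg l hl
  have hE0 : ∀ x, E x = 0 → ∃ c : k, x = algebraMap k K c := by
    intro x hx
    apply hD
    rw [hDx, hx, mul_zero]
  have hDD : ∀ w, D (D w) = D X * E w + X ^ 2 * E (E w) := by
    intro w
    rw [hDx w, Derivation.leibniz, smul_eq_mul, smul_eq_mul, hDx (E w)]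
    ring
  by_cases hXL : IsAlgebraic L X
  · right
    refine ⟨insert X S, hS.insert X, ?_, ?_⟩
    · intro w hw
      have hle : L ≤ IntermediateField.adjoin k (insert X S) :=
        IntermediateField.adjoin.mono _ _ _ (Set.subset_insert _ _)
      refine ⟨hle hw, ?_⟩
      rw [hDx w]
      exact mul_mem (IntermediateField.subset_adjoin _ _ (Set.mem_insert _ _)) (hle (hEL w hw))
    · intro φ hφ hφt
      have hXg : IsAlgebraic (Algebra.adjoin k {g}) X := by
        rw [hL, IntermediateField.isAlgebraic_adjoin_iff] at hXL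
        exact IsAlgebraic.adjoin_of_forall_isAlgebraic (fun x hx => hdep g hgS hgt x hx.1) hXL
      have hS'g : ∀ s ∈ insert X S, IsAlgebraic (Algebra.adjoin k {g}) s := by
        intro s hs
        rcases Set.mem_insert_iff.1 hs with h | h
        · rw [h]; exact hXg
        · exact hdep g hgS hgt s h
      have hφg : IsAlgebraic (Algebra.adjoin k {g}) φ := isAlgebraic_of_mem_adjoin hS'g hφ
      have hgφ : IsAlgebraic (Algebra.adjoin k {φ}) g :=
        IsAlgebraic.adjoin_singleton (A := K) (B := K) hgt hφt hφg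
      intro s hs
      rw [IntermediateField.isAlgebraic_adjoin_iff]
      refine IsAlgebraic.adjoin_of_forall_isAlgebraic (s := {g}) ?_ (hS'g s hs)
      intro x hx
      rw [Set.mem_singleton_iff.1 hx.1]
      exact hgφ
  · left
    have key : ∀ w1 ∈ L, D (D w1) ∈ L → ∀ w2 ∈ L, D (D w2) ∈ L →
        E (E w1) * E w2 - E (E w2) * E w1 = 0 := by
      intro w1 h1 h1' w2 h2 h2'
      by_contra hne
      apply hXL
      set a := E (E w1) * E w2 - E (E w2) * E w1 with ha
      have haL : a ∈ L := sub_mem (mul_mem (hEL _ (hEL _ h1)) (hEL _ h2))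
        (mul_mem (hEL _ (hEL _ h2)) (hEL _ h1))
      set b := D (D w1) * E w2 - D (D w2) * E w1 with hb
      have hbL : b ∈ L := sub_mem (mul_mem h1' (hEL _ h2)) (mul_mem h2' (hEL _ h1))
      have hab : X ^ 2 * a = b := by
        rw [ha, hb, hDD w1, hDD w2]; ring
      have hX2 : X ^ 2 = b * a⁻¹ := by
        rw [← hab, mul_assoc, mul_inv_cancel₀ hne, mul_one]
      have h3 : X ^ 2 ∈ L := by rw [hX2]; exact mul_mem hbL (inv_mem haL)
      have h4 : IsAlgebraic L (X ^ 2) := isAlgebraic_algebraMap (⟨X ^ 2, h3⟩ : L)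
      exact h4.of_pow (by norm_num)
    by_cases hw : ∃ W ∈ L, D (D W) ∈ L ∧ E W ≠ 0
    · obtain ⟨W, hW, hW', hW0⟩ := hw
      refine ⟨W, fun w hw hw' => ?_⟩
      have h1 := key w hw hw' W hW hW'
      have h2 : E (E w * (E W)⁻¹) = 0 := by
        rw [Derivation.leibniz, Derivation.leibniz_inv, smul_eq_mul, smul_eq_mul, smul_eq_mul]
        field_simp
        linear_combination h1
      obtain ⟨c, hc⟩ := hE0 _ h2
      have h3 : E w = algebraMap k K c * E W := by
        rw [← hc, mul_assoc, inv_mul_cancel₀ hW0, mul_one]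
      have h4 : E (w - algebraMap k K c * W) = 0 := by
        rw [map_sub, Derivation.leibniz, h3]; simp
      obtain ⟨e, he⟩ := hE0 _ h4
      exact ⟨c, e, by rw [← he]; ring⟩
    · push Not at hw
      refine ⟨0, fun w hwL hw' => ?_⟩
      obtain ⟨e, he⟩ := hE0 w (hw w hwL hw')
      exact ⟨0, e, by simp [he]⟩

end

end Pool.Agent.Lib.MP_db21fa_an.H28
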