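import Pool.Agent.Lib.MP_db21fa_an.H28.Wronsk
import Pool.Agent.Lib.MP_db21fa_an.H28.Tri
import Pool.Agent.Lib.MP_db21fa_an.H28.Homog

set_option autoImplicit false

open Filter Topology

namespace Pool.Agent.Lib.MP_db21fa_an.H28

/-- translation of an entire function -/
def sh (f : Ent) (a : ℂ) : Ent :=
  ⟨fun x => (f : ℂ → ℂ) (x + a), f.2.comp (differentiable_id.add_const a)⟩

@[simp] theorem sh_apply (f : Ent) (a x : ℂ) : (sh f a : ℂ → ℂ) x = (f : ℂ → ℂ) (x + a) := rfl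

theorem dE_sh (f : Ent) (a : ℂ) : dE (sh f a) = sh (dE f) a := by
  ext x
  rw [dE_apply, sh_apply, dE_apply]
  exact deriv_comp_add_const (f : ℂ → ℂ) a x

theorem sh_ne_zero {f : Ent} (hf : f ≠ 0) (a : ℂ) : sh f a ≠ 0 := by
  intro h
  apply hf
  ext x
  have := congrArg (fun k : Ent => (k : ℂ → ℂ) (x - a)) h
  simpa using this

theorem deriv_mem (V : Submodule ℂ Ent) [FiniteDimensional ℂ V] (F F' : ℂ → Ent)
    (hF : ∀ y, F y ∈ V)
    (hd : ∀ x y, HasDerivAt (fun y => (F y : ℂ → ℂ) x) ((F' y : ℂ → ℂ) x) y) (y : ℂ) :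
    F' y ∈ V := by
  let ι : Ent →ₗ[ℂ] (ℂ → ℂ) := Ent.val.toLinearMap
  let V' : Submodule ℂ (ℂ → ℂ) := V.map ι
  have hfd : FiniteDimensional ℂ V' := inferInstance
  have hcl : IsClosed (V' : Set (ℂ → ℂ)) := V'.closed_of_finiteDimensional
  have hlim : Tendsto (fun t : ℂ => t⁻¹ • (ι (F (y + t)) - ι (F y))) (𝓝[≠] 0)
      (𝓝 (ι (F' y))) := by
    rw [tendsto_pi_nhds]
    intro x
    have := (hd x y).tendsto_slope_zero
    exact this
  have hmem : ι (F' y) ∈ V' := by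
    refine hcl.mem_of_tendsto hlim (Eventually.of_forall fun t => ?_)
    exact V'.smul_mem _ (V'.sub_mem ⟨_, hF _, rfl⟩ ⟨_, hF _, rfl⟩)
  obtain ⟨v, hv, hv'⟩ := hmem
  have : v = F' y := by
    ext x
    exact congrFun hv' x
  rwa [← this]

variable (h b : Ent)

noncomputable def G0 (y : ℂ) : Ent := sh h (-y) * sh b y
noncomputable def G1 (y : ℂ) : Ent := sh h (-y) * sh (dE b) y - sh (dE h) (-y) * sh b y
noncomputable def G2 (y : ℂ) : Ent := sh h (-y) * sh (dE (dE b)) y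
  - (sh (dE h) (-y) * sh (dE b) y + sh (dE h) (-y) * sh (dE b) y) + sh (dE (dE h)) (-y) * sh b y
noncomputable def G3 (y : ℂ) : Ent := sh h (-y) * sh (dE (dE (dE b))) y
  - (sh (dE h) (-y) * sh (dE (dE b)) y + sh (dE h) (-y) * sh (dE (dE b)) y +
    sh (dE h) (-y) * sh (dE (dE b)) y)
  + (sh (dE (dE h)) (-y) * sh (dE b) y + sh (dE (dE h)) (-y) * sh (dE b) y +
    sh (dE (dE h)) (-y) * sh (dE b) y)
  - sh (dE (dE (dE h))) (-y) * sh b y

theorem hasDerivAt_b (f : Ent) (x y : ℂ) :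
    HasDerivAt (fun y => (f : ℂ → ℂ) (x + y)) ((dE f : ℂ → ℂ) (x + y)) y := by
  have := (ent_diff f (x + y)).hasDerivAt.comp_const_add x y
  simpa using this

theorem hasDerivAt_h (f : Ent) (x y : ℂ) :
    HasDerivAt (fun y => (f : ℂ → ℂ) (x + -y)) (-(dE f : ℂ → ℂ) (x + -y)) y := by
  have h1 : HasDerivAt (fun y : ℂ => x + -y) (-1) y := by
    simpa using ((hasDerivAt_id y).neg.const_add x)
  have := (ent_diff f (x + -y)).hasDerivAt.comp y h1
  refine this.congr_deriv ?_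
  simp

theorem hasDerivAt_prod (f g : Ent) (x y : ℂ) :
    HasDerivAt (fun y => (f : ℂ → ℂ) (x + -y) * (g : ℂ → ℂ) (x + y))
      ((f : ℂ → ℂ) (x + -y) * (dE g : ℂ → ℂ) (x + y) -
        (dE f : ℂ → ℂ) (x + -y) * (g : ℂ → ℂ) (x + y)) y := by
  refine ((hasDerivAt_h f x y).mul (hasDerivAt_b g x y)).congr_deriv ?_
  ring

theorem hasDerivAt_G0 (x y : ℂ) :
    HasDerivAt (fun y => (G0 h b y : ℂ → ℂ) x) ((G1 h b y : ℂ → ℂ) x) y :=
  hasDerivAt_prod h b x y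

theorem hasDerivAt_G1 (x y : ℂ) :
    HasDerivAt (fun y => (G1 h b y : ℂ → ℂ) x) ((G2 h b y : ℂ → ℂ) x) y := by
  have := (hasDerivAt_prod h (dE b) x y).sub (hasDerivAt_prod (dE h) b x y)
  refine this.congr_deriv ?_
  simp [G2]
  ring

theorem hasDerivAt_G2 (x y : ℂ) :
    HasDerivAt (fun y => (G2 h b y : ℂ → ℂ) x) ((G3 h b y : ℂ → ℂ) x) y := by
  have := ((hasDerivAt_prod h (dE (dE b)) x y).sub
    ((hasDerivAt_prod (dE h) (dE b) x y).add (hasDerivAt_prod (dE h) (dE b) x y))).add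
    (hasDerivAt_prod (dE (dE h)) b x y)
  refine this.congr_deriv ?_
  simp [G3]
  ring

end Pool.Agent.Lib.MP_db21fa_an.H28
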