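import Pool.Agent.Lib.MP_db21fa_an.H28.Conv
import Pool.Agent.Lib.MP_db21fa_an.H28.Divis

set_option autoImplicit false

open Filter Topology Metric

namespace Pool.Agent.Lib.MP_db21fa_an.H28

theorem divide_finset {u : ℂ → ℂ} (hu : Differentiable ℂ u) (s : Finset ℂ)
    (hs : ∀ t ∈ s, u t = 0) :
    ∃ g : ℂ → ℂ, Differentiable ℂ g ∧ ∀ z, u z = (∏ t ∈ s, (z - t)) * g z := by
  classical
  induction s using Finset.induction_on with
  | empty => exact ⟨u, hu, fun z => by simp⟩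
  | insert a s ha ih =>
    obtain ⟨g, hg, hug⟩ := ih (fun t ht => hs t (Finset.mem_insert_of_mem ht))
    have h1 : g a = 0 := by
      have h2 := hug a
      rw [hs a (Finset.mem_insert_self _ _)] at h2
      rcases mul_eq_zero.1 h2.symm with h3 | h3
      · exfalso
        obtain ⟨t, ht, h4⟩ := Finset.prod_eq_zero_iff.1 h3
        exact ha (sub_eq_zero.1 h4 ▸ ht)
      · exact h3
    obtain ⟨k, hk, hgk⟩ := division (θ := fun z => z - a) (differentiable_id.sub_const a) hg (by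
      intro p hp
      have h5 : p = a := sub_eq_zero.1 hp
      subst h5
      refine ⟨?_, h1⟩
      simp)
    refine ⟨k, hk, fun z => ?_⟩
    rw [hug, hgk, Finset.prod_insert ha]; ring

theorem zero_of_zeros {ρ R C : ℝ} (hρ : 0 ≤ ρ) (hC : 0 ≤ C) (hR : R = 2 * (ρ + 1) + 1)
    {u : ℂ → ℂ} (hu : Differentiable ℂ u)
    (hgr : ∀ ζ, ‖ζ‖ ≤ R → ∃ z, ‖z‖ ≤ ρ ∧ ‖u ζ‖ ≤ C * ‖u z‖)
    (s : Finset ℂ) (hs1 : ∀ t ∈ s, ‖t‖ ≤ 1) (hs : ∀ t ∈ s, u t = 0) (hk : C < 2 ^ s.card) :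
    ∀ z, ‖z‖ ≤ ρ → u z = 0 := by
  obtain ⟨z₀, hz₀, hmax⟩ := (isCompact_closedBall (0 : ℂ) ρ).exists_isMaxOn
    ⟨0, by simpa using hρ⟩ (hu.continuous.norm.continuousOn)
  rw [mem_closedBall_zero_iff] at hz₀
  have hmax' : ∀ z, ‖z‖ ≤ ρ → ‖u z‖ ≤ ‖u z₀‖ := by
    intro z hz
    exact hmax (mem_closedBall_zero_iff.2 hz)
  obtain ⟨g, hg, hug⟩ := divide_finset hu s hs
  have hRpos : 0 < R - 1 := by rw [hR]; linarith
  have h1 : ∀ ζ : ℂ, ‖ζ‖ = R → ‖g ζ‖ ≤ C * ‖u z₀‖ / (R - 1) ^ s.card := by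
    intro ζ hζ
    rw [le_div_iff₀ (pow_pos hRpos _)]
    obtain ⟨z, hz, hz'⟩ := hgr ζ hζ.le
    have h2 : (R - 1) ^ s.card ≤ ‖∏ t ∈ s, (ζ - t)‖ := by
      rw [norm_prod, ← Finset.prod_const]
      apply Finset.prod_le_prod
      · intro i _; exact hRpos.le
      · intro t ht
        have h3 := norm_sub_norm_le ζ t
        have h4 := hs1 t ht
        linarith
    calc ‖g ζ‖ * (R - 1) ^ s.card ≤ ‖g ζ‖ * ‖∏ t ∈ s, (ζ - t)‖ :=
          mul_le_mul_of_nonneg_left h2 (norm_nonneg _)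
      _ = ‖u ζ‖ := by rw [hug, norm_mul, mul_comm]
      _ ≤ C * ‖u z‖ := hz'
      _ ≤ C * ‖u z₀‖ := mul_le_mul_of_nonneg_left (hmax' z hz) hC
  have h2 : ‖g z₀‖ ≤ C * ‖u z₀‖ / (R - 1) ^ s.card := by
    have hRne : R ≠ 0 := by linarith
    apply Complex.norm_le_of_forall_mem_frontier_norm_le (U := ball (0 : ℂ) R) isBounded_ball
      hg.diffContOnCl
    · intro ζ hζ
      rw [frontier_ball 0 hRne, mem_sphere_zero_iff_norm] at hζ
      exact h1 ζ hζ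
    · rw [closure_ball 0 hRne, mem_closedBall_zero_iff]
      linarith
  have h3 : ‖∏ t ∈ s, (z₀ - t)‖ ≤ (ρ + 1) ^ s.card := by
    rw [norm_prod, ← Finset.prod_const]
    apply Finset.prod_le_prod
    · intro i _; exact norm_nonneg _
    · intro t ht
      have h4 := norm_sub_le z₀ t
      have h5 := hs1 t ht
      linarith
  have h4 : ‖u z₀‖ * 2 ^ s.card ≤ C * ‖u z₀‖ := by
    have h5 : ‖u z₀‖ ≤ (ρ + 1) ^ s.card * (C * ‖u z₀‖ / (R - 1) ^ s.card) := by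
      conv_lhs => rw [hug, norm_mul]
      exact mul_le_mul h3 h2 (norm_nonneg _) (by positivity)
    have h6 : (R - 1) ^ s.card = 2 ^ s.card * (ρ + 1) ^ s.card := by
      rw [← mul_pow, hR]; congr 1; ring
    rw [h6] at h5
    have h7 : (0 : ℝ) < (ρ + 1) ^ s.card := by positivity
    have h8 : (ρ + 1) ^ s.card * (C * ‖u z₀‖ / (2 ^ s.card * (ρ + 1) ^ s.card)) =
        C * ‖u z₀‖ / 2 ^ s.card := by field_simp
    rw [h8, le_div_iff₀ (by positivity)] at h5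
    exact h5
  have h5 : ‖u z₀‖ = 0 := by
    by_contra hne
    have h6 : 0 < ‖u z₀‖ := lt_of_le_of_ne (norm_nonneg _) (Ne.symm hne)
    nlinarith
  intro z hz
  have h6 := hmax' z hz
  rw [h5] at h6
  exact norm_le_zero_iff.1 h6

/-- iterating a quasi-periodicity relation -/
theorem quasi_iter {u : ℂ → ℂ} {ω a c : ℂ}
    (hu : ∀ z, u (z + ω) = Complex.exp (2 * a * z + c) * u z) (n : ℤ) : ∀ z,
    u (z + n * ω) = Complex.exp (2 * a * n * z + n * c + a * n * (n - 1) * ω) * u z := by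
  induction n using Int.induction_on with
  | zero => intro z; simp
  | succ n ih =>
    intro z
    have e1 : z + ((n + 1 : ℤ) : ℂ) * ω = (z + ((n : ℤ) : ℂ) * ω) + ω := by push_cast; ring
    rw [e1, hu, ih, ← mul_assoc, ← Complex.exp_add]
    congr 2
    push_cast
    ring
  | pred n ih =>
    intro z
    have e1 : z + (((-n : ℤ) : ℤ) : ℂ) * ω = (z + ((-n - 1 : ℤ) : ℂ) * ω) + ω := by
      push_cast; ring
    have h1 := ih z
    rw [e1, hu] at h1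
    have h2 : u (z + ((-n - 1 : ℤ) : ℂ) * ω) =
        Complex.exp (-(2 * a * (z + ((-n - 1 : ℤ) : ℂ) * ω) + c)) *
        (Complex.exp (2 * a * ((-n : ℤ) : ℂ) * z + ((-n : ℤ) : ℂ) * c + a * ((-n : ℤ) : ℂ) *
          (((-n : ℤ) : ℂ) - 1) * ω) * u z) := by
      rw [← h1, ← mul_assoc, ← Complex.exp_add]
      simp
    rw [h2, ← mul_assoc, ← Complex.exp_add]
    congr 2
    push_cast
    ring

theorem quasi_bound {ω a c : ℂ} (K T : ℝ) (hK : 0 ≤ K) (hT : 0 ≤ T) :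
    ∃ B : ℝ, 0 ≤ B ∧ ∀ (n : ℤ) (z : ℂ), |(n : ℝ)| ≤ K → ‖z‖ ≤ T →
      ‖2 * a * n * z + n * c + a * n * (n - 1) * ω‖ ≤ B := by
  refine ⟨2 * ‖a‖ * K * T + K * ‖c‖ + ‖a‖ * K * (K + 1) * ‖ω‖, by positivity, ?_⟩
  intro n z hn hz
  have h0 : ‖(n : ℂ)‖ ≤ K := by
    rw [Complex.norm_intCast]; exact hn
  have h1 : ‖(n : ℂ) - 1‖ ≤ K + 1 := by
    refine (norm_sub_le _ _).trans ?_
    rw [norm_one]; linarith
  refine (norm_add_le _ _).trans (add_le_add ((norm_add_le _ _).trans (add_le_add ?_ ?_)) ?_)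
  · rw [norm_mul, norm_mul, norm_mul, Complex.norm_two]
    gcongr
  · rw [norm_mul]
    gcongr
  · rw [norm_mul, norm_mul, norm_mul]
    gcongr

/-- the space of theta functions of level `D` -/
def TW (ω₁ ω₂ a₁ a₂ c₁ c₂ : ℂ) (D : ℕ) : Submodule ℂ (ℂ → ℂ) where
  carrier := {u | Differentiable ℂ u ∧
    (∀ z, u (z + ω₁) = Complex.exp (2 * (D * a₁) * z + D * c₁) * u z) ∧
    (∀ z, u (z + ω₂) = Complex.exp (2 * (D * a₂) * z + D * c₂) * u z)}
  add_mem' := by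
    rintro u v ⟨h1, h2, h3⟩ ⟨h1', h2', h3'⟩
    refine ⟨h1.add h1', fun z => ?_, fun z => ?_⟩
    · rw [Pi.add_apply, Pi.add_apply, h2, h2']; ring
    · rw [Pi.add_apply, Pi.add_apply, h3, h3']; ring
  zero_mem' := by
    refine ⟨differentiable_const 0, fun z => ?_, fun z => ?_⟩ <;> simp
  smul_mem' := by
    rintro c u ⟨h1, h2, h3⟩
    refine ⟨h1.const_smul c, fun z => ?_, fun z => ?_⟩
    · rw [Pi.smul_apply, Pi.smul_apply, h2, smul_eq_mul, smul_eq_mul]; ring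
    · rw [Pi.smul_apply, Pi.smul_apply, h3, smul_eq_mul, smul_eq_mul]; ring

theorem TW_growth {ω₁ ω₂ : ℂ} (hli : LinearIndependent ℝ ![ω₁, ω₂]) (a₁ a₂ c₁ c₂ : ℂ) :
    ∃ ρ : ℝ, 0 ≤ ρ ∧ ∀ R : ℝ, 0 ≤ R → ∃ C : ℝ, 0 ≤ C ∧ ∀ (D : ℕ), ∀ u ∈ TW ω₁ ω₂ a₁ a₂ c₁ c₂ D,
      ∀ ζ : ℂ, ‖ζ‖ ≤ R → ∃ z : ℂ, ‖z‖ ≤ ρ ∧ ‖u ζ‖ ≤ Real.exp (C * D) * ‖u z‖ := by
  have hcard : Fintype.card (Fin 2) = Module.finrank ℝ ℂ := by
    rw [Complex.finrank_real_complex]; rfl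
  let e := basisOfLinearIndependentOfCardEqFinrank hli hcard
  have he : ∀ i, e i = ![ω₁, ω₂] i := fun i => by
    simp [e]
  let l : Fin 2 → ℂ →L[ℝ] ℝ := fun i => LinearMap.toContinuousLinearMap (e.coord i)
  have hl : ∀ i z, e.repr z i = l i z := fun i z => rfl
  refine ⟨‖ω₁‖ + ‖ω₂‖, by positivity, fun R hR => ?_⟩
  set K : ℝ := max (‖l 0‖) (‖l 1‖) * R + 1 with hKdef
  have hK : 0 ≤ K := by positivity
  set ρ : ℝ := ‖ω₁‖ + ‖ω₂‖ with hρ
  have hρ0 : 0 ≤ ρ := by positivity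
  obtain ⟨B₂, hB₂, hb₂⟩ := quasi_bound (ω := ω₂) (a := a₂) (c := c₂) K ρ hK hρ0
  obtain ⟨B₁, hB₁, hb₁⟩ := quasi_bound (ω := ω₁) (a := a₁) (c := c₁) K (ρ + K * ‖ω₂‖) hK
    (by positivity)
  refine ⟨B₁ + B₂, by positivity, ?_⟩
  rintro D u ⟨_, hu1, hu2⟩ ζ hζ
  set m : ℤ := ⌊l 0 ζ⌋ with hm
  set n : ℤ := ⌊l 1 ζ⌋ with hn
  have hfl : ∀ i, |((⌊l i ζ⌋ : ℤ) : ℝ)| ≤ ‖l i‖ * R + 1 := by
    intro i
    have h1 : |l i ζ| ≤ ‖l i‖ * R := by
      have := (l i).le_opNorm ζ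
      rw [Real.norm_eq_abs] at this
      exact this.trans (mul_le_mul_of_nonneg_left hζ (norm_nonneg _))
    have h2 := Int.floor_le (l i ζ)
    have h3 := Int.lt_floor_add_one (l i ζ)
    rw [abs_le] at h1 ⊢
    constructor <;> linarith [h1.1, h1.2]
  have hmK : |(m : ℝ)| ≤ K := (hfl 0).trans (by
    rw [hKdef]
    gcongr
    exact le_max_left _ _)
  have hnK : |(n : ℝ)| ≤ K := (hfl 1).trans (by
    rw [hKdef]
    gcongr
    exact le_max_right _ _)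
  have hdec : ζ = (l 0 ζ : ℂ) * ω₁ + (l 1 ζ : ℂ) * ω₂ := by
    have h1 := e.sum_repr ζ
    rw [Fin.sum_univ_two, he, he, hl, hl] at h1
    simp only [Matrix.cons_val_zero, Matrix.cons_val_one, Complex.real_smul] at h1
    exact h1.symm
  set z : ℂ := ζ - m * ω₁ - n * ω₂ with hz
  have hzρ : ‖z‖ ≤ ρ := by
    have h1 : z = ((Int.fract (l 0 ζ) : ℝ) : ℂ) * ω₁ + ((Int.fract (l 1 ζ) : ℝ) : ℂ) * ω₂ := by
      rw [hz, Int.fract, Int.fract, ← hm, ← hn]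
      push_cast
      linear_combination hdec
    rw [h1, hρ]
    refine (norm_add_le _ _).trans (add_le_add ?_ ?_)
    · rw [norm_mul, Complex.norm_real, Real.norm_eq_abs, abs_of_nonneg (Int.fract_nonneg _)]
      have := (Int.fract_lt_one (l 0 ζ)).le
      nlinarith [norm_nonneg ω₁]
    · rw [norm_mul, Complex.norm_real, Real.norm_eq_abs, abs_of_nonneg (Int.fract_nonneg _)]
      have := (Int.fract_lt_one (l 1 ζ)).le
      nlinarith [norm_nonneg ω₂]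
  refine ⟨z, hzρ, ?_⟩
  have e1 : ζ = (z + n * ω₂) + m * ω₁ := by rw [hz]; ring
  have hzn : ‖z + n * ω₂‖ ≤ ρ + K * ‖ω₂‖ := by
    refine (norm_add_le _ _).trans (add_le_add hzρ ?_)
    rw [norm_mul, Complex.norm_intCast]
    gcongr
  have f1 := quasi_iter hu1 m (z + n * ω₂)
  have f2 := quasi_iter hu2 n z
  have g1 : ‖Complex.exp (2 * (D * a₁) * m * (z + n * ω₂) + m * (D * c₁) +
      (D * a₁) * m * (m - 1) * ω₁)‖ ≤ Real.exp (B₁ * D) := by
    rw [Complex.norm_exp]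
    apply Real.exp_le_exp.2
    refine (Complex.re_le_norm _).trans ?_
    have e2 : 2 * (D * a₁) * m * (z + n * ω₂) + m * (D * c₁) + (D * a₁) * m * (m - 1) * ω₁ =
        (D : ℂ) * (2 * a₁ * m * (z + n * ω₂) + m * c₁ + a₁ * m * (m - 1) * ω₁) := by ring
    rw [e2, norm_mul, Complex.norm_natCast, mul_comm]
    exact mul_le_mul_of_nonneg_right (hb₁ m _ hmK hzn) (Nat.cast_nonneg _)
  have g2 : ‖Complex.exp (2 * (D * a₂) * n * z + n * (D * c₂) +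
      (D * a₂) * n * (n - 1) * ω₂)‖ ≤ Real.exp (B₂ * D) := by
    rw [Complex.norm_exp]
    apply Real.exp_le_exp.2
    refine (Complex.re_le_norm _).trans ?_
    have e2 : 2 * (D * a₂) * n * z + n * (D * c₂) + (D * a₂) * n * (n - 1) * ω₂ =
        (D : ℂ) * (2 * a₂ * n * z + n * c₂ + a₂ * n * (n - 1) * ω₂) := by ring
    rw [e2, norm_mul, Complex.norm_natCast, mul_comm]
    exact mul_le_mul_of_nonneg_right (hb₂ n _ hnK hzρ) (Nat.cast_nonneg _)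
  calc ‖u ζ‖ = ‖u ((z + n * ω₂) + m * ω₁)‖ := by rw [← e1]
    _ = _ := by rw [f1, f2, norm_mul, norm_mul]
    _ ≤ Real.exp (B₁ * D) * (Real.exp (B₂ * D) * ‖u z‖) := by gcongr
    _ = Real.exp ((B₁ + B₂) * D) * ‖u z‖ := by
        rw [← mul_assoc, ← Real.exp_add]; congr 2; ring

theorem TW_dim {ω₁ ω₂ : ℂ} (hli : LinearIndependent ℝ ![ω₁, ω₂]) (a₁ a₂ c₁ c₂ : ℂ) :
    ∃ M : ℕ, ∀ D : ℕ, FiniteDimensional ℂ (TW ω₁ ω₂ a₁ a₂ c₁ c₂ D) ∧
      Module.finrank ℂ (TW ω₁ ω₂ a₁ a₂ c₁ c₂ D) ≤ M * D + M := by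
  obtain ⟨ρ, hρ, hgr0⟩ := TW_growth hli a₁ a₂ c₁ c₂
  obtain ⟨C, hC, hgr⟩ := hgr0 (2 * (ρ + 1) + 1) (by positivity)
  obtain ⟨M, hM⟩ := pow_unbounded_of_one_lt (Real.exp C) (one_lt_two : (1 : ℝ) < 2)
  have hM0 : M ≠ 0 := by
    rintro rfl
    have := Real.one_le_exp hC
    rw [pow_zero] at hM
    linarith
  refine ⟨M, fun D => ?_⟩
  set k := M * D + 1 with hk
  let t : Fin k → ℂ := fun j => 1 / ((j : ℂ) + 1)
  have ht1 : ∀ j, ‖t j‖ ≤ 1 := by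
    intro j
    have e1 : ((j : ℕ) : ℂ) + 1 = (((j : ℕ) + 1 : ℕ) : ℂ) := by push_cast; ring
    show ‖1 / (((j : ℕ) : ℂ) + 1)‖ ≤ 1
    rw [e1, norm_div, norm_one, Complex.norm_natCast]
    rw [div_le_one (by positivity)]
    push_cast
    have : (0 : ℝ) ≤ (j : ℕ) := Nat.cast_nonneg _
    linarith
  have htinj : Function.Injective t := by
    intro i j hij
    have e1 : ∀ j : Fin k, ((j : ℕ) : ℂ) + 1 ≠ 0 := fun j => Nat.cast_add_one_ne_zero _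
    have h1 : 1 / (((i : ℕ) : ℂ) + 1) = 1 / (((j : ℕ) : ℂ) + 1) := hij
    rw [div_eq_div_iff (e1 i) (e1 j), one_mul, one_mul] at h1
    have h2 : ((j : ℕ) : ℂ) = ((i : ℕ) : ℂ) := add_right_cancel h1
    exact Fin.ext (by exact_mod_cast h2.symm)
  let ev : TW ω₁ ω₂ a₁ a₂ c₁ c₂ D →ₗ[ℂ] (Fin k → ℂ) :=
    { toFun := fun u j => (u : ℂ → ℂ) (t j)
      map_add' := fun u v => rfl
      map_smul' := fun c u => rfl }
  have hinj : Function.Injective ev := by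
    rw [← LinearMap.ker_eq_bot, LinearMap.ker_eq_bot']
    intro u hu
    have hz : ∀ j, (u : ℂ → ℂ) (t j) = 0 := fun j => congrFun hu j
    have h0 : ∀ z, ‖z‖ ≤ ρ → (u : ℂ → ℂ) z = 0 := by
      apply zero_of_zeros hρ (Real.exp_pos (C * D)).le rfl u.2.1 (hgr D u u.2)
        (Finset.univ.image t)
      · intro s hs
        obtain ⟨j, _, rfl⟩ := Finset.mem_image.1 hs
        exact ht1 j
      · intro s hs
        obtain ⟨j, _, rfl⟩ := Finset.mem_image.1 hs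
        exact hz j
      · rw [Finset.card_image_of_injective _ htinj, Finset.card_univ, Fintype.card_fin, hk,
          pow_succ, pow_mul]
        have h1 : Real.exp (C * D) = Real.exp C ^ D := by
          rw [← Real.exp_nat_mul, mul_comm]
        have h2 : Real.exp C ^ D ≤ ((2 : ℝ) ^ M) ^ D :=
          pow_le_pow_left₀ (Real.exp_pos _).le hM.le _
        have h3 : (0 : ℝ) < ((2 : ℝ) ^ M) ^ D := by positivity
        rw [h1]
        linarith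
    have h1 : (u : ℂ → ℂ) = 0 := by
      funext ζ
      obtain ⟨C', _, hC'⟩ := hgr0 ‖ζ‖ (norm_nonneg ζ)
      obtain ⟨z, hzρ, hz'⟩ := hC' D u u.2 ζ le_rfl
      rw [h0 z hzρ, norm_zero, mul_zero] at hz'
      exact norm_le_zero_iff.1 hz'
    exact Subtype.ext h1
  refine ⟨FiniteDimensional.of_injective ev hinj, ?_⟩
  have h1 := LinearMap.finrank_le_finrank_of_injective hinj
  rw [Module.finrank_fin_fun] at h1
  have : 1 ≤ M := Nat.one_le_iff_ne_zero.2 hM0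
  omega

theorem sol_theta {h b : ℂ → ℂ} (hh : Differentiable ℂ h) (hb : Differentiable ℂ b)
    (h0 : ∃ z, h z ≠ 0) (b0 : ∃ z, b z ≠ 0) (hr : ThetaPair h b) : OrderTwo h ∧ OrderTwo b ∧ Sol h b := by
  obtain ⟨ω₁, ω₂, a₁, a₂, p₁, p₂, q₁, q₂, hli, hz⟩ := hr
  obtain ⟨M, hM⟩ := TW_dim hli a₁ a₂ (p₁ + q₁) (p₂ + q₂)
  refine sol_of_family hh hb h0 b0 (TW ω₁ ω₂ a₁ a₂ (p₁ + q₁) (p₂ + q₂)) M ?_ ?_
    (fun D => (hM D).1) (fun D => (hM D).2) ?_
  · rintro D D' u ⟨h1, h2, h3⟩ v ⟨h1', h2', h3'⟩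
    refine ⟨h1.mul h1', fun z => ?_, fun z => ?_⟩
    · rw [Pi.mul_apply, Pi.mul_apply, h2, h2']
      have e1 : Complex.exp (2 * (((D + D' : ℕ) : ℂ) * a₁) * z + ((D + D' : ℕ) : ℂ) * (p₁ + q₁)) =
          Complex.exp (2 * (D * a₁) * z + D * (p₁ + q₁)) *
          Complex.exp (2 * (D' * a₁) * z + D' * (p₁ + q₁)) := by
        rw [← Complex.exp_add]; congr 1; push_cast; ring
      rw [e1]; ring
    · rw [Pi.mul_apply, Pi.mul_apply, h3, h3']
      have e1 : Complex.exp (2 * (((D + D' : ℕ) : ℂ) * a₂) * z + ((D + D' : ℕ) : ℂ) * (p₂ + q₂)) =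
          Complex.exp (2 * (D * a₂) * z + D * (p₂ + q₂)) *
          Complex.exp (2 * (D' * a₂) * z + D' * (p₂ + q₂)) := by
        rw [← Complex.exp_add]; congr 1; push_cast; ring
      rw [e1]; ring
  · refine ⟨differentiable_const 1, fun z => ?_, fun z => ?_⟩ <;> simp
  · intro y
    refine ⟨(hh.comp (differentiable_id.sub_const y)).mul
      (hb.comp (differentiable_id.add_const y)), fun z => ?_, fun z => ?_⟩
    · show h (z + ω₁ - y) * b (z + ω₁ + y) = _ * (h (z - y) * b (z + y))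
      have e1 : z + ω₁ - y = (z - y) + ω₁ := by ring
      have e2 : z + ω₁ + y = (z + y) + ω₁ := by ring
      rw [e1, e2, (hz _).1, (hz _).2.2.1]
      have e3 : Complex.exp (2 * (((1 : ℕ) : ℂ) * a₁) * z + ((1 : ℕ) : ℂ) * (p₁ + q₁)) =
          Complex.exp (a₁ * (z - y) + p₁) * Complex.exp (a₁ * (z + y) + q₁) := by
        rw [← Complex.exp_add]; congr 1; push_cast; ring
      rw [e3]; ring
    · show h (z + ω₂ - y) * b (z + ω₂ + y) = _ * (h (z - y) * b (z + y))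
      have e1 : z + ω₂ - y = (z - y) + ω₂ := by ring
      have e2 : z + ω₂ + y = (z + y) + ω₂ := by ring
      rw [e1, e2, (hz _).2.1, (hz _).2.2.2]
      have e3 : Complex.exp (2 * (((1 : ℕ) : ℂ) * a₂) * z + ((1 : ℕ) : ℂ) * (p₂ + q₂)) =
          Complex.exp (a₂ * (z - y) + p₂) * Complex.exp (a₂ * (z + y) + q₂) := by
        rw [← Complex.exp_add]; congr 1; push_cast; ring
      rw [e3]; ring

end Pool.Agent.Lib.MP_db21fa_an.H28
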