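import Pool.Agent.Lib.MP_db21fa_an.H28.Ent

set_option autoImplicit false

open Filter Topology

namespace Pool.Agent.Lib.MP_db21fa_an.H28

theorem lemZ {f q : ℂ → ℂ} {z : ℂ} (hf : AnalyticAt ℂ f z) (hq : AnalyticAt ℂ q z)
    (h0 : f z = 0) (h : ∀ᶠ x in 𝓝 z, deriv f x = q x * f x) : ∀ᶠ x in 𝓝 z, f x = 0 := by
  have h1 := hf.analyticOrderAt_deriv_add_one
  have h2 : analyticOrderAt (fun x => f x - f z) z = analyticOrderAt f z := by
    congr 1; funext x; rw [h0, sub_zero]
  rw [h2] at h1
  have h3 : analyticOrderAt (deriv f) z = analyticOrderAt q z + analyticOrderAt f z := by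
    rw [← analyticOrderAt_mul hq hf]
    exact analyticOrderAt_congr h
  rw [← analyticOrderAt_eq_top]
  by_contra hne
  rw [h3] at h1
  have h4 : analyticOrderAt q z + analyticOrderAt f z + 1 ≥ analyticOrderAt f z + 1 := by
    gcongr
    exact le_add_self
  rw [h1] at h4
  exact absurd h4 (not_le.2 (ENat.lt_add_one_iff hne |>.2 le_rfl))

theorem entire_zero {f : ℂ → ℂ} (hf : Differentiable ℂ f) {z : ℂ} (h : ∀ᶠ x in 𝓝 z, f x = 0) :
    ∀ x, f x = 0 := by
  have h1 : AnalyticOnNhd ℂ f Set.univ := fun x _ => hf.analyticAt x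
  intro x
  exact h1.eqOn_zero_of_preconnected_of_eventuallyEq_zero isPreconnected_univ (Set.mem_univ z) h
    (Set.mem_univ x)

theorem wronsk {a b : ℂ → ℂ} (ha : Differentiable ℂ a) (hb : Differentiable ℂ b)
    (hb0 : ∃ z, b z ≠ 0) (h : ∀ x, deriv a x * b x = a x * deriv b x) :
    ∃ c : ℂ, ∀ x, a x = c * b x := by
  obtain ⟨z, hz⟩ := hb0
  refine ⟨a z / b z, fun x => ?_⟩
  set c := a z / b z with hc
  have hd : Differentiable ℂ (fun x => a x - c * b x) := ha.sub (hb.const_mul c)
  have hder : ∀ x, deriv (fun x => a x - c * b x) x = deriv a x - c * deriv b x := by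
    intro x
    exact ((ha x).hasDerivAt.sub ((hb x).hasDerivAt.const_mul c)).deriv
  have h1 : ∀ᶠ x in 𝓝 z, a x - c * b x = 0 := by
    apply lemZ (f := fun x => a x - c * b x) (q := fun x => deriv b x / b x) (hd.analyticAt z)
    · exact ((diff_deriv hb).analyticAt z).div (hb.analyticAt z) hz
    · simp [hc, hz]
    · have h2 : ∀ᶠ x in 𝓝 z, b x ≠ 0 := (hb.continuous.continuousAt).eventually_ne hz
      filter_upwards [h2] with x hx
      rw [hder x]
      field_simp
      linear_combination h x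
  have := entire_zero hd h1 x
  linear_combination this

section Frac

variable {K : Type*} [Field K] [Algebra Ent K] [Algebra ℂ K] [IsScalarTower ℂ Ent K]
  [IsFractionRing Ent K]

theorem ent_ne_zero {b : Ent} (hb : b ≠ 0) : ∃ z, (b : ℂ → ℂ) z ≠ 0 := by
  by_contra h
  push Not at h
  exact hb (by ext x; exact h x)

theorem const_of_D (D : Derivation ℂ K K)
    (hD : ∀ a : Ent, D (algebraMap Ent K a) = algebraMap Ent K (dE a)) (x : K) (hx : D x = 0) :
    ∃ c : ℂ, x = algebraMap ℂ K c := by
  obtain ⟨a, b, hb, rfl⟩ := IsFractionRing.div_surjective (A := Ent) x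
  have hb0 : b ≠ 0 := nonZeroDivisors.ne_zero hb
  have hbK : algebraMap Ent K b ≠ 0 := by
    rwa [Ne, IsFractionRing.to_map_eq_zero_iff]
  have h1 : D (algebraMap Ent K a) * algebraMap Ent K b =
      algebraMap Ent K a * D (algebraMap Ent K b) := by
    rw [div_eq_mul_inv, Derivation.leibniz, Derivation.leibniz_inv, smul_eq_mul, smul_eq_mul,
      smul_eq_mul] at hx
    field_simp at hx
    linear_combination hx
  rw [hD, hD, ← map_mul, ← map_mul] at h1
  have h2 : dE a * b = a * dE b := IsFractionRing.injective Ent K h1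
  obtain ⟨c, hc⟩ := wronsk (ent_diff a) (ent_diff b) (ent_ne_zero hb0) (fun x => by
    have := congrArg (fun k : Ent => (k : ℂ → ℂ) x) h2
    simpa using this)
  refine ⟨c, ?_⟩
  have h3 : a = c • b := by ext x; exact hc x
  rw [h3, Algebra.smul_def, map_mul, ← IsScalarTower.algebraMap_apply, mul_div_assoc,
    div_self hbK, mul_one]

end Frac

end Pool.Agent.Lib.MP_db21fa_an.H28
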